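import Mathlib
import Pool.Agent.Lib.MP_8ca0c8_nt_CYC.Defs

/-!
# Project CYC2 (MP_8ca0c8_nt): the two smallest limit points. Definitions.
-/

namespace Pool.Agent.CYC

open Finset

/-- auxiliary data of a family: the values are not `1`, `2` and the logarithms of `|f - 1|`,
`|f - 2|` have nonnegative mean -/
def Fam.Aux {Ω : Type} [Fintype Ω] {q : ℕ} [NeZero q] (F : Fam Ω q) : Prop :=
  (∀ φ, ∀ a ∈ F.S, F.f φ a ≠ 1 ∧ F.f φ a ≠ 2) ∧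
  0 ≤ ∑ φ, ∑ a ∈ F.S, Real.log |F.f φ a - 1| ∧
  0 ≤ ∑ φ, ∑ a ∈ F.S, Real.log |F.f φ a - 2|

/-- a ring of functions on the places which behaves like a ring of algebraic integers -/
structure IRing (Ω : Type) [Fintype Ω] where
  A : Subring (Ω → ℂ)
  hA : ∀ x ∈ A, x ≠ 0 → (∀ φ, x φ ≠ 0) ∧ 0 ≤ ∑ φ, Real.log ‖x φ‖
  hsq : ∀ x : Ω → ℂ, x ^ 2 ∈ A → 2 * x ∈ A → x ∈ A

/-- A family with coefficients `D φ j` in the ring `R`, supported on `J`, close to the Fourier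
coefficients `T φ j`. -/
structure BFam (Ω : Type) [Fintype Ω] (q : ℕ) [NeZero q] (R : IRing Ω) extends Fam Ω q where
  hS1 : q ≤ S.card + 1
  hψA : ∀ b, (fun φ => ψ φ b) ∈ R.A
  J : Finset (ZMod q)
  D : Ω → ZMod q → ℂ
  κ : ℝ
  hκ : 0 ≤ κ
  hD : ∀ j, (fun φ => D φ j) ∈ R.A
  hD0 : ∀ j, j ∉ J → ∀ φ, D φ j = 0
  hDJ : ∀ j ∈ J, ∀ φ, D φ j ≠ 0
  hconj : ∀ φ j, D φ (-j) = (starRingEnd ℂ) (D φ j)
  near : ∀ φ j, ‖toFam.T φ j - D φ j‖ ≤ κ * toFam.m φ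
  hfD : ∀ φ, ∀ a ∈ S, (f φ a : ℂ) = ∑ u, D φ u * ψ φ (-(u * a))
  hgal : ∀ (J1 : Finset (ZMod q)), ∀ a ∈ S, ∀ a' ∈ S, ∀ φ φ',
    ∑ u ∈ J1, D φ u * ψ φ (-(u * a)) = 0 → ∑ u ∈ J1, D φ' u * ψ φ' (-(u * a')) = 0

namespace BFam

variable {Ω : Type} [Fintype Ω] {q : ℕ} [NeZero q] {R : IRing Ω} (G : BFam Ω q R)

/-- partial sums of the Fourier expansion -/
noncomputable def g (J1 : Finset (ZMod q)) (φ : Ω) (a : ZMod q) : ℂ :=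
  ∑ u ∈ J1, G.D φ u * G.ψ φ (-(u * a))

theorem neg_mem {j : ZMod q} (hj : j ∈ G.J) [Nonempty Ω] : -j ∈ G.J := by
  by_contra h
  obtain ⟨φ⟩ := ‹Nonempty Ω›
  have h1 := G.hD0 (-j) h φ
  rw [G.hconj, map_eq_zero] at h1
  exact G.hDJ j hj φ h1

theorem norm_D_le (φ : Ω) (j : ZMod q) : ‖G.D φ j‖ ≤ (1 + G.κ) * G.m φ := by
  have h1 := G.near φ j
  have h2 := G.norm_T_le φ j
  have h3 : ‖G.D φ j‖ ≤ ‖G.T φ j‖ + ‖G.T φ j - G.D φ j‖ := by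
    have := norm_sub_le (G.T φ j) (G.T φ j - G.D φ j)
    rwa [sub_sub_cancel] at this
  linarith

theorem D_zero_im (φ : Ω) : (G.D φ 0).im = 0 := by
  have h := G.hconj φ 0
  rw [neg_zero] at h
  exact Complex.conj_eq_iff_im.mp h.symm

theorem D_zero_eq (φ : Ω) : G.D φ 0 = ((G.D φ 0).re : ℂ) :=
  Complex.ext rfl (by rw [G.D_zero_im, Complex.ofReal_im])

theorem abs_m_sub_le (φ : Ω) : |G.m φ - (G.D φ 0).re| ≤ G.κ * G.m φ := by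
  have h1 := G.near φ 0
  rw [G.T_zero, G.D_zero_eq, ← Complex.ofReal_sub, Complex.norm_real, Real.norm_eq_abs] at h1
  exact h1

theorem D_zero_pos (hκ1 : G.κ < 1) (φ : Ω) : 0 < (G.D φ 0).re := by
  have h1 := abs_le.mp (G.abs_m_sub_le φ)
  have h2 := G.m_pos φ
  have h3 : G.κ * G.m φ < 1 * G.m φ := mul_lt_mul_of_pos_right hκ1 h2
  linarith [h1.2]

theorem zero_mem [Nonempty Ω] (hκ1 : G.κ < 1) : (0 : ZMod q) ∈ G.J := by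
  by_contra h
  obtain ⟨φ⟩ := ‹Nonempty Ω›
  have h1 := G.hD0 0 h φ
  have h2 := G.D_zero_pos hκ1 φ
  rw [h1] at h2
  simp at h2

theorem log_D {j : ZMod q} (hj : j ∈ G.J) [Nonempty Ω] : 0 ≤ ∑ φ, Real.log ‖G.D φ j‖ := by
  obtain ⟨φ⟩ := ‹Nonempty Ω›
  exact (R.hA _ (G.hD j) (fun h => G.hDJ j hj φ (congrFun h φ))).2

end BFam

/-- the partial sums of the expansion of `α` over the residue classes of the exponents -/
noncomputable def tB (c : ℕ → ℂ) (n q : ℕ) (j : ZMod q) : ℂ :=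
  ∑ i ∈ (range n).filter (fun i : ℕ => (i : ZMod q) = j), c i * zt n ^ i

end Pool.Agent.CYC
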