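import Mathlib
import Pool.Agent.Lib.MP_8ca0c8_nt_CYC2.Defs

/-! Project CYC2 (MP_8ca0c8_nt), module AUX1: the golden auxiliary function. -/

namespace Pool.Agent.CYC

open Finset

/-- tangent line of the logarithm with slope `k` -/
theorem aux1_tan {y k : ℝ} (hy : 0 < y) (hk : 0 < k) :
    Real.log y ≤ k * y - 1 - Real.log k := by
  have h := Real.log_le_sub_one_of_pos (mul_pos hk hy)
  rw [Real.log_mul hk.ne' hy.ne'] at h
  linarith

/-- bounds for the logarithm of the golden ratio -/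
theorem aux1_log {g : ℝ} (hg1 : 1 < g) (hg2 : g ^ 2 = g + 1) :
    0.4798 < Real.log g ∧ Real.log g < 0.4853 := by
  have h0 : 0 < g := by linarith
  have hlo : 1.618 < g := by nlinarith
  have hhi : g < 1.6181 := by nlinarith
  have h4 : g ^ 4 = 3 * g + 2 := by
    calc g ^ 4 = (g ^ 2) ^ 2 := by ring
      _ = (g + 1) ^ 2 := by rw [hg2]
      _ = g ^ 2 + 2 * g + 1 := by ring
      _ = 3 * g + 2 := by rw [hg2]; ring
  have h8 : g ^ 8 = 21 * g + 13 := by
    calc g ^ 8 = (g ^ 4) ^ 2 := by ring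
      _ = (3 * g + 2) ^ 2 := by rw [h4]
      _ = 9 * g ^ 2 + 12 * g + 4 := by ring
      _ = 21 * g + 13 := by rw [hg2]; ring
  have h10 : g ^ 10 = 55 * g + 34 := by
    calc g ^ 10 = g ^ 8 * g ^ 2 := by ring
      _ = (21 * g + 13) * (g + 1) := by rw [h8, hg2]
      _ = 21 * g ^ 2 + 34 * g + 13 := by ring
      _ = 55 * g + 34 := by rw [hg2]; ring
  have h13 : g ^ 13 = 233 * g + 144 := by
    calc g ^ 13 = g ^ 10 * (g ^ 2 * g) := by ring
      _ = (55 * g + 34) * ((g + 1) * g) := by rw [h10, hg2]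
      _ = 55 * (g ^ 2) * g + 89 * g ^ 2 + 34 * g := by ring
      _ = 55 * (g + 1) * g + 89 * (g + 1) + 34 * g := by rw [hg2]
      _ = 55 * g ^ 2 + 178 * g + 89 := by ring
      _ = 233 * g + 144 := by rw [hg2]; ring
  have hl2 := Real.log_two_gt_d9
  have hu2 := Real.log_two_lt_d9
  constructor
  · have h1 : Real.log (2 ^ 9) < Real.log (g ^ 13) :=
      Real.log_lt_log (by norm_num) (by rw [h13]; linarith)
    rw [Real.log_pow, Real.log_pow] at h1
    push_cast at h1
    linarith
  · have h1 : Real.log (g ^ 10) < Real.log (2 ^ 7) :=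
      Real.log_lt_log (by positivity) (by rw [h10]; linarith)
    rw [Real.log_pow, Real.log_pow] at h1
    push_cast at h1
    linarith

theorem aux1 : ∃ a b c : ℝ, 0 ≤ a ∧ 0 ≤ b ∧ 0 ≤ c ∧ ∀ x : ℝ, 0 < x → x ≠ 1 → x ≠ 2 →
    3 / 2 + a * Real.log x + b * Real.log |x - 1| + c * Real.log |x - 2| ≤ x := by
  obtain ⟨r, hr0, hr2⟩ : ∃ r : ℝ, 0 < r ∧ r ^ 2 = 5 :=
    ⟨Real.sqrt 5, Real.sqrt_pos.2 (by norm_num), Real.sq_sqrt (by norm_num)⟩
  have hrlo : 2.236 < r := by nlinarith
  have hrhi : r < 2.2361 := by nlinarith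
  obtain ⟨g, hg⟩ : ∃ g : ℝ, g = (1 + r) / 2 := ⟨_, rfl⟩
  have hg2 : g ^ 2 = g + 1 := by
    rw [hg]
    nlinarith
  have hg1 : 1 < g := by
    rw [hg]
    linarith
  have hg0 : 0 < g := by linarith
  have hglt : g < 2 := by
    rw [hg]
    linarith
  obtain ⟨hl1, hl2⟩ := aux1_log hg1 hg2
  obtain ⟨l, hl⟩ : ∃ l : ℝ, l = Real.log g := ⟨_, rfl⟩
  rw [← hl] at hl1 hl2
  have hl0 : 0 < l := by linarith
  obtain ⟨t, ht⟩ : ∃ t : ℝ, t = r / (4 * l) := ⟨_, rfl⟩
  have hkey : t * l = r / 4 := by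
    rw [ht]
    field_simp
  have ht1 : 1.15 < t := by
    by_contra hc
    rw [not_lt] at hc
    have : t * l ≤ 1.15 * 0.4853 := by
      apply mul_le_mul hc hl2.le hl0.le (by norm_num)
    rw [hkey] at this
    linarith
  have ht2 : t < 1.1652 := by
    by_contra hc
    rw [not_lt] at hc
    have : 1.1652 * 0.4798 ≤ t * l := by
      apply mul_le_mul hc hl1.le (by norm_num) (by linarith)
    rw [hkey] at this
    linarith
  -- logarithms of the three slopes
  have k1 : Real.log (g - 1) = -l := by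
    have h1 : g - 1 = g⁻¹ := by
      field_simp
      linarith
    rw [h1, Real.log_inv, hl]
  have k2 : Real.log (2 - g) = -(2 * l) := by
    have h1 : 2 - g = (g - 1) ^ 2 := by
      linarith
    rw [h1, Real.log_pow, k1]
    push_cast
    ring
  have k3 : Real.log (g + 1) = 2 * l := by
    rw [← hg2, Real.log_pow, hl]
    push_cast
    ring
  have k4 : Real.log g = l := hl.symm
  refine ⟨2 / 5 * (1 + t), 4 / 5 * (1 + t) - 1, 1 - 2 / 5 * (1 + t), by linarith, by linarith,
    by linarith, ?_⟩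
  intro x hx hx1 hx2
  rcases lt_or_gt_of_ne hx1 with h1 | h1
  · -- `x < 1`
    have e1 : |x - 1| = 1 - x := by
      rw [abs_of_neg (by linarith)]
      ring
    have e2 : |x - 2| = 2 - x := by
      rw [abs_of_neg (by linarith)]
      ring
    rw [e1, e2]
    have t1 := aux1_tan hx (by linarith : 0 < g + 1)
    have t2 := aux1_tan (by linarith : 0 < 1 - x) hg0
    have t3 := aux1_tan (by linarith : 0 < 2 - x) (by linarith : 0 < g - 1)
    rw [k3] at t1
    rw [k4] at t2
    rw [k1] at t3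
    have m1 := mul_le_mul_of_nonneg_left t1 (by linarith : 0 ≤ 2 / 5 * (1 + t))
    have m2 := mul_le_mul_of_nonneg_left t2 (by linarith : 0 ≤ 4 / 5 * (1 + t) - 1)
    have m3 := mul_le_mul_of_nonneg_left t3 (by linarith : 0 ≤ 1 - 2 / 5 * (1 + t))
    have key : 3 / 2 + 2 / 5 * (1 + t) * ((g + 1) * x - 1 - 2 * l) +
        (4 / 5 * (1 + t) - 1) * (g * (1 - x) - 1 - l) +
        (1 - 2 / 5 * (1 + t)) * ((g - 1) * (2 - x) - 1 - -l) = x := by
      have : 3 / 2 + 2 / 5 * (1 + t) * ((g + 1) * x - 1 - 2 * l) +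
        (4 / 5 * (1 + t) - 1) * (g * (1 - x) - 1 - l) +
        (1 - 2 / 5 * (1 + t)) * ((g - 1) * (2 - x) - 1 - -l) - x =
        g - 1 / 2 - 2 * (t * l) := by ring
      rw [hkey, hg] at this
      linarith
    linarith
  · rcases lt_or_gt_of_ne hx2 with h2 | h2
    · -- `1 < x < 2`
      have e1 : |x - 1| = x - 1 := abs_of_pos (by linarith)
      have e2 : |x - 2| = 2 - x := by
        rw [abs_of_neg (by linarith)]
        ring
      rw [e1, e2]
      have l2a := Real.log_two_gt_d9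
      have l2b := Real.log_two_lt_d9
      have p1 : 0 ≤ Real.log x := Real.log_nonneg h1.le
      have p2 : Real.log (x - 1) ≤ 0 := Real.log_nonpos (by linarith) (by linarith)
      have p3 : Real.log (2 - x) ≤ 0 := Real.log_nonpos (by linarith) (by linarith)
      have t1 := aux1_tan hx (by norm_num : (0:ℝ) < 1 / 2)
      have t2 := aux1_tan (by linarith : 0 < x - 1) (by norm_num : (0:ℝ) < 4 / 3)
      have t3 := aux1_tan (by linarith : 0 < 2 - x) (by norm_num : (0:ℝ) < 2 ^ 2)
      have q1 : Real.log (1 / 2) = -Real.log 2 := by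
        rw [one_div, Real.log_inv]
      have q2 : 2 / 5 * Real.log 2 < Real.log (4 / 3) := by
        have h3 : Real.log (2 ^ 2) < Real.log ((4 / 3) ^ 5) :=
          Real.log_lt_log (by norm_num) (by norm_num)
        rw [Real.log_pow, Real.log_pow] at h3
        push_cast at h3
        linarith
      have q3 : Real.log (2 ^ 2) = 2 * Real.log 2 := by
        rw [Real.log_pow]
        push_cast
        ring
      rw [q1] at t1
      rw [q3] at t3
      have m1 : 2 / 5 * (1 + t) * Real.log x ≤ 0.8661 * Real.log x :=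
        mul_le_mul_of_nonneg_right (by linarith) p1
      have m2 : (4 / 5 * (1 + t) - 1) * Real.log (x - 1) ≤ 0.72 * Real.log (x - 1) :=
        mul_le_mul_of_nonpos_right (by linarith) p2
      have m3 : (1 - 2 / 5 * (1 + t)) * Real.log (2 - x) ≤ 0.1339 * Real.log (2 - x) :=
        mul_le_mul_of_nonpos_right (by linarith) p3
      linarith
    · -- `2 < x`
      have e1 : |x - 1| = x - 1 := abs_of_pos (by linarith)
      have e2 : |x - 2| = x - 2 := abs_of_pos (by linarith)
      rw [e1, e2]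
      have t1 := aux1_tan hx (by linarith : 0 < 2 - g)
      have t2 := aux1_tan (by linarith : 0 < x - 1) (by linarith : 0 < g - 1)
      have t3 := aux1_tan (by linarith : 0 < x - 2) hg0
      rw [k2] at t1
      rw [k1] at t2
      rw [k4] at t3
      have m1 := mul_le_mul_of_nonneg_left t1 (by linarith : 0 ≤ 2 / 5 * (1 + t))
      have m2 := mul_le_mul_of_nonneg_left t2 (by linarith : 0 ≤ 4 / 5 * (1 + t) - 1)
      have m3 := mul_le_mul_of_nonneg_left t3 (by linarith : 0 ≤ 1 - 2 / 5 * (1 + t))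
      have key : 3 / 2 + 2 / 5 * (1 + t) * ((2 - g) * x - 1 - -(2 * l)) +
          (4 / 5 * (1 + t) - 1) * ((g - 1) * (x - 1) - 1 - -l) +
          (1 - 2 / 5 * (1 + t)) * (g * (x - 2) - 1 - l) = x := by
        have : 3 / 2 + 2 / 5 * (1 + t) * ((2 - g) * x - 1 - -(2 * l)) +
          (4 / 5 * (1 + t) - 1) * ((g - 1) * (x - 1) - 1 - -l) +
          (1 - 2 / 5 * (1 + t)) * (g * (x - 2) - 1 - l) - x =
          1 / 2 - g + 2 * (t * l) := by ring
        rw [hkey, hg] at this
        linarith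
      linarith

end Pool.Agent.CYC
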