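import Mathlib
import Pool.Agent.Lib.MP_8ca0c8_nt_CYC2.AuxOne

/-! Project CYC2 (MP_8ca0c8_nt), module AMGM2. -/

namespace Pool.Agent.CYC

open Finset

private theorem amgm2_log (x mu : ℝ) (hx : 0 < x) (hm : 0 < mu) (hm1 : mu ≤ 1) (i : ℝ)
    (hi0 : 0 ≤ i) (hi2 : i ≤ 2) (hne : x ≠ i) :
    Real.log |x - i| ≤ mu * x + Real.log (1 / mu) + 1 := by
  have h1 : |x - i| ≤ x + 2 := by
    rw [abs_le]
    constructor <;> linarith
  have h2 : 0 < |x - i| := abs_pos.2 (sub_ne_zero.2 hne)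
  have h3 := Real.log_le_log h2 h1
  have h4 := Real.log_le_sub_one_of_pos (mul_pos hm (by linarith : 0 < x + 2))
  rw [Real.log_mul hm.ne' (by linarith : x + 2 ≠ 0)] at h4
  rw [one_div, Real.log_inv]
  linarith

private theorem amgm2_sparse {ι : Type} (S E : Finset ι) (f g : ι → ℝ) (hE : E ⊆ S)
    (lam C : ℝ) (h1 : ∀ a ∈ S, 3 / 2 + g a ≤ f a)
    (h2 : ∀ a ∈ S, g a ≤ lam * f a + (C - 3 / 2)) :
    (1 - lam) * ∑ a ∈ E, f a + 3 / 2 * S.card + ∑ a ∈ S, g a - E.card * C ≤ ∑ a ∈ S, f a := by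
  classical
  have e1 : ∑ a ∈ S \ E, (3 / 2 + g a) ≤ ∑ a ∈ S \ E, f a :=
    Finset.sum_le_sum fun a ha => h1 a (Finset.mem_sdiff.1 ha).1
  have e2 : ∑ a ∈ E, g a ≤ ∑ a ∈ E, (lam * f a + (C - 3 / 2)) :=
    Finset.sum_le_sum fun a ha => h2 a (hE ha)
  rw [Finset.sum_add_distrib, Finset.sum_const, nsmul_eq_mul] at e1
  rw [Finset.sum_add_distrib, Finset.sum_const, nsmul_eq_mul, ← Finset.mul_sum] at e2
  have e3 := Finset.sum_sdiff hE (f := f)
  have e4 := Finset.sum_sdiff hE (f := g)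
  have e5 : ((S \ E).card : ℝ) + E.card = S.card := by
    exact_mod_cast Finset.card_sdiff_add_card_eq_card hE
  rw [← e3, ← e4, ← e5]
  linarith

theorem two_of_sparse2 : ∃ C : ℝ → ℝ, (∀ l, 0 ≤ C l) ∧
    ∀ {Ω : Type} [Fintype Ω] {q : ℕ} [NeZero q] (F : Fam Ω q) (_ : F.Aux)
      (E : Ω → Finset (ZMod q)) (e A0 lam : ℝ), 0 < lam → lam ≤ 1 → 0 ≤ e →
      (∀ φ, ((E φ).card : ℝ) ≤ e * F.S.card) →
      A0 * Fintype.card Ω ≤ ∑ φ, ∑ a ∈ E φ, F.w φ a →
      ((1 - lam) * A0 + 3 / 2 - e * C lam) * Fintype.card Ω ≤ ∑ φ, F.m φ := by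
  classical
  obtain ⟨a, b, c, ha, hb, hc, habc⟩ := aux1
  set s : ℝ := a + b + c with hs
  have hs0 : 0 ≤ s := by positivity
  set C1 : ℝ → ℝ := fun l => s * (Real.log (1 / (l / (s + 1))) + 1) with hC1
  refine ⟨fun l => if 0 < l ∧ l ≤ 1 then 3 / 2 + C1 l else 0, ?_, ?_⟩
  · intro l
    show (0 : ℝ) ≤ if 0 < l ∧ l ≤ 1 then 3 / 2 + C1 l else 0
    by_cases h : 0 < l ∧ l ≤ 1
    · rw [if_pos h]
      show (0 : ℝ) ≤ 3 / 2 + s * (Real.log (1 / (l / (s + 1))) + 1)
      have h1 : 0 < l / (s + 1) := div_pos h.1 (by linarith)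
      have h2 : l / (s + 1) ≤ 1 := by
        rw [div_le_one (by linarith)]
        linarith [h.2]
      have h3 : 0 ≤ Real.log (1 / (l / (s + 1))) :=
        Real.log_nonneg (by rwa [le_div_iff₀ h1, one_mul])
      have h4 := mul_nonneg hs0 (by linarith : 0 ≤ Real.log (1 / (l / (s + 1))) + 1)
      linarith
    · rw [if_neg h]
  · intro Ω _ q _ F hF E e A0 lam hl hl1 he hE hA
    show ((1 - lam) * A0 + 3 / 2 - e * (if 0 < lam ∧ lam ≤ 1 then 3 / 2 + C1 lam else 0)) *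
      Fintype.card Ω ≤ ∑ φ, F.m φ
    rw [if_pos (⟨hl, hl1⟩ : 0 < lam ∧ lam ≤ 1)]
    have hS : (0 : ℝ) < F.S.card := by exact_mod_cast F.card_pos
    have hm0 : 0 < lam / (s + 1) := div_pos hl (by linarith)
    have hm1 : lam / (s + 1) ≤ 1 := by
      rw [div_le_one (by linarith)]
      linarith
    have hC0 : 0 ≤ C1 lam := by
      have h3 : 0 ≤ Real.log (1 / (lam / (s + 1))) :=
        Real.log_nonneg (by rwa [le_div_iff₀ hm0, one_mul])
      exact mul_nonneg hs0 (by linarith)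
    set g : Ω → ZMod q → ℝ := fun φ x => a * Real.log (F.f φ x) + b * Real.log |F.f φ x - 1| +
      c * Real.log |F.f φ x - 2| with hg
    have hgle (φ : Ω) : ∀ x ∈ F.S, 3 / 2 + g φ x ≤ F.f φ x := by
      intro x hx
      have h1 := habc (F.f φ x) (F.hf φ x hx) (hF.1 φ x hx).1 (hF.1 φ x hx).2
      rw [hg]
      linarith
    have hgle2 (φ : Ω) : ∀ x ∈ F.S, g φ x ≤ lam * F.f φ x + (3 / 2 + C1 lam - 3 / 2) := by
      intro x hx
      have hpos := F.hf φ x hx
      have h0 := amgm2_log (F.f φ x) _ hpos hm0 hm1 0 le_rfl (by norm_num) hpos.ne'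
      have h1 := amgm2_log (F.f φ x) _ hpos hm0 hm1 1 (by norm_num) (by norm_num)
        (hF.1 φ x hx).1
      have h2 := amgm2_log (F.f φ x) _ hpos hm0 hm1 2 (by norm_num) le_rfl (hF.1 φ x hx).2
      rw [sub_zero, Real.log_abs] at h0
      have h3 := mul_le_mul_of_nonneg_left h0 ha
      have h4 := mul_le_mul_of_nonneg_left h1 hb
      have h5 := mul_le_mul_of_nonneg_left h2 hc
      have h6 : s * (lam / (s + 1) * F.f φ x) ≤ lam * F.f φ x := by
        have h7 : s * (lam / (s + 1)) ≤ lam := by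
          rw [mul_div_assoc', div_le_iff₀ (by linarith)]
          nlinarith
        calc s * (lam / (s + 1) * F.f φ x) = s * (lam / (s + 1)) * F.f φ x := by ring
          _ ≤ lam * F.f φ x := mul_le_mul_of_nonneg_right h7 hpos.le
      have h8 : g φ x ≤ s * (lam / (s + 1) * F.f φ x) +
          s * (Real.log (1 / (lam / (s + 1))) + 1) := by
        rw [hg]
        have h9 : s * (lam / (s + 1) * F.f φ x) + s * (Real.log (1 / (lam / (s + 1))) + 1) =
            a * (lam / (s + 1) * F.f φ x + Real.log (1 / (lam / (s + 1))) + 1) +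
            b * (lam / (s + 1) * F.f φ x + Real.log (1 / (lam / (s + 1))) + 1) +
            c * (lam / (s + 1) * F.f φ x + Real.log (1 / (lam / (s + 1))) + 1) := by
          rw [hs]
          ring
        rw [h9]
        exact add_le_add (add_le_add h3 h4) h5
      have h10 : C1 lam = s * (Real.log (1 / (lam / (s + 1))) + 1) := rfl
      rw [h10]
      linarith
    have key (φ : Ω) : (1 - lam) * ∑ x ∈ E φ, F.w φ x + 3 / 2 +
        (∑ x ∈ F.S, g φ x) / F.S.card - e * (3 / 2 + C1 lam) ≤ F.m φ := by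
      have h1 := amgm2_sparse F.S (E φ ∩ F.S) (F.f φ) (g φ) Finset.inter_subset_right lam
        (3 / 2 + C1 lam) (hgle φ) (hgle2 φ)
      have h2 : ∑ x ∈ E φ, F.w φ x = (∑ x ∈ E φ ∩ F.S, F.f φ x) / F.S.card := by
        unfold Fam.w
        rw [Finset.sum_ite_mem, Finset.sum_div]
      have h3 : ((E φ ∩ F.S).card : ℝ) ≤ e * F.S.card :=
        (by exact_mod_cast Finset.card_le_card Finset.inter_subset_left :
          ((E φ ∩ F.S).card : ℝ) ≤ (E φ).card).trans (hE φ)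
      have h4 := mul_le_mul_of_nonneg_right h3 (by linarith : 0 ≤ 3 / 2 + C1 lam)
      rw [h2, F.m_eq, le_div_iff₀ hS]
      have h5 : ((1 - lam) * ((∑ x ∈ E φ ∩ F.S, F.f φ x) / F.S.card) + 3 / 2 +
          (∑ x ∈ F.S, g φ x) / F.S.card - e * (3 / 2 + C1 lam)) * F.S.card =
          (1 - lam) * ∑ x ∈ E φ ∩ F.S, F.f φ x + 3 / 2 * F.S.card + ∑ x ∈ F.S, g φ x -
            e * F.S.card * (3 / 2 + C1 lam) := by
        field_simp
      rw [h5]
      linarith
    have hsum := Finset.sum_le_sum fun φ (_ : φ ∈ (Finset.univ : Finset Ω)) => key φ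
    have hdiv : ∑ φ, (∑ x ∈ F.S, g φ x) / (F.S.card : ℝ) =
        (∑ φ, ∑ x ∈ F.S, g φ x) / F.S.card := (Finset.sum_div _ _ _).symm
    rw [Finset.sum_sub_distrib, Finset.sum_add_distrib, Finset.sum_add_distrib,
      ← Finset.mul_sum, hdiv, Finset.sum_const, Finset.sum_const, nsmul_eq_mul,
      nsmul_eq_mul, Finset.card_univ] at hsum
    have hgsum : 0 ≤ ∑ φ, ∑ x ∈ F.S, g φ x := by
      have h1 : ∑ φ, ∑ x ∈ F.S, g φ x = a * ∑ φ, ∑ x ∈ F.S, Real.log (F.f φ x) +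
          b * ∑ φ, ∑ x ∈ F.S, Real.log |F.f φ x - 1| +
          c * ∑ φ, ∑ x ∈ F.S, Real.log |F.f φ x - 2| := by
        rw [Finset.mul_sum, Finset.mul_sum, Finset.mul_sum, ← Finset.sum_add_distrib,
          ← Finset.sum_add_distrib]
        refine Finset.sum_congr rfl fun φ _ => ?_
        rw [Finset.mul_sum, Finset.mul_sum, Finset.mul_sum, ← Finset.sum_add_distrib,
          ← Finset.sum_add_distrib]
      rw [h1]
      have h2 := mul_nonneg ha F.hlog
      have h3 := mul_nonneg hb hF.2.1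
      have h4 := mul_nonneg hc hF.2.2
      linarith
    have h6 : 0 ≤ (∑ φ, ∑ x ∈ F.S, g φ x) / F.S.card := div_nonneg hgsum hS.le
    have h7 := mul_le_mul_of_nonneg_left hA (by linarith : 0 ≤ 1 - lam)
    linarith

end Pool.Agent.CYC
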