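import Mathlib
import Pool.Agent.Lib.MP_8ca0c8_nt_CYC2.Defs

/-! Project CYC2 (MP_8ca0c8_nt), module AUX3. -/

namespace Pool.Agent.CYC

open Finset

theorem aux3_half {y : ℝ} (hy : 0 < y) : Real.log y ≤ Real.log 2 + y / 2 - 1 := by
  have h1 := Real.log_le_sub_one_of_pos (half_pos hy)
  rw [Real.log_div hy.ne' two_ne_zero] at h1
  linarith

theorem aux3_two {y : ℝ} (hy : 0 < y) : Real.log y ≤ 2 * y - 1 - Real.log 2 := by
  have h1 := Real.log_le_sub_one_of_pos (mul_pos two_pos hy)
  rw [Real.log_mul two_ne_zero hy.ne'] at h1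
  linarith

theorem aux3 : ∀ x : ℝ, 0 < x → x ≠ 1 → 5 / 4 + Real.log x + 1 / 2 * Real.log |x - 1| ≤ x := by
  intro x hx hx1
  have hl := Real.log_two_lt_d9
  have hg := Real.log_two_gt_d9
  rcases lt_or_gt_of_ne hx1 with h | h
  · have h1 : |x - 1| = 1 - x := by rw [abs_of_neg (by linarith)]; ring
    rw [h1]
    have h2 := aux3_two hx
    have h3 := aux3_two (show (0:ℝ) < 1 - x by linarith)
    linarith
  · have h1 : |x - 1| = x - 1 := abs_of_pos (by linarith)
    rw [h1]
    have h2 := aux3_half hx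
    have h3 := Real.log_le_sub_one_of_pos (show (0:ℝ) < x - 1 by linarith)
    linarith

end Pool.Agent.CYC
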