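import Mathlib
import Pool.Agent.Lib.MP_8ca0c8_nt_CYC2.Defs

/-! Project CYC2 (MP_8ca0c8_nt), module AUX2. -/

namespace Pool.Agent.CYC

open Finset

/-- tangent line of the logarithm -/
lemma aux2_tangent {a x : ℝ} (ha : 0 < a) (hx : 0 < x) :
    Real.log x ≤ Real.log a + x / a - 1 := by
  have h := Real.log_le_sub_one_of_pos (div_pos hx ha)
  rw [Real.log_div hx.ne' ha.ne'] at h
  linarith

/-- powers of the golden number -/
lemma aux2_pow {g : ℝ} (hg : g ^ 2 = g + 1) : g ^ 10 = 55 * g + 34 ∧ g ^ 13 = 233 * g + 144 := by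
  have h3 : g ^ 3 = 2 * g + 1 := by linear_combination (g + 1) * hg
  have h4 : g ^ 4 = 3 * g + 2 := by linear_combination (g ^ 2 + g + 2) * hg
  have h5 : g ^ 5 = 5 * g + 3 := by linear_combination g * h4 + 3 * hg
  have h10 : g ^ 10 = 55 * g + 34 := by
    linear_combination (g ^ 5 + 5 * g + 3) * h5 + 25 * hg
  exact ⟨h10, by linear_combination g ^ 3 * h10 + (55 * g + 34) * h3 + 110 * hg⟩

theorem aux2 : ∃ s c d : ℝ, 0 ≤ s ∧ 0 ≤ c ∧ 0 ≤ d ∧ ∀ m : ℝ, 0 < m → m ≠ 2 → m ≠ 3 →
    5 / 2 + s * Real.log (m / √5) + c * Real.log |m - 2| + d * Real.log |m - 3| ≤ m := by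
  obtain ⟨r, hr⟩ : ∃ r : ℝ, r = √5 := ⟨_, rfl⟩
  rw [← hr]
  have hr0 : 0 < r := by rw [hr]; positivity
  have hr2 : r * r = 5 := by rw [hr]; exact Real.mul_self_sqrt (by norm_num)
  have hrl : 2236 / 1000 < r := by nlinarith
  have hru : r < 2237 / 1000 := by nlinarith
  obtain ⟨g, hg⟩ : ∃ g : ℝ, g = (1 + r) / 2 := ⟨_, rfl⟩
  have hg0 : 0 < g := by rw [hg]; linarith
  have hg2 : g ^ 2 = g + 1 := by rw [hg]; nlinarith
  have hgi : g * (g - 1) = 1 := by nlinarith
  have hg1 : 0 < g - 1 := by rw [hg]; linarith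
  have hginv : g⁻¹ = g - 1 := inv_eq_of_mul_eq_one_right hgi
  obtain ⟨l, hl⟩ : ∃ l : ℝ, l = Real.log g := ⟨_, rfl⟩
  have h2l := Real.log_two_gt_d9
  have h2u := Real.log_two_lt_d9
  obtain ⟨hp10, hp13⟩ := aux2_pow hg2
  have hlu : 10 * l < 7 * Real.log 2 := by
    have h1 : g ^ 10 < 2 ^ 7 := by rw [hp10, hg]; norm_num; linarith
    have h2 := Real.log_lt_log (by positivity) h1
    rw [Real.log_pow, Real.log_pow, ← hl] at h2
    exact_mod_cast h2
  have hll : 9 * Real.log 2 < 13 * l := by
    have h1 : (2:ℝ) ^ 9 < g ^ 13 := by rw [hp13, hg]; norm_num; linarith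
    have h2 := Real.log_lt_log (by positivity) h1
    rw [Real.log_pow, Real.log_pow, ← hl] at h2
    exact_mod_cast h2
  have hl0 : 0 < l := by linarith
  obtain ⟨s, hs⟩ : ∃ s : ℝ, s = 1 + r / (4 * l) := ⟨_, rfl⟩
  have hsl : (2 * s - 2) * l = r / 2 := by
    rw [hs]; field_simp; ring
  have hsu : s ≤ 217 / 100 := by
    by_contra h
    push Not at h
    nlinarith
  have hsd : 215 / 100 ≤ s := by
    by_contra h
    push Not at h
    nlinarith
  obtain ⟨c, hc⟩ : ∃ c : ℝ, c = 3 / 5 * s - 1 := ⟨_, rfl⟩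
  obtain ⟨d, hd⟩ : ∃ d : ℝ, d = 1 - 2 / 5 * s := ⟨_, rfl⟩
  have hc0 : 29 / 100 ≤ c := by linarith
  have hd0 : 132 / 1000 ≤ d := by linarith
  refine ⟨s, c, d, by linarith, by linarith, by linarith, fun m hm hm2 hm3 => ?_⟩
  rcases lt_or_gt_of_ne hm2 with h2 | h2
  · -- the interval `(0, 2)`
    have e2 : |m - 2| = 2 - m := by rw [abs_of_neg (by linarith)]; ring
    have e3 : |m - 3| = 3 - m := by rw [abs_of_neg (by linarith)]; ring
    rw [e2, e3]
    have t1 : Real.log (m / r) ≤ -l + m * (5 + r) / 10 - 1 := by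
      have := aux2_tangent (inv_pos.2 hg0) (div_pos hm hr0)
      rw [Real.log_inv, ← hl] at this
      have e : m / r / g⁻¹ = m * (5 + r) / 10 := by
        rw [div_inv_eq_mul, hg]
        field_simp
        nlinarith
      linarith
    have t2 : Real.log (2 - m) ≤ -l + (2 - m) * g - 1 := by
      have := aux2_tangent (inv_pos.2 hg0) (by linarith : 0 < 2 - m)
      rw [Real.log_inv, ← hl, div_inv_eq_mul] at this
      exact this
    have t3 : Real.log (3 - m) ≤ l + (3 - m) * (g - 1) - 1 := by
      have := aux2_tangent hg0 (by linarith : 0 < 3 - m)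
      rw [← hl, div_eq_mul_inv, hginv] at this
      exact this
    have u1 := mul_le_mul_of_nonneg_left t1 (by linarith : 0 ≤ s)
    have u2 := mul_le_mul_of_nonneg_left t2 (by linarith : 0 ≤ c)
    have u3 := mul_le_mul_of_nonneg_left t3 (by linarith : 0 ≤ d)
    have key : 5 / 2 + s * (-l + m * (5 + r) / 10 - 1) + c * (-l + (2 - m) * g - 1) +
        d * (l + (3 - m) * (g - 1) - 1) = m := by
      rw [hc, hd, hg]
      linear_combination (-1) * hsl
    linarith
  rcases lt_or_gt_of_ne hm3 with h3 | h3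
  · -- the interval `(2, 3)`
    have e2 : |m - 2| = m - 2 := abs_of_pos (by linarith)
    have e3 : |m - 3| = 3 - m := by rw [abs_of_neg (by linarith)]; ring
    rw [e2, e3]
    have n2 : Real.log (m - 2) ≤ 0 := Real.log_nonpos (by linarith) (by linarith)
    have n3 : Real.log (3 - m) ≤ 0 := Real.log_nonpos (by linarith) (by linarith)
    have w2 : c * Real.log (m - 2) ≤ 29 / 100 * Real.log (m - 2) := by nlinarith
    have w3 : d * Real.log (3 - m) ≤ 132 / 1000 * Real.log (3 - m) := by nlinarith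
    rcases le_or_gt m r with hmr | hmr
    · have n1 : Real.log (m / r) ≤ 0 :=
        Real.log_nonpos (div_pos hm hr0).le ((div_le_one hr0).2 hmr)
      have w1 : s * Real.log (m / r) ≤ 0 := mul_nonpos_of_nonneg_of_nonpos (by linarith) n1
      have t2 := aux2_tangent (a := 1 / 4) (by norm_num) (by linarith : 0 < m - 2)
      have l4 : Real.log (1 / 4) = -(2 * Real.log 2) := by
        rw [one_div, Real.log_inv, show (4:ℝ) = 2 ^ 2 by norm_num, Real.log_pow]
        push_cast
        ring
      rw [l4] at t2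
      linarith
    · have t1 : Real.log (m / r) ≤ (26 / 10 / r - 1) + m / (26 / 10) - 1 := by
        have h1 := aux2_tangent (a := 26 / 10 / r) (by positivity) (div_pos hm hr0)
        have h2 := Real.log_le_sub_one_of_pos (by positivity : 0 < 26 / 10 / r)
        have e : m / r / (26 / 10 / r) = m / (26 / 10) := by field_simp
        linarith
      have hq : 26 / 10 / r ≤ 1163 / 1000 := by
        rw [div_le_iff₀ hr0]
        linarith
      have n1 : 0 ≤ Real.log (m / r) := Real.log_nonneg (by rw [one_le_div hr0]; exact hmr.le)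
      have w1 : s * Real.log (m / r) ≤ 217 / 100 * Real.log (m / r) := by nlinarith
      have t2 := aux2_tangent (a := 3 / 5) (by norm_num) (by linarith : 0 < m - 2)
      have t3 := aux2_tangent (a := 2 / 5) (by norm_num) (by linarith : 0 < 3 - m)
      have l35 : Real.log (3 / 5) ≤ -(504 / 1000) := by
        have h1 : ((3:ℝ) / 5) ^ 11 < (2 ^ 8)⁻¹ := by norm_num
        have h2 := Real.log_lt_log (by positivity) h1
        rw [Real.log_pow, Real.log_inv, Real.log_pow] at h2
        push_cast at h2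
        linarith
      have l25 : Real.log (2 / 5) ≤ -(89 / 100) := by
        have h1 : ((2:ℝ) / 5) ^ 7 < (2 ^ 9)⁻¹ := by norm_num
        have h2 := Real.log_lt_log (by positivity) h1
        rw [Real.log_pow, Real.log_inv, Real.log_pow] at h2
        push_cast at h2
        linarith
      linarith
  · -- the interval `(3, ∞)`
    have e2 : |m - 2| = m - 2 := abs_of_pos (by linarith)
    have e3 : |m - 3| = m - 3 := abs_of_pos (by linarith)
    rw [e2, e3]
    have t1 : Real.log (m / r) ≤ l + m * (5 - r) / 10 - 1 := by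
      have := aux2_tangent hg0 (div_pos hm hr0)
      rw [← hl] at this
      have e : m / r / g = m * (5 - r) / 10 := by
        rw [hg]
        field_simp
        nlinarith
      linarith
    have t2 : Real.log (m - 2) ≤ l + (m - 2) * (g - 1) - 1 := by
      have := aux2_tangent hg0 (by linarith : 0 < m - 2)
      rw [← hl, div_eq_mul_inv, hginv] at this
      exact this
    have t3 : Real.log (m - 3) ≤ -l + (m - 3) * g - 1 := by
      have := aux2_tangent (inv_pos.2 hg0) (by linarith : 0 < m - 3)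
      rw [Real.log_inv, ← hl, div_inv_eq_mul] at this
      exact this
    have u1 := mul_le_mul_of_nonneg_left t1 (by linarith : 0 ≤ s)
    have u2 := mul_le_mul_of_nonneg_left t2 (by linarith : 0 ≤ c)
    have u3 := mul_le_mul_of_nonneg_left t3 (by linarith : 0 ≤ d)
    have key : 5 / 2 + s * (l + m * (5 - r) / 10 - 1) + c * (l + (m - 2) * (g - 1) - 1) +
        d * (-l + (m - 3) * g - 1) = m := by
      rw [hc, hd, hg]
      linear_combination hsl
    linarith

end Pool.Agent.CYC
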