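import Mathlib
import Pool.Agent.Lib.MP_8ca0c8_nt_CYC2.Defs
import Pool.Agent.Lib.MP_8ca0c8_nt_CYC.Emb

/-! Project CYC2 (MP_8ca0c8_nt): the ring of algebraic integers as functions on the embeddings. -/

namespace Pool.Agent.CYC

open Finset

/-- the functions `φ ↦ φ y`, `y` an algebraic integer in `L` -/
def ringSub (L : IntermediateField ℚ ℂ) : Subring ((L →ₐ[ℚ] ℂ) → ℂ) where
  carrier := {x | ∃ y : L, IsIntegral ℤ (y : ℂ) ∧ ∀ φ, x φ = φ y}
  mul_mem' := by
    rintro x x' ⟨y, hy, h⟩ ⟨y', hy', h'⟩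
    refine ⟨y * y', ?_, fun φ => ?_⟩
    · push_cast
      exact hy.mul hy'
    · rw [Pi.mul_apply, h, h', map_mul]
  one_mem' := ⟨1, by simpa using isIntegral_one, fun φ => by simp⟩
  add_mem' := by
    rintro x x' ⟨y, hy, h⟩ ⟨y', hy', h'⟩
    refine ⟨y + y', ?_, fun φ => ?_⟩
    · push_cast
      exact hy.add hy'
    · rw [Pi.add_apply, h, h', map_add]
  zero_mem' := ⟨0, by simpa using isIntegral_zero, fun φ => by simp⟩
  neg_mem' := by
    rintro x ⟨y, hy, h⟩
    refine ⟨-y, ?_, fun φ => ?_⟩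
    · push_cast
      exact hy.neg
    · rw [Pi.neg_apply, h, map_neg]

theorem mem_ringSub {L : IntermediateField ℚ ℂ} {x : (L →ₐ[ℚ] ℂ) → ℂ} :
    x ∈ ringSub L ↔ ∃ y : L, IsIntegral ℤ (y : ℂ) ∧ ∀ φ, x φ = φ y := Iff.rfl

/-- the ring of algebraic integers of `L` as a ring of functions on the embeddings -/
def ringA (L : IntermediateField ℚ ℂ) [FiniteDimensional ℚ L] : IRing (L →ₐ[ℚ] ℂ) where
  A := ringSub L
  hA := by
    rintro x ⟨y, hy, h⟩ hx
    have hy0 : y ≠ 0 := by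
      rintro rfl
      apply hx
      funext φ
      rw [h, map_zero]
      rfl
    refine ⟨fun φ => ?_, ?_⟩
    · rw [h]
      exact (map_ne_zero_iff φ φ.injective).2 hy0
    · simpa only [h] using log_norm_nonneg L y hy hy0
  hsq := by
    rintro x ⟨y, hy, h⟩ ⟨z, hz, h'⟩
    have hx : ∀ φ, x φ = φ (z / 2) := fun φ => by
      have h1 : 2 * x φ = φ z := h' φ
      rw [map_div₀, ← h1, map_ofNat]
      ring
    refine ⟨z / 2, ?_, hx⟩
    have h2 : (z / 2) ^ 2 = y := by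
      apply L.val.injective
      have h3 := h L.val
      rw [Pi.pow_apply, hx L.val] at h3
      rw [map_pow]
      exact h3
    have h4 : IsIntegral ℤ (((z / 2 : L) : ℂ) ^ 2) := by
      have : (((z / 2) ^ 2 : L) : ℂ) = ((z / 2 : L) : ℂ) ^ 2 := by push_cast; rfl
      rw [← this, h2]
      exact hy
    exact IsIntegral.of_pow two_pos h4

theorem ringA_A (L : IntermediateField ℚ ℂ) [FiniteDimensional ℚ L] : (ringA L).A = ringSub L := rfl

theorem mem_ringA {L : IntermediateField ℚ ℂ} [FiniteDimensional ℚ L] {x : (L →ₐ[ℚ] ℂ) → ℂ} :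
    x ∈ (ringA L).A ↔ ∃ y : L, IsIntegral ℤ (y : ℂ) ∧ ∀ φ, x φ = φ y := Iff.rfl

end Pool.Agent.CYC
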