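import Mathlib
import Pool.Agent.Lib.MP_8ca0c8_nt_CYC2.RingA
import Pool.Agent.Lib.MP_8ca0c8_nt_CYC.FamMk

/-! Project CYC2 (MP_8ca0c8_nt), module FAMMK2: the family of weights of a set of automorphisms,
with its auxiliary data. -/

namespace Pool.Agent.CYC

open Finset

/-- the values of the conjugates of `α` are not the natural number `n` -/
theorem fammk2_ne {L : IntermediateField ℚ ℂ} {α : L} {n : ℕ} (hn : (α : ℂ) ≠ n)
    (τ : L ≃ₐ[ℚ] L) (φ : L →ₐ[ℚ] ℂ) {r : ℝ} (hr : φ (τ α) = (r : ℂ)) : r ≠ n := by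
  intro h
  rw [h] at hr
  apply hn
  have h1 : φ (τ α) = φ (τ (n : L)) := by
    rw [hr, map_natCast, map_natCast]
    simp
  have h2 : α = (n : L) := τ.injective (φ.injective h1)
  rw [h2]
  simp

/-- nonnegative mean of the logarithms of `|f - n|` -/
theorem fammk2_log {L : IntermediateField ℚ ℂ} [FiniteDimensional ℚ L] {q : ℕ} [NeZero q]
    (S : Finset (ZMod q)) (σ : ZMod q → L ≃ₐ[ℚ] L) {α : L}
    (hα : STP.IsTotallyPositive (α : ℂ)) {n : ℕ} (hn : (α : ℂ) ≠ n) :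
    0 ≤ ∑ φ : L →ₐ[ℚ] ℂ, ∑ a ∈ S, Real.log |(φ (σ a α)).re - n| := by
  rw [Finset.sum_comm]
  refine Finset.sum_nonneg fun b _ => ?_
  have h1 : ∑ φ : L →ₐ[ℚ] ℂ, Real.log |(φ (σ b α)).re - n| =
      ∑ φ : L →ₐ[ℚ] ℂ, Real.log ‖φ (σ b (α - (n : L)))‖ := by
    refine Finset.sum_congr rfl fun φ _ => ?_
    obtain ⟨h2, h3⟩ := fammk_pos hα (σ b) φ
    have h4 : φ (σ b (α - (n : L))) = (((φ (σ b α)).re - n : ℝ) : ℂ) := by
      rw [map_sub, map_sub, map_natCast, map_natCast]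
      conv_lhs => rw [h3]
      push_cast
      rfl
    rw [h4, Complex.norm_real, Real.norm_eq_abs]
  rw [h1, fammk_sum_comp L (σ b) (fun z => Real.log ‖z‖) (α - (n : L))]
  refine log_norm_nonneg L (α - (n : L)) ?_ ?_
  · push_cast
    exact hα.1.sub (isIntegral_algebraMap (R := ℤ) (A := ℂ) (x := (n : ℤ)) |> fun h => by simpa using h)
  · intro h
    apply hn
    have h2 : α = (n : L) := sub_eq_zero.mp h
    rw [h2]
    simp

theorem fam_mk2 (L : IntermediateField ℚ ℂ) [FiniteDimensional ℚ L] (q : ℕ) [NeZero q]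
    (S : Finset (ZMod q)) (hS : q ≤ 2 * S.card) (σ : ZMod q → L ≃ₐ[ℚ] L) (α : L)
    (hα : STP.IsTotallyPositive (α : ℂ)) (hα1 : (α : ℂ) ≠ 1) (hα2 : (α : ℂ) ≠ 2) (ω : L)
    (hω : IsPrimitiveRoot ω q) :
    ∃ F : Fam (L →ₐ[ℚ] ℂ) q, F.S = S ∧ F.Aux ∧ (∀ φ b, φ (σ b α) = (F.f φ b : ℂ)) ∧
      (∀ φ (k : ℕ), F.ψ φ (k : ZMod q) = φ ω ^ k) ∧
      (∀ φ j, F.T φ j = φ ((1 / (S.card : L)) * ∑ b ∈ S, σ b α * ω ^ (j * b).val)) ∧
      ∑ φ, F.m φ = Fintype.card (L →ₐ[ℚ] ℂ) * (STP.meanTrace (α : ℂ)).re := by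
  have hprim : ∀ φ : L →ₐ[ℚ] ℂ, IsPrimitiveRoot (φ ω) q := fun φ =>
    hω.map_of_injective φ.injective
  have hpos : ∀ (φ : L →ₐ[ℚ] ℂ) (b : ZMod q), 0 < (φ (σ b α)).re ∧
      φ (σ b α) = (((φ (σ b α)).re : ℝ) : ℂ) := fun φ b => fammk_pos hα (σ b) φ
  have hα0 : α ≠ 0 := by
    intro h
    obtain ⟨h1, h2⟩ := fammk_pos hα AlgEquiv.refl (Algebra.ofId L ℂ |>.restrictScalars ℚ)
    rw [h] at h1
    simp at h1
  have hlog : 0 ≤ ∑ φ : L →ₐ[ℚ] ℂ, ∑ a ∈ S, Real.log (φ (σ a α)).re := by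
    rw [Finset.sum_comm]
    refine Finset.sum_nonneg fun b _ => ?_
    have h1 : ∑ φ : L →ₐ[ℚ] ℂ, Real.log (φ (σ b α)).re =
        ∑ φ : L →ₐ[ℚ] ℂ, Real.log ‖φ (σ b α)‖ := by
      refine Finset.sum_congr rfl fun φ _ => ?_
      obtain ⟨h2, h3⟩ := hpos φ b
      conv_rhs => rw [h3]
      rw [Complex.norm_real, Real.norm_eq_abs, abs_of_pos h2]
    rw [h1, fammk_sum_comp L (σ b) (fun z => Real.log ‖z‖) α]
    exact log_norm_nonneg L α hα.1 hα0
  let F : Fam (L →ₐ[ℚ] ℂ) q :=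
    { ψ := fun φ => AddChar.zmodChar q ((IsPrimitiveRoot.iff_def (φ ω) q).mp (hprim φ)).left
      hψ := fun φ => AddChar.zmodChar_primitive_of_primitive_root q (hprim φ)
      S := S
      hS := hS
      f := fun φ b => (φ (σ b α)).re
      hf := fun φ b _ => (hpos φ b).1
      hlog := hlog }
  have hn1 : (α : ℂ) ≠ ((1 : ℕ) : ℂ) := by simpa using hα1
  have hn2 : (α : ℂ) ≠ ((2 : ℕ) : ℂ) := by simpa using hα2
  refine ⟨F, rfl, ⟨fun φ a _ => ⟨?_, ?_⟩, ?_, ?_⟩, fun φ b => (hpos φ b).2, fun φ k => ?_,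
    fun φ j => ?_, ?_⟩
  · have h1 := fammk2_ne hn1 (σ a) φ (hpos φ a).2
    simpa using h1
  · have h1 := fammk2_ne hn2 (σ a) φ (hpos φ a).2
    simpa using h1
  · have h1 := fammk2_log S σ hα hn1
    simpa using h1
  · have h1 := fammk2_log S σ hα hn2
    simpa using h1
  · exact AddChar.zmodChar_apply' ((IsPrimitiveRoot.iff_def (φ ω) q).mp (hprim φ)).left k
  · have h1 : F.T φ j = ∑ a, (F.w φ a : ℂ) * (φ ω) ^ (j * a).val := rfl
    have h2 : ∀ a, F.w φ a = if a ∈ S then (φ (σ a α)).re / S.card else 0 := fun a => rfl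
    rw [h1]
    have h3 : ∀ a, (F.w φ a : ℂ) * (φ ω) ^ (j * a).val =
        if a ∈ S then φ (σ a α) / S.card * (φ ω) ^ (j * a).val else 0 := by
      intro a
      rw [h2 a]
      split_ifs with h
      · rw [Complex.ofReal_div, ← (hpos φ a).2, Complex.ofReal_natCast]
      · simp
    rw [Finset.sum_congr rfl fun a _ => h3 a, Finset.sum_ite_mem, Finset.univ_inter]
    rw [map_mul, map_sum, map_div₀, map_one, map_natCast, Finset.mul_sum]
    refine Finset.sum_congr rfl fun a _ => ?_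
    rw [map_mul, map_pow]
    ring
  · have h1 : ∀ φ, F.m φ = (∑ b ∈ S, (φ (σ b α)).re) / S.card := fun φ => F.m_eq φ
    rw [Finset.sum_congr rfl fun φ _ => h1 φ, ← Finset.sum_div, Finset.sum_comm]
    have h2 : ∀ b ∈ S, ∑ φ : L →ₐ[ℚ] ℂ, (φ (σ b α)).re =
        Fintype.card (L →ₐ[ℚ] ℂ) * (STP.meanTrace (α : ℂ)).re := by
      intro b _
      rw [fammk_sum_comp L (σ b) Complex.re α, ← Complex.re_sum, sum_emb L α, Complex.mul_re]
      simp
    rw [Finset.sum_congr rfl h2, Finset.sum_const, nsmul_eq_mul]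
    have h3 : (S.card : ℝ) ≠ 0 := by
      have h4 := NeZero.pos q
      have h5 : S.card ≠ 0 := by omega
      exact_mod_cast h5
    field_simp

end Pool.Agent.CYC
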