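import Mathlib
import Pool.Agent.Lib.MP_8ca0c8_nt_CYC2.FamMk2
import Pool.Agent.Lib.MP_8ca0c8_nt_CYC.FamB
import Pool.Agent.Lib.MP_8ca0c8_nt_CYC.RnExpand

/-! Project CYC2 (MP_8ca0c8_nt), module BFAMB: the family of case B. -/

namespace Pool.Agent.CYC

open Finset

private theorem bfamB_pow_congr {R : Type*} [Monoid R] {z : R} {n a b : ℕ} (hz : z ^ n = 1)
    (h : a ≡ b [MOD n]) : z ^ a = z ^ b := by
  rw [pow_eq_pow_mod a hz, pow_eq_pow_mod b hz, h]

private theorem bfamB_exp (q : ℕ) [NeZero q] (j a : ZMod q) :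
    (j * a).val ≡ a.val * j.val [MOD q] := by
  rw [← ZMod.natCast_eq_natCast_iff]
  push_cast
  rw [ZMod.natCast_zmod_val, ZMod.natCast_zmod_val, ZMod.natCast_zmod_val]
  ring

private theorem bfamB_exp2 (q : ℕ) [NeZero q] (u a : ZMod q) :
    a.val * (-u).val ≡ (-(u * a)).val [MOD q] := by
  rw [← ZMod.natCast_eq_natCast_iff]
  push_cast
  rw [ZMod.natCast_zmod_val, ZMod.natCast_zmod_val, ZMod.natCast_zmod_val]
  ring

/-- if the expansion is supported on the exponents divisible by `q`, then `α` has level `n / p` -/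
private theorem bfamB_level (K : IntermediateField ℚ ℂ) (n p q : ℕ) [NeZero q] (hn : 0 < n)
    (hp : p.Prime) (hpn : p ∣ n) (hpq : p ∣ q) (c : ℕ → ℂ) (hc : ∀ i, c i ∈ K ∧ IsIntegral ℤ (c i)) :
    tB c n q 0 ∈ Rn K (n / p) := by
  have hnp : 0 < n / p := Nat.div_pos (Nat.le_of_dvd hn hpn) hp.pos
  have hzp : zt n ^ p = zt (n / p) := by
    have := zt_mul_pow p (n / p) hp.pos hnp
    rwa [Nat.mul_div_cancel' hpn] at this
  unfold tB
  refine Subring.sum_mem _ fun i hi => ?_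
  have hij := (Finset.mem_filter.mp hi).2
  have hqi : q ∣ i := (ZMod.natCast_eq_zero_iff i q).1 hij
  obtain ⟨k, rfl⟩ := hpq.trans hqi
  rw [pow_mul, hzp]
  exact Subring.mul_mem _ (rnB_int_mem K _ (hc _).1 (hc _).2)
    (Subring.pow_mem _ (rnB_zt_mem K _) k)

theorem bfamB (K : IntermediateField ℚ ℂ) [FiniteDimensional ℚ K] (f : ℕ) (hf : 0 < f)
    (hgal : GalOK K f) (n m p s : ℕ) (hm : 0 < m) (hp : p.Prime) (hpm : p ∣ m) (hs : 1 ≤ s)
    (hnm : n = m * p ^ s) (hfm : f ∣ m) [NeZero (p ^ s)] (α : ℂ) (c : ℕ → ℂ)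
    (hc : ∀ i, c i ∈ K ∧ IsIntegral ℤ (c i)) (hα : α = ∑ i ∈ range n, c i * zt n ^ i)
    (hα1 : α ≠ 1) (hα2 : α ≠ 2) (htp : STP.IsTotallyPositive α) (hnot : α ∉ Rn K (n / p)) :
    ∃ G : BFam (Ln K n →ₐ[ℚ] ℂ) (p ^ s) (ringA (Ln K n)),
      (∀ j, j ∈ G.J ↔ tB c n (p ^ s) (-j) ≠ 0) ∧ G.κ = 0 ∧ G.Aux ∧ (∃ j ∈ G.J, j ≠ 0) ∧
      ∑ φ, G.m φ = Fintype.card (Ln K n →ₐ[ℚ] ℂ) * (STP.meanTrace α).re ∧
      ∀ a ∈ G.S, ∃ σ : Ln K n ≃ₐ[ℚ] Ln K n, ∀ φ (z : Ln K n), (z : ℂ) = α →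
        φ (σ z) = (G.f φ a : ℂ) := by
  classical
  subst hnm
  have hq : 0 < p ^ s := NeZero.pos _
  have hn : 0 < m * p ^ s := Nat.mul_pos hm hq
  set ζ : Ln K (m * p ^ s) := ⟨zt (m * p ^ s), zt_mem K _⟩ with hζ
  have hζc : (ζ : ℂ) = zt (m * p ^ s) := rfl
  obtain ⟨ω, hω⟩ : ∃ w : Ln K (m * p ^ s), w = ζ ^ m := ⟨_, rfl⟩
  have hωc : (ω : ℂ) = zt (p ^ s) := by
    rw [hω, hζ]
    simpa using zt_mul_pow m (p ^ s) hm hq
  have hωp : IsPrimitiveRoot ω (p ^ s) := by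
    refine IsPrimitiveRoot.of_map_of_injective (f := (Ln K (m * p ^ s)).val) ?_
      (Ln K (m * p ^ s)).val.injective
    show IsPrimitiveRoot (ω : ℂ) (p ^ s)
    rw [hωc]
    exact zt_pow _ hq.ne'
  -- the automorphisms
  have hσ : ∀ b : ZMod (p ^ s), ∃ σ : Ln K (m * p ^ s) ≃ₐ[ℚ] Ln K (m * p ^ s),
      (∀ x : Ln K (m * p ^ s), (x : ℂ) ∈ K → σ x = x) ∧
      ∀ z : Ln K (m * p ^ s), (z : ℂ) = zt (m * p ^ s) →
        ((σ z : Ln K (m * p ^ s)) : ℂ) = zt (m * p ^ s) ^ (1 + m * b.val) := by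
    intro b
    refine hgal m (m * p ^ s) hn hfm (dvd_mul_right m _) (1 + m * b.val)
      (famB_coprime m b.val p s hpm) ?_
    simp [Nat.ModEq]
  choose σ hσ1 hσ2 using hσ
  have hσζ : ∀ b i, σ b (ζ ^ i) = ζ ^ i * ω ^ (b.val * i) := by
    intro b i
    have h1 : σ b ζ = ζ ^ (1 + m * b.val) := by
      apply Subtype.ext
      rw [hσ2 b ζ rfl]
      push_cast
      rfl
    rw [map_pow, h1, hω, ← pow_mul, ← pow_mul, ← pow_add]
    congr 1
    ring
  -- the lifts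
  have hαR : α ∈ Rn K (m * p ^ s) := by
    rw [hα]
    refine Subring.sum_mem _ fun i _ => ?_
    exact Subring.mul_mem _ (rnB_int_mem K _ (hc i).1 (hc i).2)
      (Subring.pow_mem _ (rnB_zt_mem K _) i)
  set x : Ln K (m * p ^ s) := ⟨α, (rn_sub K hn hαR).1⟩ with hx
  have hxc : (x : ℂ) = α := rfl
  obtain ⟨cc, hcc⟩ : ∃ cc : ℕ → Ln K (m * p ^ s), ∀ i, (cc i : ℂ) = c i :=
    ⟨fun i => ⟨c i, (le_sup_left : K ≤ Ln K (m * p ^ s)) (hc i).1⟩, fun i => rfl⟩
  obtain ⟨tt, htt⟩ : ∃ tt : ZMod (p ^ s) → Ln K (m * p ^ s), ∀ j, tt j =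
      ∑ i ∈ (range (m * p ^ s)).filter (fun i : ℕ => (i : ZMod (p ^ s)) = j), cc i * ζ ^ i :=
    ⟨_, fun j => rfl⟩
  have httc : ∀ j, ((tt j : Ln K (m * p ^ s)) : ℂ) = tB c (m * p ^ s) (p ^ s) j := by
    intro j
    rw [htt]
    push_cast
    unfold tB
    refine Finset.sum_congr rfl fun i _ => ?_
    rw [hcc]
  have hxtt : x = ∑ j, tt j := by
    have h1 : ∑ j, tt j = ∑ i ∈ range (m * p ^ s), cc i * ζ ^ i := by
      rw [Finset.sum_congr rfl fun j _ => htt j]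
      exact Finset.sum_fiberwise _ _ _
    rw [h1]
    apply Subtype.ext
    rw [hxc, hα]
    push_cast
    refine Finset.sum_congr rfl fun i _ => ?_
    rw [hcc]
  have hωpow : ∀ a b : ℕ, a ≡ b [MOD p ^ s] → ω ^ a = ω ^ b := fun a b h =>
    bfamB_pow_congr hωp.pow_eq_one h
  have hσtt : ∀ b j, σ b (tt j) = tt j * ω ^ (b.val * j.val) := by
    intro b j
    rw [htt, map_sum, Finset.sum_mul]
    refine Finset.sum_congr rfl fun i hi => ?_
    rw [map_mul, hσ1 b (cc i) (by rw [hcc]; exact (hc i).1), hσζ b i]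
    have h1 : ω ^ (b.val * i) = ω ^ (b.val * j.val) := by
      apply hωpow
      rw [← (Finset.mem_filter.mp hi).2, ZMod.val_natCast]
      exact Nat.ModEq.mul_left _ (Nat.mod_modEq i (p ^ s)).symm
    rw [h1]
    ring
  have hσx : ∀ b, σ b x = ∑ j, tt j * ω ^ (b.val * j.val) := by
    intro b
    rw [hxtt, map_sum]
    exact Finset.sum_congr rfl fun j _ => hσtt b j
  obtain ⟨F, hFS, hFA, hFf, hFψ, hFT, hFm⟩ := fam_mk2 (Ln K (m * p ^ s)) (p ^ s) univ
    (by rw [card_univ, ZMod.card]; omega) σ x htp hα1 hα2 ω hωp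
  have hψ' : ∀ φ (b : ZMod (p ^ s)), F.ψ φ b = φ ω ^ b.val := by
    intro φ b
    have h1 := hFψ φ b.val
    rwa [ZMod.natCast_zmod_val] at h1
  -- the Fourier coefficients
  have hT : ∀ φ j, F.T φ j = φ (tt (-j)) := by
    intro φ j
    rw [hFT φ j]
    congr 1
    apply Subtype.ext
    have h1 : (((1 / (((univ : Finset (ZMod (p ^ s))).card : Ln K (m * p ^ s)))) *
        ∑ b ∈ univ, σ b x * ω ^ (j * b).val : Ln K (m * p ^ s)) : ℂ) = (1 / ((p ^ s : ℕ) : ℂ)) *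
        ∑ b : ZMod (p ^ s), ((σ b x : Ln K (m * p ^ s)) : ℂ) * (ω : ℂ) ^ (j * b).val := by
      simp only [card_univ, ZMod.card]
      push_cast
      rfl
    rw [h1]
    have h2 : ∀ b : ZMod (p ^ s), ((σ b x : Ln K (m * p ^ s)) : ℂ) * (ω : ℂ) ^ (j * b).val =
        ∑ i, (tt i : ℂ) * (zt (p ^ s) ^ (b.val * i.val) * zt (p ^ s) ^ (j * b).val) := by
      intro b
      rw [hσx b]
      push_cast
      rw [hωc, Finset.sum_mul]
      exact Finset.sum_congr rfl fun i _ => by ring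
    rw [Finset.sum_congr rfl fun b _ => h2 b, Finset.sum_comm]
    have h3 : ∀ i : ZMod (p ^ s), ∑ b : ZMod (p ^ s),
        (tt i : ℂ) * (zt (p ^ s) ^ (b.val * i.val) * zt (p ^ s) ^ (j * b).val) =
        if i = -j then (tt i : ℂ) * ((p ^ s : ℕ) : ℂ) else 0 := by
      intro i
      rw [← Finset.mul_sum, famB_char_sum]
      split_ifs <;> simp
    rw [Finset.sum_congr rfl fun i _ => h3 i, Finset.sum_ite_eq' univ (-j), if_pos (mem_univ _)]
    have h4 : ((p ^ s : ℕ) : ℂ) ≠ 0 := by exact_mod_cast hq.ne'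
    field_simp
  -- integrality
  have httint : ∀ j, IsIntegral ℤ ((tt j : Ln K (m * p ^ s)) : ℂ) := by
    intro j
    rw [httc]
    unfold tB
    refine IsIntegral.sum _ fun i _ => ?_
    exact (hc i).2.mul ((rnB_zt_integral hn).pow i)
  -- the twisted partial sums
  have htw : ∀ (J1 : Finset (ZMod (p ^ s))) φ a,
      ∑ u ∈ J1, F.T φ u * F.ψ φ (-(u * a)) = φ (σ a (∑ u ∈ J1, tt (-u))) := by
    intro J1 φ a
    rw [map_sum, map_sum]
    refine Finset.sum_congr rfl fun u _ => ?_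
    rw [hT, hψ', hσtt, map_mul, map_pow]
    congr 1
    rw [← map_pow, ← map_pow, hωpow _ _ (bfamB_exp2 (p ^ s) u a)]
  have hall : ∀ φ a, (F.f φ a : ℂ) = ∑ u, F.T φ u * F.ψ φ (-(u * a)) := by
    intro φ a
    rw [htw univ φ a, ← hFf φ a]
    congr 2
    rw [hxtt]
    exact (Equiv.sum_comp (Equiv.neg (ZMod (p ^ s))) tt).symm
  let J : Finset (ZMod (p ^ s)) := univ.filter fun j => tB c (m * p ^ s) (p ^ s) (-j) ≠ 0
  have hJ : ∀ j, j ∈ J ↔ tB c (m * p ^ s) (p ^ s) (-j) ≠ 0 := by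
    intro j
    simp [J]
  have htt0 : ∀ j, tt (-j) = 0 ↔ tB c (m * p ^ s) (p ^ s) (-j) = 0 := by
    intro j
    rw [← httc]
    constructor
    · intro h
      rw [h]
      rfl
    · intro h
      apply Subtype.ext
      rw [h]
      rfl
  let G : BFam (Ln K (m * p ^ s) →ₐ[ℚ] ℂ) (p ^ s) (ringA (Ln K (m * p ^ s))) :=
    { toFam := F
      hS1 := by
        rw [hFS, card_univ, ZMod.card]
        omega
      hψA := by
        intro b
        refine mem_ringA.2 ⟨ω ^ b.val, ?_, fun φ => ?_⟩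
        · have h1 : ((ω ^ b.val : Ln K (m * p ^ s)) : ℂ) = zt (p ^ s) ^ b.val := by
            rw [← hωc]
            rfl
          rw [h1]
          exact (rnB_zt_integral hq).pow _
        · show F.ψ φ b = φ (ω ^ b.val)
          rw [hψ', map_pow]
      J := J
      D := F.T
      κ := 0
      hκ := le_rfl
      hD := by
        intro j
        exact mem_ringA.2 ⟨tt (-j), httint (-j), fun φ => hT φ j⟩
      hD0 := by
        intro j hj φ
        rw [hJ, not_not] at hj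
        rw [hT, (htt0 j).2 hj, map_zero]
      hDJ := by
        intro j hj φ
        rw [hJ] at hj
        rw [hT]
        exact (map_ne_zero_iff φ φ.injective).2 (fun h => hj ((htt0 j).1 h))
      hconj := fun φ j => FT_neg (F.ψ φ) (F.w φ) j
      near := by
        intro φ j
        rw [sub_self, norm_zero, zero_mul]
      hfD := fun φ a _ => hall φ a
      hgal := by
        intro J1 a _ a' _ φ φ' h
        rw [htw] at h ⊢
        have h1 : ∑ u ∈ J1, tt (-u) = 0 :=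
          (map_eq_zero_iff (σ a) (σ a).injective).1 ((map_eq_zero_iff φ φ.injective).1 h)
        rw [h1, map_zero, map_zero] }
  refine ⟨G, hJ, rfl, hFA, ?_, hFm, ?_⟩
  · by_contra hcon
    push Not at hcon
    apply hnot
    have h1 : α = tB c (m * p ^ s) (p ^ s) 0 := by
      rw [← hxc, ← httc 0, hxtt]
      congr 1
      refine Finset.sum_eq_single 0 (fun j _ hj => ?_) (fun h => absurd (mem_univ _) h)
      by_contra h2
      apply hj
      have h3 : -j ∈ J := by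
        rw [hJ, neg_neg, ← httc]
        intro h4
        apply h2
        apply Subtype.ext
        rw [h4]
        rfl
      exact neg_eq_zero.1 (hcon (-j) h3)
    rw [h1]
    exact bfamB_level K _ p (p ^ s) hn hp (hpm.mul_right _) (dvd_pow_self p (by omega)) c hc
  · intro a _
    refine ⟨σ a, fun φ z hz => ?_⟩
    have h1 : z = x := Subtype.ext hz
    rw [h1]
    exact hFf φ a

end Pool.Agent.CYC
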