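import Mathlib
import Pool.Agent.Lib.MP_8ca0c8_nt_CYC2.AuxTwo

/-! Project CYC2 (MP_8ca0c8_nt), module CCONCL: conclusion of the commensurable case. -/

namespace Pool.Agent.CYC

open Finset

/-- weighted arithmetic-geometric mean in logarithmic form -/
lemma cconcl_amgm {u v y : ℝ} (hu : 0 < u) (hv : 0 < v) (hy : 0 < y)
    (h : 4 * u ^ 2 + v ^ 2 ≤ 5 * y ^ 2) :
    8 / 5 * Real.log u + 2 / 5 * Real.log v ≤ 2 * Real.log y := by
  have hy2 : 0 < y ^ 2 := by positivity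
  have h1 := aux2_tangent hy2 (by positivity : 0 < u ^ 2)
  have h2 := aux2_tangent hy2 (by positivity : 0 < v ^ 2)
  rw [Real.log_pow, Real.log_pow] at h1 h2
  push_cast at h1 h2
  have h3 : 4 / 5 * (u ^ 2 / y ^ 2) + 1 / 5 * (v ^ 2 / y ^ 2) ≤ 1 := by
    have : 4 / 5 * (u ^ 2 / y ^ 2) + 1 / 5 * (v ^ 2 / y ^ 2) =
        (4 * u ^ 2 + v ^ 2) / (5 * y ^ 2) := by
      field_simp
    rw [this, div_le_one (by positivity)]
    exact h
  linarith

theorem c_concl (ε : ℝ) (hε : 0 < ε) : ∃ ε1 : ℝ, 0 < ε1 ∧ ε1 ≤ 1 ∧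
    ∀ {Ω : Type} [Fintype Ω] [Nonempty Ω] {q : ℕ} [NeZero q] {Rg : IRing Ω} (G : BFam Ω q Rg),
      G.κ ≤ ε1 → ∀ u v : Ω → ℝ, (∀ φ, 0 < u φ) → (∀ φ, 0 < v φ) →
      0 ≤ ∑ φ, Real.log (u φ) → 0 ≤ ∑ φ, Real.log (v φ) →
      (∀ φ, 4 * u φ ^ 2 + v φ ^ 2 ≤ ((1 + ε1) * G.m φ) ^ 2) →
      (5 / 2 - ε) * Fintype.card Ω ≤ ∑ φ, G.m φ := by
  obtain ⟨s, c, d, hs, hc, hd, haux⟩ := aux2
  obtain ⟨e, he⟩ : ∃ e : ℝ, e = min (1 / 20) (ε / (5 / 2 + 3 * s)) := ⟨_, rfl⟩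
  have he0 : 0 < e := by rw [he]; exact lt_min (by norm_num) (by positivity)
  have he1 : e ≤ 1 / 20 := by rw [he]; exact min_le_left _ _
  have he2 : e * (5 / 2 + 3 * s) ≤ ε := by
    have : e ≤ ε / (5 / 2 + 3 * s) := by rw [he]; exact min_le_right _ _
    rwa [le_div_iff₀ (by positivity)] at this
  refine ⟨e, he0, by linarith, ?_⟩
  intro Ω _ _ q _ Rg G hκ u v hu hv hlu hlv huv
  obtain ⟨r, hr⟩ : ∃ r : ℝ, r = √5 := ⟨_, rfl⟩
  have hr0 : 0 < r := by rw [hr]; positivity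
  have hr2 : r * r = 5 := by rw [hr]; exact Real.mul_self_sqrt (by norm_num)
  have hrl : 2236 / 1000 < r := by nlinarith
  have hκ0 := G.hκ
  have hκ1 : G.κ < 1 := by linarith
  obtain ⟨N, hN⟩ : ∃ N : ℝ, N = Fintype.card Ω := ⟨_, rfl⟩
  have hN0 : 0 < N := by rw [hN]; exact_mod_cast Fintype.card_pos
  rw [← hN]
  have hm : ∀ φ, 0 < G.m φ := fun φ => G.m_pos φ
  have hm0 : ∀ φ, 0 < (G.D φ 0).re := fun φ => G.D_zero_pos hκ1 φ
  have hup : ∀ φ, (G.D φ 0).re ≤ (1 + e) * G.m φ := by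
    intro φ
    have h1 := abs_le.mp (G.abs_m_sub_le φ)
    have h2 := mul_le_mul_of_nonneg_right hκ (hm φ).le
    linarith [h1.1]
  have hlow : ∀ φ, (1 - e) * G.m φ ≤ (G.D φ 0).re := by
    intro φ
    have h1 := abs_le.mp (G.abs_m_sub_le φ)
    have h2 := mul_le_mul_of_nonneg_right hκ (hm φ).le
    linarith [h1.2]
  -- the logarithmic mean of the masses
  have hy : ∀ φ, 0 < (1 + e) * G.m φ / r := fun φ => by have := hm φ; positivity
  have hsum : 0 ≤ ∑ φ, Real.log ((1 + e) * G.m φ / r) := by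
    have h1 : ∀ φ, 8 / 5 * Real.log (u φ) + 2 / 5 * Real.log (v φ) ≤
        2 * Real.log ((1 + e) * G.m φ / r) := by
      intro φ
      refine cconcl_amgm (hu φ) (hv φ) (hy φ) ?_
      have : 5 * ((1 + e) * G.m φ / r) ^ 2 = ((1 + e) * G.m φ) ^ 2 := by
        rw [div_pow, show r ^ 2 = 5 by rw [sq]; exact hr2]
        ring
      rw [this]
      exact huv φ
    have h2 := Finset.sum_le_sum fun φ (_ : φ ∈ Finset.univ) => h1 φ
    rw [Finset.sum_add_distrib, ← Finset.mul_sum, ← Finset.mul_sum, ← Finset.mul_sum] at h2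
    linarith
  by_cases h2 : ∀ φ, (G.D φ 0).re = 2
  · -- mass two is impossible
    exfalso
    obtain ⟨φ0⟩ := ‹Nonempty Ω›
    have h3 : ∀ φ, Real.log ((1 + e) * G.m φ / r) < 0 := by
      intro φ
      refine Real.log_neg (hy φ) ?_
      rw [div_lt_one hr0]
      have h4 := hlow φ
      rw [h2 φ] at h4
      have h5 := hm φ
      nlinarith
    have h4 : ∑ φ, Real.log ((1 + e) * G.m φ / r) < 0 :=
      Finset.sum_neg (fun φ _ => h3 φ) ⟨φ0, Finset.mem_univ _⟩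
    linarith
  by_cases h3 : ∀ φ, (G.D φ 0).re = 3
  · have h4 : ∀ φ ∈ (Finset.univ : Finset Ω), 5 / 2 - ε ≤ G.m φ := by
      intro φ _
      have h5 := hup φ
      rw [h3 φ] at h5
      nlinarith
    have h5 := Finset.card_nsmul_le_sum _ _ _ h4
    rw [nsmul_eq_mul, Finset.card_univ, ← hN] at h5
    linarith
  -- the main case
  have hA : ∀ k : ℕ, (¬ ∀ φ, (G.D φ 0).re = k) →
      (∀ φ, (G.D φ 0).re ≠ k) ∧ 0 ≤ ∑ φ, Real.log |(G.D φ 0).re - k| := by
    intro k hk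
    have hmem : ((fun φ => G.D φ 0) - (k : Ω → ℂ)) ∈ Rg.A :=
      Rg.A.sub_mem (G.hD 0) (natCast_mem Rg.A k)
    have hev : ∀ φ, ((fun φ => G.D φ 0) - (k : Ω → ℂ)) φ = (((G.D φ 0).re - k : ℝ) : ℂ) := by
      intro φ
      rw [Pi.sub_apply]
      show G.D φ 0 - (k : Ω → ℂ) φ = _
      rw [Pi.natCast_apply, G.D_zero_eq φ]
      push_cast
      simp
    have hne : ((fun φ => G.D φ 0) - (k : Ω → ℂ)) ≠ 0 := by
      intro h0
      apply hk
      intro φ
      have h1 := hev φ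
      rw [h0, Pi.zero_apply] at h1
      have h2 : (G.D φ 0).re - (k : ℝ) = 0 := by exact_mod_cast h1.symm
      linarith
    obtain ⟨h1, h2⟩ := Rg.hA _ hmem hne
    constructor
    · intro φ h0
      apply h1 φ
      rw [hev φ, h0]
      simp
    · refine h2.trans (le_of_eq (Finset.sum_congr rfl fun φ _ => ?_))
      rw [hev φ, Complex.norm_real, Real.norm_eq_abs]
  obtain ⟨hn2, hl2⟩ := hA 2 (by exact_mod_cast h2)
  obtain ⟨hn3, hl3⟩ := hA 3 (by exact_mod_cast h3)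
  push_cast at hn2 hl2 hn3 hl3
  -- the loss
  obtain ⟨δ, hδ⟩ : ∃ δ : ℝ, δ = Real.log ((1 + e) / (1 - e)) := ⟨_, rfl⟩
  have hδ3 : δ ≤ 3 * e := by
    have h4 : 0 < (1 + e) / (1 - e) := div_pos (by linarith) (by linarith)
    have h5 := Real.log_le_sub_one_of_pos h4
    have h6 : (1 + e) / (1 - e) ≤ 1 + 3 * e := by
      rw [div_le_iff₀ (by linarith)]
      nlinarith
    linarith
  have hlog : ∀ φ, Real.log ((1 + e) * G.m φ / r) - δ ≤ Real.log ((G.D φ 0).re / r) := by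
    intro φ
    rw [hδ, ← Real.log_div (hy φ).ne' (div_pos (by linarith) (by linarith)).ne']
    apply Real.log_le_log (div_pos (hy φ) (div_pos (by linarith) (by linarith)))
    have h4 : (1 + e) * G.m φ / r / ((1 + e) / (1 - e)) = (1 - e) * G.m φ / r := by
      have h5 : (1 + e) ≠ 0 := by linarith
      have h6 : (1 - e) ≠ 0 := by linarith
      field_simp
    rw [h4]
    exact div_le_div_of_nonneg_right (hlow φ) hr0.le
  have hlogs : -(δ * N) ≤ ∑ φ, Real.log ((G.D φ 0).re / r) := by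
    have h4 := Finset.sum_le_sum fun φ (_ : φ ∈ Finset.univ) => hlog φ
    rw [Finset.sum_sub_distrib, Finset.sum_const, Finset.card_univ, nsmul_eq_mul, ← hN] at h4
    linarith
  have hfin : 5 / 2 * N + s * ∑ φ, Real.log ((G.D φ 0).re / r) +
      c * ∑ φ, Real.log |(G.D φ 0).re - 2| + d * ∑ φ, Real.log |(G.D φ 0).re - 3| ≤
      ∑ φ, (G.D φ 0).re := by
    have h4 := Finset.sum_le_sum fun φ (_ : φ ∈ Finset.univ) =>
      haux (G.D φ 0).re (hm0 φ) (hn2 φ) (hn3 φ)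
    rw [Finset.sum_add_distrib, Finset.sum_add_distrib, Finset.sum_add_distrib,
      ← Finset.mul_sum, ← Finset.mul_sum, ← Finset.mul_sum, Finset.sum_const, Finset.card_univ,
      nsmul_eq_mul, ← hN, ← hr] at h4
    linarith
  have hsm : ∑ φ, (G.D φ 0).re ≤ (1 + e) * ∑ φ, G.m φ := by
    rw [Finset.mul_sum]
    exact Finset.sum_le_sum fun φ _ => hup φ
  have k1 := mul_le_mul_of_nonneg_left hlogs hs
  have k2 := mul_nonneg hc hl2
  have k3 := mul_nonneg hd hl3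
  have k4 : s * δ ≤ s * (3 * e) := mul_le_mul_of_nonneg_left hδ3 hs
  have k5 : (1 + e) * (5 / 2 - ε) ≤ 5 / 2 - s * (3 * e) := by nlinarith
  have k6 : (1 + e) * ((5 / 2 - ε) * N) ≤ (1 + e) * ∑ φ, G.m φ := by
    have k7 := mul_le_mul_of_nonneg_right k5 hN0.le
    have k8 := mul_le_mul_of_nonneg_right k4 hN0.le
    nlinarith
  exact le_of_mul_le_mul_left k6 (by linarith)

end Pool.Agent.CYC
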