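import Mathlib
import Pool.Agent.Lib.MP_8ca0c8_nt_CYC2.Defs

/-! Project CYC2 (MP_8ca0c8_nt), module KERNEL: Fejer kernel. -/

namespace Pool.Agent.CYC

open Finset

theorem kernel_sum_split (f : ℤ → ℂ) (n : ℕ) :
    ∑ k ∈ Icc (-((n + 1 : ℕ) : ℤ)) ((n + 1 : ℕ) : ℤ), f k =
      f (-((n + 1 : ℕ) : ℤ)) + (f ((n + 1 : ℕ) : ℤ) + ∑ k ∈ Icc (-(n : ℤ)) n, f k) := by
  have h : Icc (-((n + 1 : ℕ) : ℤ)) ((n + 1 : ℕ) : ℤ) =
      insert (-((n + 1 : ℕ) : ℤ)) (insert ((n + 1 : ℕ) : ℤ) (Icc (-(n : ℤ)) n)) := by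
    ext x
    simp only [mem_insert, mem_Icc]
    push_cast
    omega
  rw [h, sum_insert, sum_insert]
  · simp only [mem_Icc]
    push_cast
    omega
  · simp only [mem_insert, mem_Icc]
    push_cast
    omega

theorem kernel_dir (z : ℂ) (n : ℕ) : ∑ k ∈ Icc (-(n : ℤ)) n, z ^ k =
    1 + ∑ j ∈ range n, z ^ ((j : ℤ) + 1) + ∑ j ∈ range n, z ^ (-((j : ℤ) + 1)) := by
  induction n with
  | zero => simp
  | succ n ih =>
    rw [kernel_sum_split, ih, sum_range_succ, sum_range_succ]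
    push_cast
    ring

theorem kernel_refl {z : ℂ} (hz : z ≠ 0) (n : ℕ) :
    (∑ r ∈ range n, z ^ (r : ℤ)) * z ^ (-(n : ℤ)) = ∑ j ∈ range n, z ^ (-((j : ℤ) + 1)) := by
  rw [sum_mul, ← sum_range_reflect]
  refine sum_congr rfl fun j hj => ?_
  rw [mem_range] at hj
  rw [← zpow_add₀ hz]
  congr 1
  omega

theorem kernel_refl' {z : ℂ} (hz : z ≠ 0) (n : ℕ) :
    (∑ r ∈ range n, z ^ (-(r : ℤ))) * z ^ (n : ℤ) = ∑ j ∈ range n, z ^ ((j : ℤ) + 1) := by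
  rw [sum_mul, ← sum_range_reflect]
  refine sum_congr rfl fun j hj => ?_
  rw [mem_range] at hj
  rw [← zpow_add₀ hz]
  congr 1
  omega

theorem kernel_sq {z : ℂ} (hz : z ≠ 0) (n : ℕ) :
    ∑ k ∈ Icc (-(n : ℤ)) n, (((n + 1 - |k| : ℤ) : ℝ) : ℂ) * z ^ k =
      (∑ r ∈ range (n + 1), z ^ (r : ℤ)) * ∑ r ∈ range (n + 1), z ^ (-(r : ℤ)) := by
  induction n with
  | zero => simp
  | succ n ih =>
    have h1 : ∑ k ∈ Icc (-((n + 1 : ℕ) : ℤ)) ((n + 1 : ℕ) : ℤ),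
        (((((n + 1 : ℕ) : ℤ) + 1 - |k| : ℤ) : ℝ) : ℂ) * z ^ k =
        ∑ k ∈ Icc (-((n + 1 : ℕ) : ℤ)) ((n + 1 : ℕ) : ℤ),
          (((n + 1 - |k| : ℤ) : ℝ) : ℂ) * z ^ k +
        ∑ k ∈ Icc (-((n + 1 : ℕ) : ℤ)) ((n + 1 : ℕ) : ℤ), z ^ k := by
      rw [← sum_add_distrib]
      refine sum_congr rfl fun k _ => ?_
      push_cast
      ring
    have h2 : ∑ k ∈ Icc (-((n + 1 : ℕ) : ℤ)) ((n + 1 : ℕ) : ℤ),
        (((n + 1 - |k| : ℤ) : ℝ) : ℂ) * z ^ k =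
        ∑ k ∈ Icc (-(n : ℤ)) n, (((n + 1 - |k| : ℤ) : ℝ) : ℂ) * z ^ k := by
      rw [kernel_sum_split, abs_neg, abs_of_nonneg (by positivity : (0:ℤ) ≤ ((n + 1 : ℕ) : ℤ))]
      push_cast
      ring
    have h3 := kernel_refl hz (n + 1)
    have h4 := kernel_refl' hz (n + 1)
    rw [h1, h2, ih, kernel_dir, sum_range_succ (fun r : ℕ => z ^ (r : ℤ)) (n + 1),
      sum_range_succ (fun r : ℕ => z ^ (-(r : ℤ))) (n + 1), ← h3, ← h4]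
    have h5 : z ^ (((n + 1 : ℕ) : ℤ)) * z ^ (-((n + 1 : ℕ) : ℤ)) = 1 := by
      rw [← zpow_add₀ hz, add_neg_cancel, zpow_zero]
    linear_combination -h5

theorem kernel_pos (z : ℂ) (hz : ‖z‖ = 1) (R : ℕ) : ∃ ρ : ℝ, 0 ≤ ρ ∧
    ∑ k ∈ Icc (-(R : ℤ)) R, (((R + 1 - |k| : ℤ) : ℝ) : ℂ) * z ^ k = ρ := by
  have hz0 : z ≠ 0 := by
    rw [← norm_ne_zero_iff, hz]
    exact one_ne_zero
  refine ⟨Complex.normSq (∑ r ∈ range (R + 1), z ^ (r : ℤ)), Complex.normSq_nonneg _, ?_⟩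
  rw [kernel_sq hz0, Complex.normSq_eq_conj_mul_self, mul_comm, map_sum]
  congr 1
  refine sum_congr rfl fun r _ => ?_
  rw [map_zpow₀, zpow_neg, ← inv_zpow]
  congr 1
  rw [Complex.inv_def, Complex.normSq_eq_norm_sq, hz]
  simp

end Pool.Agent.CYC
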