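import Mathlib
import Pool.Agent.Lib.MP_8ca0c8_nt_CYC2.Kernel

/-! Project CYC2 (MP_8ca0c8_nt), module CINEQ: the inequality of the commensurable case. -/

namespace Pool.Agent.CYC

open Finset

private theorem ci_sum (R : ℕ) :
    ∑ k ∈ Icc (-(R : ℤ)) R, ((R : ℤ) + 1 - |k|) = ((R : ℤ) + 1) ^ 2 := by
  induction R with
  | zero => simp
  | succ R ih =>
    have h1 : Icc (-((R + 1 : ℕ) : ℤ)) ((R + 1 : ℕ) : ℤ) =
        insert (-((R : ℤ) + 1)) (insert ((R : ℤ) + 1) (Icc (-(R : ℤ)) R)) := by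
      ext k
      simp only [mem_Icc, mem_insert]
      push_cast
      constructor
      · rintro ⟨h1, h2⟩
        by_cases h3 : k = -((R : ℤ) + 1)
        · exact Or.inl h3
        · by_cases h4 : k = (R : ℤ) + 1
          · exact Or.inr (Or.inl h4)
          · right; right
            constructor <;> omega
      · rintro (h | h | ⟨h1, h2⟩)
        · constructor <;> omega
        · constructor <;> omega
        · constructor <;> omega
    have hn1 : (-((R : ℤ) + 1)) ∉ insert ((R : ℤ) + 1) (Icc (-(R : ℤ)) R) := by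
      simp only [mem_insert, mem_Icc, not_or, not_and]
      constructor
      · omega
      · intro h; omega
    have hn2 : ((R : ℤ) + 1) ∉ Icc (-(R : ℤ)) R := by
      simp only [mem_Icc, not_and]
      intro h; omega
    rw [h1, sum_insert hn1, sum_insert hn2]
    have h2 : ∑ k ∈ Icc (-(R : ℤ)) R, ((((R + 1 : ℕ) : ℤ)) + 1 - |k|) =
        ∑ k ∈ Icc (-(R : ℤ)) R, (((R : ℤ) + 1 - |k|) + 1) := by
      refine sum_congr rfl fun k _ => ?_
      push_cast; ring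
    rw [h2, sum_add_distrib, ih]
    have h3 : |-((R : ℤ) + 1)| = (R : ℤ) + 1 := by
      rw [abs_neg]; exact abs_of_nonneg (by omega)
    have h4 : |((R : ℤ) + 1)| = (R : ℤ) + 1 := abs_of_nonneg (by omega)
    rw [h3, h4, sum_const, Int.card_Icc]
    simp only [smul_eq_mul, mul_one, nsmul_eq_mul]
    have h5 : (((R : ℤ) + 1 - -(R : ℤ)).toNat : ℤ) = 2 * (R : ℤ) + 1 := by
      rw [Int.toNat_of_nonneg (by omega)]; ring
    rw [h5]
    push_cast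
    ring

/-- the quadratic form -/
private noncomputable def ciQ {q : ℕ} (R : ℕ) (x y : ZMod q) (z c : ℂ) (U : ZMod q → ℂ) : ℂ :=
  ∑ k ∈ Icc (-(R : ℤ)) R, (((R + 1 - |k| : ℤ) : ℝ) : ℂ) * z ^ k *
    (2 * U ((k : ZMod q) * y) + c * U ((k : ZMod q) * y + x) +
      (starRingEnd ℂ) c * U ((k : ZMod q) * y - x))

private theorem ci_pos {q : ℕ} [NeZero q] (ψ : AddChar (ZMod q) ℂ) (w : ZMod q → ℝ)
    (hw : ∀ b, 0 ≤ w b) (R : ℕ) (x y : ZMod q) (z c : ℂ) (hz : ‖z‖ = 1) (hc : ‖c‖ = 1) :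
    0 ≤ (ciQ R x y z c (FT ψ w)).re := by
  have hk : ∀ b : ZMod q, ∃ ρ : ℝ, 0 ≤ ρ ∧
      ∑ k ∈ Icc (-(R : ℤ)) R, (((R + 1 - |k| : ℤ) : ℝ) : ℂ) * (z * ψ (y * b)) ^ k = ρ :=
    fun b => kernel_pos _ (by rw [norm_mul, hz, norm_psi, mul_one]) R
  choose ρ hρ0 hρ using hk
  have hcn : ∀ b : ZMod q, (((Complex.normSq (1 + c * ψ (x * b)) : ℝ)) : ℂ) =
      2 + c * ψ (x * b) + (starRingEnd ℂ) c * ψ (-(x * b)) := by
    intro b
    have e1 : (starRingEnd ℂ) (ψ (x * b)) = ψ (-(x * b)) := (AddChar.map_neg_eq_conj ψ _).symm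
    have e2 : (c * ψ (x * b)) * (starRingEnd ℂ) (c * ψ (x * b)) = 1 := by
      rw [Complex.mul_conj, Complex.normSq_eq_norm_sq, norm_mul, hc, norm_psi]
      norm_num
    rw [← Complex.mul_conj, map_add, map_one, (starRingEnd ℂ).map_mul c (ψ (x * b)), e1]
    rw [(starRingEnd ℂ).map_mul c (ψ (x * b)), e1] at e2
    linear_combination e2
  have hmain : ciQ R x y z c (FT ψ w) =
      ((∑ b, w b * (ρ b * Complex.normSq (1 + c * ψ (x * b))) : ℝ) : ℂ) := by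
    push_cast
    have e1 : ∀ b, (w b : ℂ) * ((ρ b : ℂ) * ((Complex.normSq (1 + c * ψ (x * b)) : ℝ) : ℂ)) =
        ∑ k ∈ Icc (-(R : ℤ)) R, (((R + 1 - |k| : ℤ) : ℝ) : ℂ) * z ^ k *
          ((w b : ℂ) * (2 * ψ ((k : ZMod q) * y * b) + c * ψ (((k : ZMod q) * y + x) * b) +
            (starRingEnd ℂ) c * ψ (((k : ZMod q) * y - x) * b))) := by
      intro b
      rw [← hρ b, hcn b, sum_mul, mul_sum]
      refine sum_congr rfl fun k _ => ?_
      have f1 : ψ ((k : ZMod q) * y * b) = ψ (y * b) ^ k := by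
        rw [← AddChar.map_zsmul_eq_zpow, zsmul_eq_mul, mul_assoc]
      have f2 : ψ (((k : ZMod q) * y + x) * b) = ψ (y * b) ^ k * ψ (x * b) := by
        rw [add_mul, AddChar.map_add_eq_mul, f1]
      have f3 : ψ (((k : ZMod q) * y - x) * b) = ψ (y * b) ^ k * ψ (-(x * b)) := by
        rw [sub_mul, sub_eq_add_neg, AddChar.map_add_eq_mul, f1]
      rw [f1, f2, f3, mul_zpow]
      ring
    rw [sum_congr rfl fun b _ => e1 b, sum_comm]
    unfold ciQ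
    refine sum_congr rfl fun k _ => ?_
    rw [← mul_sum]
    congr 1
    simp only [FT, mul_sum, ← sum_add_distrib]
    refine sum_congr rfl fun b _ => ?_
    ring
  rw [hmain, Complex.ofReal_re]
  exact sum_nonneg fun b _ => mul_nonneg (hw b) (mul_nonneg (hρ0 b) (Complex.normSq_nonneg _))

private theorem ci_err {q : ℕ} (R : ℕ) (x y : ZMod q) (z c : ℂ) (hz : ‖z‖ = 1) (hc : ‖c‖ = 1)
    (U V : ZMod q → ℂ) (δ : ℝ) (hUV : ∀ u, ‖U u - V u‖ ≤ δ) :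
    ‖ciQ R x y z c U - ciQ R x y z c V‖ ≤ 4 * δ * ((R : ℝ) + 1) ^ 2 := by
  have hcc : ‖(starRingEnd ℂ) c‖ = 1 := by rw [Complex.norm_conj, hc]
  unfold ciQ
  rw [← sum_sub_distrib]
  refine (norm_sum_le _ _).trans ?_
  have hS : ((∑ k ∈ Icc (-(R : ℤ)) R, ((R : ℤ) + 1 - |k|) : ℤ) : ℝ) = ((R : ℝ) + 1) ^ 2 := by
    rw [ci_sum]; push_cast; ring
  rw [← hS]
  push_cast
  rw [mul_sum]
  refine sum_le_sum fun k hk => ?_
  have hk0 : (0 : ℝ) ≤ (R : ℝ) + 1 - |(k : ℝ)| := by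
    have h1 := mem_Icc.1 hk
    have h2 : |k| ≤ (R : ℤ) := abs_le.2 h1
    have h3 : ((|k| : ℤ) : ℝ) ≤ ((R : ℤ) : ℝ) := by exact_mod_cast h2
    push_cast at h3
    linarith
  have e1 : ∀ A B : ℂ, (((R : ℂ) + 1 - ((|(k : ℝ)| : ℝ) : ℂ)) * z ^ k * A -
      ((R : ℂ) + 1 - ((|(k : ℝ)| : ℝ) : ℂ)) * z ^ k * B) =
      ((((R : ℝ) + 1 - |(k : ℝ)| : ℝ)) : ℂ) * z ^ k * (A - B) := by
    intro A B; push_cast; ring
  have hzk : ‖z ^ k‖ = 1 := by rw [norm_zpow, hz, one_zpow]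
  rw [e1, norm_mul, norm_mul, Complex.norm_real, hzk, mul_one, Real.norm_eq_abs,
    abs_of_nonneg hk0]
  have e2 : ‖(2 * U ((k : ZMod q) * y) + c * U ((k : ZMod q) * y + x) +
      (starRingEnd ℂ) c * U ((k : ZMod q) * y - x)) -
      (2 * V ((k : ZMod q) * y) + c * V ((k : ZMod q) * y + x) +
      (starRingEnd ℂ) c * V ((k : ZMod q) * y - x))‖ ≤ 4 * δ := by
    have e3 : (2 * U ((k : ZMod q) * y) + c * U ((k : ZMod q) * y + x) +
      (starRingEnd ℂ) c * U ((k : ZMod q) * y - x)) -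
      (2 * V ((k : ZMod q) * y) + c * V ((k : ZMod q) * y + x) +
      (starRingEnd ℂ) c * V ((k : ZMod q) * y - x)) =
      2 * (U ((k : ZMod q) * y) - V ((k : ZMod q) * y)) +
      c * (U ((k : ZMod q) * y + x) - V ((k : ZMod q) * y + x)) +
      (starRingEnd ℂ) c * (U ((k : ZMod q) * y - x) - V ((k : ZMod q) * y - x)) := by ring
    rw [e3]
    refine (norm_add₃_le).trans ?_
    rw [norm_mul, norm_mul, norm_mul, hc, hcc]
    have g1 := hUV ((k : ZMod q) * y)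
    have g2 := hUV ((k : ZMod q) * y + x)
    have g3 := hUV ((k : ZMod q) * y - x)
    have g4 : ‖(2 : ℂ)‖ = 2 := by simp
    rw [g4]
    linarith
  calc _ ≤ ((R : ℝ) + 1 - |(k : ℝ)|) * (4 * δ) := mul_le_mul_of_nonneg_left e2 hk0
    _ = _ := by ring

private theorem ci_unit (E : ℂ) : ∃ c : ℂ, ‖c‖ = 1 ∧ (c * E).re = -‖E‖ := by
  by_cases hE : E = 0
  · exact ⟨1, by simp, by simp [hE]⟩
  · have hE' : (‖E‖ : ℂ) ≠ 0 := by
      have := norm_ne_zero_iff.2 hE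
      exact_mod_cast this
    refine ⟨-((starRingEnd ℂ) E / (‖E‖ : ℂ)), ?_, ?_⟩
    · rw [norm_neg, norm_div, Complex.norm_conj, Complex.norm_real, norm_norm]
      exact div_self (norm_ne_zero_iff.2 hE)
    · have : -((starRingEnd ℂ) E / (‖E‖ : ℂ)) * E = ((-‖E‖ : ℝ) : ℂ) := by
        have h1 : (starRingEnd ℂ) E * E = (‖E‖ : ℂ) ^ 2 := by
          rw [mul_comm, Complex.mul_conj, Complex.normSq_eq_norm_sq]; push_cast; ring
        field_simp
        rw [h1]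
        push_cast
        ring
      rw [this, Complex.ofReal_re]

theorem c_ineq {Ω : Type} [Fintype Ω] {q : ℕ} [NeZero q] {Rg : IRing Ω} (G : BFam Ω q Rg)
    (ε1 : ℝ) (h1 : 0 < ε1) (h1' : ε1 ≤ 1) (R : ℕ) (hR : 16 ≤ ε1 * ((R : ℝ) + 1))
    (hκ : G.κ * (2 * (R : ℝ) + 3) ≤ ε1 / 2) (x y : ZMod q)
    (hy : ∀ k : ℤ, 2 ≤ |k| → |k| ≤ R → (k : ZMod q) * y ∉ G.J)
    (hx : ∀ k : ℤ, |k| ≤ R → k ≠ 0 → k ≠ -1 → x + (k : ZMod q) * y ∉ G.J) (φ : Ω) (z : ℂ)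
    (hz : ‖z‖ = 1) :
    ‖G.D φ x + (starRingEnd ℂ) z * G.D φ (x - y)‖ ≤
      (1 + ε1) * G.m φ + 2 * (z * G.D φ y).re := by
  set M := G.m φ with hM
  have hM0 : 0 < M := G.m_pos φ
  have hκ0 : 0 ≤ G.κ := G.hκ
  have hR0 : (0 : ℝ) ≤ (R : ℝ) := Nat.cast_nonneg _
  have hR15 : (15 : ℝ) ≤ (R : ℝ) := by nlinarith
  have hR1 : 1 ≤ R := by
    have : (1 : ℝ) ≤ (R : ℝ) := by linarith
    exact_mod_cast this
  have hκ1 : G.κ ≤ 1 := by nlinarith
  set E := G.D φ x + (starRingEnd ℂ) z * G.D φ (x - y) with hE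
  obtain ⟨c, hc, hcE⟩ := ci_unit E
  have hpos := ci_pos (G.ψ φ) (G.w φ) (G.w_nonneg φ) R x y z c hz hc
  have herr := ci_err R x y z c hz hc (FT (G.ψ φ) (G.w φ)) (G.D φ) (G.κ * M)
    (fun u => G.near φ u)
  have hre : (ciQ R x y z c (FT (G.ψ φ) (G.w φ))).re ≤ (ciQ R x y z c (G.D φ)).re +
      4 * (G.κ * M) * ((R : ℝ) + 1) ^ 2 := by
    have := (Complex.re_le_norm (ciQ R x y z c (FT (G.ψ φ) (G.w φ)) -
      ciQ R x y z c (G.D φ))).trans herr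
    rw [Complex.sub_re] at this
    linarith
  -- evaluation of the form at `D`
  have hzinv : z⁻¹ = (starRingEnd ℂ) z := by
    rw [Complex.inv_def, Complex.normSq_eq_norm_sq, hz]; simp
  have hm1 : (-1 : ℤ) ∈ Icc (-(R : ℤ)) R := mem_Icc.2 ⟨by omega, by omega⟩
  have h01 : (0 : ℤ) ∈ (Icc (-(R : ℤ)) R).erase (-1) :=
    mem_erase.2 ⟨by omega, mem_Icc.2 ⟨by omega, by omega⟩⟩
  have h11 : (1 : ℤ) ∈ ((Icc (-(R : ℤ)) R).erase (-1)).erase 0 :=
    mem_erase.2 ⟨by omega, mem_erase.2 ⟨by omega, mem_Icc.2 ⟨by omega, by omega⟩⟩⟩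
  have hDy : ∀ k : ℤ, k ∈ Icc (-(R : ℤ)) R → k ≠ -1 → k ≠ 0 → k ≠ 1 →
      G.D φ ((k : ZMod q) * y) = 0 := by
    intro k hk a1 a2 a3
    have h2 : |k| ≤ (R : ℤ) := abs_le.2 (mem_Icc.1 hk)
    refine G.hD0 _ (hy k ?_ h2) φ
    rcases abs_cases k with ⟨h, _⟩ | ⟨h, _⟩ <;> omega
  have hDp : ∀ k : ℤ, k ∈ Icc (-(R : ℤ)) R → k ≠ -1 → k ≠ 0 →
      G.D φ ((k : ZMod q) * y + x) = 0 := by
    intro k hk a1 a2
    have h2 : |k| ≤ (R : ℤ) := abs_le.2 (mem_Icc.1 hk)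
    have := G.hD0 _ (hx k h2 a2 a1) φ
    rwa [add_comm] at this
  have hDm : ∀ k : ℤ, k ∈ Icc (-(R : ℤ)) R → k ≠ 0 → k ≠ 1 →
      G.D φ ((k : ZMod q) * y - x) = 0 := by
    intro k hk a1 a2
    have h2 : |k| ≤ (R : ℤ) := abs_le.2 (mem_Icc.1 hk)
    have h3 := G.hD0 _ (hx (-k) (by rwa [abs_neg]) (by omega) (by omega)) φ
    have h4 : (k : ZMod q) * y - x = -(x + ((-k : ℤ) : ZMod q) * y) := by push_cast; ring
    rw [h4, G.hconj, h3, map_zero]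
  have hval : ciQ R x y z c (G.D φ) =
      ((R : ℂ)) * z⁻¹ * (2 * G.D φ (-y) + c * G.D φ (x - y)) +
      (((R : ℂ) + 1) * (2 * G.D φ 0 + c * G.D φ x + (starRingEnd ℂ) c * G.D φ (-x)) +
      (R : ℂ) * z * (2 * G.D φ y + (starRingEnd ℂ) c * G.D φ (y - x))) := by
    unfold ciQ
    rw [← add_sum_erase _ _ hm1, ← add_sum_erase _ _ h01, ← add_sum_erase _ _ h11]
    have hrest : ∑ k ∈ (((Icc (-(R : ℤ)) R).erase (-1)).erase 0).erase 1,
        (((R + 1 - |k| : ℤ) : ℝ) : ℂ) * z ^ k *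
        (2 * G.D φ ((k : ZMod q) * y) + c * G.D φ ((k : ZMod q) * y + x) +
        (starRingEnd ℂ) c * G.D φ ((k : ZMod q) * y - x)) = 0 := by
      refine sum_eq_zero fun k hk => ?_
      obtain ⟨a1, hk⟩ := mem_erase.1 hk
      obtain ⟨a2, hk⟩ := mem_erase.1 hk
      obtain ⟨a3, hk⟩ := mem_erase.1 hk
      rw [hDy k hk a3 a2 a1, hDp k hk a3 a2, hDm k hk a2 a1]
      ring
    rw [hrest]
    have b1 : G.D φ (((-1 : ℤ) : ZMod q) * y - x) = 0 := by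
      exact hDm (-1) hm1 (by omega) (by omega)
    have b2 : G.D φ (((1 : ℤ) : ZMod q) * y + x) = 0 :=
      hDp 1 (mem_Icc.2 ⟨by omega, by omega⟩) (by omega) (by omega)
    rw [b1, b2]
    have c1 : ((-1 : ℤ) : ZMod q) * y = -y := by push_cast; ring
    have c2 : ((0 : ℤ) : ZMod q) * y = 0 := by push_cast; ring
    have c3 : ((1 : ℤ) : ZMod q) * y = y := by push_cast; ring
    rw [c1, c2, c3]
    have d1 : -y + x = x - y := by ring
    have d2 : (0 : ZMod q) + x = x := zero_add x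
    have d3 : (0 : ZMod q) - x = -x := zero_sub x
    rw [d1, d2, d3]
    have f1 : (((R + 1 - |(-1 : ℤ)| : ℤ) : ℝ) : ℂ) = (R : ℂ) := by
      rw [abs_neg, abs_one]; push_cast; ring
    have f2 : (((R + 1 - |(0 : ℤ)| : ℤ) : ℝ) : ℂ) = (R : ℂ) + 1 := by
      rw [abs_zero]; push_cast; ring
    have f3 : (((R + 1 - |(1 : ℤ)| : ℤ) : ℝ) : ℂ) = (R : ℂ) := by
      rw [abs_one]; push_cast; ring
    rw [f1, f2, f3, zpow_neg_one, zpow_zero, zpow_one]
    ring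
  have hDyx : G.D φ (y - x) = (starRingEnd ℂ) (G.D φ (x - y)) := by
    rw [← G.hconj, neg_sub]
  have hvre : (ciQ R x y z c (G.D φ)).re = 2 * ((R : ℝ) + 1) * (G.D φ 0).re +
      4 * (R : ℝ) * (z * G.D φ y).re + 2 * ((R : ℝ) + 1) * (c * G.D φ x).re +
      2 * (R : ℝ) * (c * ((starRingEnd ℂ) z * G.D φ (x - y))).re := by
    rw [hval, hzinv, G.hconj φ y, G.hconj φ x, hDyx]
    simp only [Complex.add_re, Complex.mul_re, Complex.mul_im, Complex.add_im, Complex.conj_re,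
      Complex.conj_im, Complex.natCast_re, Complex.natCast_im, Complex.one_re, Complex.one_im,
      Complex.re_ofNat, Complex.im_ofNat]
    ring
  have hEre : (c * G.D φ x).re + (c * ((starRingEnd ℂ) z * G.D φ (x - y))).re = -‖E‖ := by
    rw [← hcE, hE, mul_add, Complex.add_re]
  have hD0 : (G.D φ 0).re ≤ (1 + G.κ) * M := by
    have := abs_le.1 (G.abs_m_sub_le φ)
    linarith [this.1]
  have hzy : -((1 + G.κ) * M) ≤ (z * G.D φ y).re := by
    have e1 := Complex.abs_re_le_norm (z * G.D φ y)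
    rw [norm_mul, hz, one_mul] at e1
    have e2 := G.norm_D_le φ y
    have := neg_le_of_abs_le (e1.trans e2)
    exact this
  have hxy : -((1 + G.κ) * M) ≤ (c * ((starRingEnd ℂ) z * G.D φ (x - y))).re := by
    have e1 := Complex.abs_re_le_norm (c * ((starRingEnd ℂ) z * G.D φ (x - y)))
    rw [norm_mul, norm_mul, hc, Complex.norm_conj, hz, one_mul, one_mul] at e1
    have e2 := G.norm_D_le φ (x - y)
    exact neg_le_of_abs_le (e1.trans e2)
  have hfin : 2 * ((R : ℝ) + 1) * ‖E‖ ≤ 2 * ((R : ℝ) + 1) * ((1 + ε1) * M +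
      2 * (z * G.D φ y).re) := by
    have g0 := hpos.trans hre
    rw [hvre] at g0
    have g1 : 2 * ((R : ℝ) + 1) * ‖E‖ ≤ 2 * ((R : ℝ) + 1) * ((1 + G.κ) * M) +
        4 * ((R : ℝ) + 1) * (z * G.D φ y).re + 6 * ((1 + G.κ) * M) +
        4 * (G.κ * M) * ((R : ℝ) + 1) ^ 2 := by
      have g2 : 2 * ((R : ℝ) + 1) * (G.D φ 0).re ≤ 2 * ((R : ℝ) + 1) * ((1 + G.κ) * M) :=
        mul_le_mul_of_nonneg_left hD0 (by linarith)
      have g3 : 2 * ((R : ℝ) + 1) * ‖E‖ = -(2 * ((R : ℝ) + 1) * ((c * G.D φ x).re +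
          (c * ((starRingEnd ℂ) z * G.D φ (x - y))).re)) := by rw [hEre]; ring
      rw [g3]
      linarith
    have g4 : ((R : ℝ) + 1) * (G.κ * (2 * (R : ℝ) + 3)) + 3 * (1 + G.κ) ≤
        ε1 * ((R : ℝ) + 1) := by
      have g5 : ((R : ℝ) + 1) * (G.κ * (2 * (R : ℝ) + 3)) ≤ ((R : ℝ) + 1) * (ε1 / 2) :=
        mul_le_mul_of_nonneg_left hκ (by linarith)
      linarith
    have g6 := mul_le_mul_of_nonneg_left g4 hM0.le
    nlinarith
  have hpos2 : (0 : ℝ) < 2 * ((R : ℝ) + 1) := by linarith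
  exact le_of_mul_le_mul_left hfin hpos2

end Pool.Agent.CYC
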