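import Mathlib
import Pool.Agent.Lib.MP_8ca0c8_nt_CYC2.Defs

/-! Project CYC2 (MP_8ca0c8_nt), module GEO: geometry of the commensurable case. -/

namespace Pool.Agent.CYC

open Finset

theorem geo_uniq {q : ℕ} [NeZero q] (j : ZMod q) (B : ℕ) (hB : B < addOrderOf j) (t : ℤ)
    (ht : |t| ≤ (B : ℤ)) (h : (t : ZMod q) * j = 0) : t = 0 := by
  by_contra hne
  have h1 : (t : ℤ) • j = 0 := by rw [zsmul_eq_mul]; exact h
  have h2 : ((addOrderOf j : ℕ) : ℤ) ∣ t := addOrderOf_dvd_iff_zsmul_eq_zero.mpr h1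
  have h3 : ((addOrderOf j : ℕ) : ℤ) ∣ |t| := (dvd_abs _ _).mpr h2
  have h4 : ((addOrderOf j : ℕ) : ℤ) ≤ |t| := Int.le_of_dvd (abs_pos.mpr hne) h3
  have h5 : (B : ℤ) < ((addOrderOf j : ℕ) : ℤ) := by exact_mod_cast hB
  omega

theorem geo {q : ℕ} [NeZero q] (J : Finset (ZMod q)) (h0 : (0 : ZMod q) ∈ J)
    (hneg : ∀ x ∈ J, -x ∈ J) (j : ZMod q) (hj : j ∈ J) (hj0 : j ≠ 0) (P1 R : ℕ) (hP1 : 1 ≤ P1)
    (hcomm : ∀ x ∈ J, ∃ (P : ℕ) (s : ℤ), 1 ≤ P ∧ P ≤ P1 ∧ |s| ≤ P1 ∧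
      (P : ZMod q) * x = (s : ZMod q) * j)
    (hdiff : ∀ x ∈ J, ∀ y ∈ J, x ≠ y →
      2 * (P1.factorial * (P1 + 1) * (R + 2)) < addOrderOf (x - y)) :
    ∃ y ∈ J, y ≠ 0 ∧ (∀ k : ℤ, 2 ≤ |k| → |k| ≤ R → (k : ZMod q) * y ∉ J) ∧
      (J ⊆ {0, y, -y} ∨ ∃ x ∈ J, ∀ k : ℤ, |k| ≤ R → k ≠ 0 → k ≠ -1 →
        x + (k : ZMod q) * y ∉ J) := by
  classical
  set N0 : ℕ := P1.factorial with hN0
  have hN0pos : 0 < N0 := Nat.factorial_pos P1
  -- the integer coordinate
  have hex : ∀ x ∈ J, ∃ S : ℤ, |S| ≤ (P1 : ℤ) * N0 ∧ (N0 : ZMod q) * x = (S : ZMod q) * j := by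
    intro x hx
    obtain ⟨P, s, hP, hPP, hs, he⟩ := hcomm x hx
    have hd : P ∣ N0 := Nat.dvd_factorial hP hPP
    obtain ⟨c, hc⟩ := hd
    have hcle : c ≤ N0 := by rw [hc]; exact Nat.le_mul_of_pos_left c hP
    refine ⟨s * (c : ℤ), ?_, ?_⟩
    · rw [abs_mul, Nat.abs_cast]
      have h1 : (0 : ℤ) ≤ |s| := abs_nonneg s
      have h2 : (c : ℤ) ≤ (N0 : ℤ) := by exact_mod_cast hcle
      have h3 : (0 : ℤ) ≤ (c : ℤ) := Int.natCast_nonneg c
      have h4 : (0 : ℤ) ≤ (P1 : ℤ) := Int.natCast_nonneg P1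
      exact mul_le_mul hs h2 h3 h4
    · rw [hc]
      push_cast
      calc (P : ZMod q) * (c : ZMod q) * x = (c : ZMod q) * ((P : ZMod q) * x) := by ring
        _ = (c : ZMod q) * ((s : ZMod q) * j) := by rw [he]
        _ = (s : ZMod q) * (c : ZMod q) * j := by ring
  choose! S hSb hSe using hex
  -- order of j
  have hord : 2 * (N0 * (P1 + 1) * (R + 2)) < addOrderOf j := by
    have := hdiff j hj 0 h0 hj0
    rwa [sub_zero] at this
  -- uniqueness
  have huniq : ∀ x ∈ J, ∀ t : ℤ, |t| ≤ ((R : ℤ) + 1) * (P1 * N0) →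
      (N0 : ZMod q) * x = (t : ZMod q) * j → t = S x := by
    intro x hx t ht he
    have h1 : (((t - S x : ℤ)) : ZMod q) * j = 0 := by
      push_cast
      rw [sub_mul, ← he, ← hSe x hx, sub_self]
    have h2 := hSb x hx
    have h3 : |t - S x| ≤ ((2 * (N0 * (P1 + 1) * (R + 2)) : ℕ) : ℤ) := by
      have h4 : |t - S x| ≤ |t| + |S x| := abs_sub _ _
      have h5 : |t - S x| ≤ ((R : ℤ) + 2) * (P1 * N0) := by nlinarith
      refine h5.trans ?_
      push_cast
      have hR : (0 : ℤ) ≤ (R : ℤ) := Int.natCast_nonneg R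
      have hP : (0 : ℤ) ≤ (P1 : ℤ) := Int.natCast_nonneg P1
      have hN : (0 : ℤ) ≤ (N0 : ℤ) := Int.natCast_nonneg N0
      have h6 : (0 : ℤ) ≤ ((R : ℤ) + 2) * N0 := by positivity
      have h7 : (0 : ℤ) ≤ ((R : ℤ) + 2) * N0 * P1 := by positivity
      nlinarith
    have h6 := geo_uniq j _ hord (t - S x) h3 h1
    omega
  -- injectivity
  have hinj : ∀ x ∈ J, ∀ y ∈ J, S x = S y → x = y := by
    intro x hx y hy hxy
    by_contra hne
    have h1 := hdiff x hx y hy hne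
    have h2 : N0 • (x - y) = 0 := by
      rw [nsmul_eq_mul, mul_sub, hSe x hx, hSe y hy, hxy, sub_self]
    have h3 : addOrderOf (x - y) ∣ N0 := addOrderOf_dvd_of_nsmul_eq_zero h2
    have h4 := Nat.le_of_dvd hN0pos h3
    have h5 : N0 ≤ N0 * (P1 + 1) * (R + 2) := by
      have : 1 ≤ (P1 + 1) * (R + 2) := Nat.one_le_iff_ne_zero.mpr (by positivity)
      calc N0 = N0 * 1 := (mul_one _).symm
        _ ≤ N0 * ((P1 + 1) * (R + 2)) := Nat.mul_le_mul_left _ this
        _ = N0 * (P1 + 1) * (R + 2) := by ring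
    omega
  have hbnd0 : (0 : ℤ) ≤ ((R : ℤ) + 1) * (P1 * N0) := by positivity
  have hPN : (P1 : ℤ) * N0 ≤ ((R : ℤ) + 1) * (P1 * N0) := by
    have h1 : (0 : ℤ) ≤ (R : ℤ) * (P1 * N0) := by positivity
    nlinarith
  have hS0 : S 0 = 0 := by
    refine (huniq 0 h0 0 ?_ ?_).symm
    · simpa using hbnd0
    · simp
  have hSneg : ∀ x ∈ J, S (-x) = -S x := by
    intro x hx
    refine (huniq (-x) (hneg x hx) (-S x) ?_ ?_).symm
    · rw [abs_neg]
      exact (hSb x hx).trans hPN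
    · push_cast
      rw [mul_neg, hSe x hx, neg_mul]
  have hSj : S j = N0 := by
    refine (huniq j hj N0 ?_ ?_).symm
    · rw [Nat.abs_cast]
      have h1 : (N0 : ℤ) ≤ (P1 : ℤ) * N0 := by
        have : (1 : ℤ) ≤ (P1 : ℤ) := by exact_mod_cast hP1
        have hN : (0 : ℤ) ≤ (N0 : ℤ) := Int.natCast_nonneg N0
        nlinarith
      exact h1.trans hPN
    · push_cast
      rfl
  obtain ⟨y, hy, hmax⟩ := Finset.exists_max_image J S ⟨j, hj⟩
  set M : ℤ := S y with hM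
  have hMj : (N0 : ℤ) ≤ M := by
    have := hmax j hj
    rwa [hSj] at this
  have hMpos : 0 < M := lt_of_lt_of_le (by exact_mod_cast hN0pos) hMj
  have hlow : ∀ u ∈ J, -M ≤ S u := by
    intro u hu
    have h1 := hmax (-u) (hneg u hu)
    rw [hSneg u hu] at h1
    linarith
  have hMb : M ≤ (P1 : ℤ) * N0 := by
    have := hSb y hy
    exact (le_abs_self _).trans this
  have hy0 : y ≠ 0 := by
    intro h
    rw [hM, h, hS0] at hMpos
    exact lt_irrefl _ hMpos
  refine ⟨y, hy, hy0, ?_, ?_⟩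
  · intro k hk2 hkR hmem
    have h1 : (N0 : ZMod q) * ((k : ZMod q) * y) = ((k * M : ℤ) : ZMod q) * j := by
      push_cast
      calc (N0 : ZMod q) * ((k : ZMod q) * y) = (k : ZMod q) * ((N0 : ZMod q) * y) := by ring
        _ = (k : ZMod q) * ((S y : ZMod q) * j) := by rw [hSe y hy]
        _ = (k : ZMod q) * (M : ZMod q) * j := by rw [hM]; ring
    have h2 : |k * M| ≤ ((R : ℤ) + 1) * (P1 * N0) := by
      rw [abs_mul, abs_of_pos hMpos]
      have h3 : |k| * M ≤ (R : ℤ) * (P1 * N0) :=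
        mul_le_mul hkR hMb hMpos.le (Int.natCast_nonneg R)
      have h4 : (0 : ℤ) ≤ (P1 : ℤ) * N0 := by positivity
      nlinarith
    have h5 := huniq _ hmem _ h2 h1
    have h6 := hmax _ hmem
    have h7 := hlow _ hmem
    rw [← h5] at h6 h7
    have h8 : |k * M| ≤ M := abs_le.mpr ⟨h7, h6⟩
    rw [abs_mul, abs_of_pos hMpos] at h8
    nlinarith
  · by_cases hsub : J ⊆ {0, y, -y}
    · exact Or.inl hsub
    right
    obtain ⟨x, hx, hxn⟩ := Finset.not_subset.mp hsub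
    simp only [Finset.mem_insert, Finset.mem_singleton, not_or] at hxn
    obtain ⟨hx0, hxy, hxny⟩ := hxn
    -- the main claim for an element with positive coordinate
    have key : ∀ x ∈ J, 0 < S x → S x < M → ∀ k : ℤ, |k| ≤ R → k ≠ 0 → k ≠ -1 →
        x + (k : ZMod q) * y ∉ J := by
      intro x hx hpos hlt k hkR hk0 hk1 hmem
      have h1 : (N0 : ZMod q) * (x + (k : ZMod q) * y) = ((S x + k * M : ℤ) : ZMod q) * j := by
        push_cast
        calc (N0 : ZMod q) * (x + (k : ZMod q) * y)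
            = (N0 : ZMod q) * x + (k : ZMod q) * ((N0 : ZMod q) * y) := by ring
          _ = (S x : ZMod q) * j + (k : ZMod q) * ((S y : ZMod q) * j) := by
              rw [hSe y hy, hSe x hx]
          _ = ((S x : ZMod q) + (k : ZMod q) * (M : ZMod q)) * j := by rw [hM]; ring
      have h2 : |S x + k * M| ≤ ((R : ℤ) + 1) * (P1 * N0) := by
        have h3 : |S x + k * M| ≤ |S x| + |k * M| := abs_add_le _ _
        have h4 : |k * M| ≤ (R : ℤ) * (P1 * N0) := by
          rw [abs_mul, abs_of_pos hMpos]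
          exact mul_le_mul hkR hMb hMpos.le (Int.natCast_nonneg R)
        have h5 := hSb x hx
        nlinarith
      have h5 := huniq _ hmem _ h2 h1
      have h6 := hmax _ hmem
      have h7 := hlow _ hmem
      rw [← h5] at h6 h7
      rcases lt_or_gt_of_ne hk0 with hneg' | hpos'
      · have hk2 : k ≤ -2 := by omega
        nlinarith
      · have hk2 : 1 ≤ k := by omega
        nlinarith
    have hSx0 : S x ≠ 0 := by
      intro h
      exact hx0 (hinj x hx 0 h0 (by rw [h, hS0]))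
    have hSxM : S x ≠ M := by
      intro h
      exact hxy (hinj x hx y hy h)
    have hSxnM : S x ≠ -M := by
      intro h
      exact hxny (hinj x hx (-y) (hneg y hy) (by rw [h, hSneg y hy]))
    have hup := hmax x hx
    have hlo := hlow x hx
    rcases lt_or_gt_of_ne hSx0 with hneg' | hpos'
    · refine ⟨-x, hneg x hx, key (-x) (hneg x hx) ?_ ?_⟩
      · rw [hSneg x hx]; omega
      · rw [hSneg x hx]; omega
    · exact ⟨x, hx, key x hx hpos' (by omega)⟩

end Pool.Agent.CYC
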