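import Mathlib
import Pool.Agent.Lib.MP_8ca0c8_nt_CYC2.Defs

/-! Project CYC2 (MP_8ca0c8_nt), module NCCHAIN: chains with a direction. -/

namespace Pool.Agent.CYC

open Finset

private theorem ncc_aux {q : ℕ} [NeZero q] (x j : ZMod q) (st : ℕ → ℕ × ℤ)
    (R S X : ℕ) (hR : 1 ≤ R) (hmono : StrictMono fun i => (st i).1)
    (hP : ∀ i, (st i).1 ≤ R ^ i) (ht : ∀ i, |(st i).2| ≤ S * (R + 1) ^ i)
    (h : ∀ (P : ℕ) (s : ℤ), 1 ≤ P → P ≤ 2 * (S + 1) * (R + 1) ^ (X + 1) →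
      |s| ≤ 2 * (S + 1) * (R + 1) ^ (X + 1) → (P : ZMod q) * x ≠ (s : ZMod q) * j)
    (i i' : ℕ) (hii : i < i') (hi' : i' ≤ X)
    (he : ((st i).1 : ZMod q) * x + ((st i).2 : ZMod q) * j =
      ((st i').1 : ZMod q) * x + ((st i').2 : ZMod q) * j) : False := by
  have h1 : (st i).1 < (st i').1 := hmono hii
  have h2 : R ^ X ≤ (R + 1) ^ X := Nat.pow_le_pow_left (by omega) X
  have h3 : (st i').1 ≤ R ^ X := (hP i').trans (Nat.pow_le_pow_right hR hi')
  have h4 : (R + 1) ^ X ≤ (R + 1) ^ (X + 1) := Nat.pow_le_pow_right (by omega) (by omega)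
  have h5 : (R + 1) ^ (X + 1) ≤ 2 * (S + 1) * (R + 1) ^ (X + 1) :=
    Nat.le_mul_of_pos_left _ (by omega)
  refine h ((st i').1 - (st i).1) ((st i).2 - (st i').2) (by omega) (by omega) ?_ ?_
  · have e1 : ((R : ℤ) + 1) ^ i ≤ ((R : ℤ) + 1) ^ (X + 1) :=
      pow_le_pow_right₀ (by omega) (by omega)
    have e2 : ((R : ℤ) + 1) ^ i' ≤ ((R : ℤ) + 1) ^ (X + 1) :=
      pow_le_pow_right₀ (by omega) (by omega)
    have e0 : (0 : ℤ) ≤ ((R : ℤ) + 1) ^ (X + 1) := by positivity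
    have e3 := ht i
    have e4 := ht i'
    have e5 : (S : ℤ) * ((R : ℤ) + 1) ^ i ≤ S * ((R : ℤ) + 1) ^ (X + 1) :=
      mul_le_mul_of_nonneg_left e1 (by positivity)
    have e6 : (S : ℤ) * ((R : ℤ) + 1) ^ i' ≤ S * ((R : ℤ) + 1) ^ (X + 1) :=
      mul_le_mul_of_nonneg_left e2 (by positivity)
    have e7 : |(st i).2 - (st i').2| ≤ |(st i).2| + |(st i').2| := abs_sub _ _
    nlinarith
  · rw [Nat.cast_sub h1.le]
    push_cast
    linear_combination -he

theorem nc_chain {q : ℕ} [NeZero q] (J : Finset (ZMod q)) (X R S : ℕ) (hX : J.card ≤ X)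
    (j x : ZMod q) (hx : x ∈ J)
    (h : ∀ (P : ℕ) (s : ℤ), 1 ≤ P → P ≤ 2 * (S + 1) * (R + 1) ^ (X + 1) →
      |s| ≤ 2 * (S + 1) * (R + 1) ^ (X + 1) → (P : ZMod q) * x ≠ (s : ZMod q) * j) :
    ∃ x' ∈ J, ∀ (r : ℕ) (s : ℤ), 2 ≤ r → r ≤ R → |s| ≤ S →
      (r : ZMod q) * x' + (s : ZMod q) * j ∉ J := by
  classical
  by_contra hcon
  have hcon' : ∀ x' ∈ J, ∃ (r : ℕ) (s : ℤ), 2 ≤ r ∧ r ≤ R ∧ |s| ≤ S ∧
      (r : ZMod q) * x' + (s : ZMod q) * j ∈ J := by
    intro x' hx'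
    by_contra hne
    apply hcon
    refine ⟨x', hx', fun r s h2 hR hs hmem => hne ⟨r, s, h2, hR, hs, hmem⟩⟩
  choose! r s hr2 hrR hsS hrJ using hcon'
  have hR : 1 ≤ R := le_trans (by norm_num) ((hr2 x hx).trans (hrR x hx))
  let y : ℕ × ℤ → ZMod q := fun p => (p.1 : ZMod q) * x + (p.2 : ZMod q) * j
  let st : ℕ → ℕ × ℤ := fun i =>
    Nat.rec (motive := fun _ => ℕ × ℤ) (1, 0)
      (fun _ p => (r (y p) * p.1, (r (y p) : ℤ) * p.2 + s (y p))) i
  have hs0 : st 0 = (1, 0) := rfl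
  have hs1 : ∀ i : ℕ, (st (i + 1)).1 = r (y (st i)) * (st i).1 := fun i => rfl
  have hs2 : ∀ i : ℕ, (st (i + 1)).2 = (r (y (st i)) : ℤ) * (st i).2 + s (y (st i)) :=
    fun i => rfl
  have hyJ : ∀ i : ℕ, y (st i) ∈ J := by
    intro i
    induction i with
    | zero =>
      rw [hs0]
      show ((1 : ℕ) : ZMod q) * x + ((0 : ℤ) : ZMod q) * j ∈ J
      rw [Nat.cast_one, one_mul, Int.cast_zero, zero_mul, add_zero]
      exact hx
    | succ i ih =>
      have h1 := hrJ _ ih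
      have h2 : y (st (i + 1)) = (r (y (st i)) : ZMod q) * y (st i) +
          (s (y (st i)) : ZMod q) * j := by
        show ((st (i + 1)).1 : ZMod q) * x + ((st (i + 1)).2 : ZMod q) * j = _
        rw [hs1, hs2]
        show _ = (r (y (st i)) : ZMod q) * (((st i).1 : ZMod q) * x + ((st i).2 : ZMod q) * j) + _
        push_cast
        ring
      rw [h2]
      exact h1
  have hPpos : ∀ i, 1 ≤ (st i).1 := by
    intro i
    induction i with
    | zero => exact le_rfl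
    | succ i ih =>
      rw [hs1]
      exact Nat.mul_pos (by have := hr2 _ (hyJ i); omega) ih
  have hmono : StrictMono fun i => (st i).1 := by
    refine strictMono_nat_of_lt_succ fun i => ?_
    show (st i).1 < (st (i + 1)).1
    rw [hs1]
    have h1 := hr2 _ (hyJ i)
    have h2 := hPpos i
    nlinarith
  have hle : ∀ i, (st i).1 ≤ R ^ i := by
    intro i
    induction i with
    | zero => exact le_rfl
    | succ i ih =>
      rw [hs1, pow_succ, mul_comm]
      exact Nat.mul_le_mul ih (hrR _ (hyJ i))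
  have ht : ∀ i, |(st i).2| ≤ S * ((R : ℤ) + 1) ^ i := by
    intro i
    induction i with
    | zero =>
      rw [hs0]
      simp
    | succ i ih =>
      rw [hs2]
      have h1 : (r (y (st i)) : ℤ) ≤ R := by exact_mod_cast hrR _ (hyJ i)
      have h2 := hsS _ (hyJ i)
      have h3 : |(r (y (st i)) : ℤ) * (st i).2| ≤ R * (S * ((R : ℤ) + 1) ^ i) := by
        rw [abs_mul, Nat.abs_cast]
        exact mul_le_mul h1 ih (abs_nonneg _) (by positivity)
      have h4 := abs_add_le ((r (y (st i)) : ℤ) * (st i).2) (s (y (st i)))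
      have h5 : (1 : ℤ) ≤ ((R : ℤ) + 1) ^ i := one_le_pow₀ (by omega)
      have h6 : (S : ℤ) ≤ S * ((R : ℤ) + 1) ^ i := le_mul_of_one_le_right (by positivity) h5
      rw [pow_succ]
      nlinarith
  have hcard : J.card < (range (X + 1)).card := by
    rw [card_range]
    omega
  obtain ⟨i, hi, i', hi', hne, he⟩ := Finset.exists_ne_map_eq_of_card_lt_of_maps_to hcard
    (f := fun i => y (st i)) (fun i _ => hyJ i)
  rw [mem_range] at hi hi'
  rcases lt_or_gt_of_ne hne with h1 | h1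
  · exact ncc_aux x j st R S X hR hmono hle ht h i i' h1 (by omega) he
  · exact ncc_aux x j st R S X hR hmono hle ht h i' i h1 (by omega) he.symm

end Pool.Agent.CYC
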