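import Mathlib
import Pool.Agent.Lib.MP_8ca0c8_nt_CYC2.Defs

/-! Project CYC2 (MP_8ca0c8_nt), module JENSEN: discrete Jensen formula. -/

namespace Pool.Agent.CYC

open Finset

/-- the value of a primitive character at `-j` is a primitive root of unity -/
lemma jensen_prim {q : ℕ} [NeZero q] {ψ : AddChar (ZMod q) ℂ} (hψ : ψ.IsPrimitive) (j : ZMod q) :
    IsPrimitiveRoot (ψ (-j)) (addOrderOf j) := by
  have h1 : ∀ l : ℕ, ψ (-j) ^ l = ψ (-(l • j)) := by
    intro l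
    rw [← smul_neg, AddChar.map_nsmul_eq_pow]
  constructor
  · rw [h1, addOrderOf_nsmul_eq_zero, neg_zero, AddChar.map_zero_eq_one]
  · intro l hl
    rw [h1] at hl
    apply addOrderOf_dvd_of_nsmul_eq_zero
    by_contra hne
    have h2 : -(l • j) ≠ 0 := neg_ne_zero.2 hne
    apply hψ h2
    ext a
    rw [AddChar.mulShift_apply, AddChar.one_apply]
    have h3 : -(l • j) * a = a.val • (-(l • j)) := by
      rw [nsmul_eq_mul (a.val), ZMod.natCast_val, ZMod.cast_id, mul_comm]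
    rw [h3, AddChar.map_nsmul_eq_pow, hl, one_pow]

/-- the product over a full period -/
lemma jensen_prod {ζ : ℂ} {N : ℕ} (hN : 0 < N) (hζ : IsPrimitiveRoot ζ N) (w : ℂ) :
    ∏ k ∈ range N, (1 + w * ζ ^ k) = 1 - (-w) ^ N := by
  classical
  have h1 := hζ.pow_sub_pow_eq_prod_sub_mul 1 (-w) hN
  rw [one_pow] at h1
  rw [h1]
  have himg : (range N).image (fun k => ζ ^ k) = Polynomial.nthRootsFinset N (1 : ℂ) := by
    apply Finset.eq_of_subset_of_card_le
    · intro x hx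
      obtain ⟨k, -, rfl⟩ := Finset.mem_image.1 hx
      rw [Polynomial.mem_nthRootsFinset hN, ← pow_mul, mul_comm, pow_mul, hζ.pow_eq_one, one_pow]
    · rw [hζ.card_nthRootsFinset, Finset.card_image_of_injOn, card_range]
      intro a ha b hb hab
      exact hζ.pow_inj (mem_range.1 ha) (mem_range.1 hb) hab
  rw [← himg, Finset.prod_image]
  · apply Finset.prod_congr rfl
    intro k _
    ring
  · intro a ha b hb hab
    exact hζ.pow_inj (mem_range.1 ha) (mem_range.1 hb) hab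

/-- the inner sum -/
lemma jensen_inner {ζ : ℂ} {N : ℕ} (hN : 0 < N) (hζ : IsPrimitiveRoot ζ N) (w : ℂ)
    (hw : ‖w‖ < 1) : ∑ k ∈ range N, Real.log ‖1 + w * ζ ^ k‖ ≤ Real.log 2 := by
  have hz : ∀ k, ‖ζ ^ k‖ = 1 := by
    intro k
    rw [norm_pow, hζ.norm'_eq_one hN.ne', one_pow]
  have hpos : ∀ k, 0 < ‖1 + w * ζ ^ k‖ := by
    intro k
    have h1 : ‖w * ζ ^ k‖ < 1 := by rw [norm_mul, hz, mul_one]; exact hw
    have h2 : ‖(1 : ℂ)‖ ≤ ‖1 + w * ζ ^ k‖ + ‖w * ζ ^ k‖ := by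
      calc ‖(1 : ℂ)‖ = ‖(1 + w * ζ ^ k) - w * ζ ^ k‖ := by ring_nf
        _ ≤ _ := norm_sub_le _ _
    rw [norm_one] at h2
    linarith
  rw [← Real.log_prod (fun k _ => (hpos k).ne'), ← norm_prod, jensen_prod hN hζ]
  apply Real.log_le_log
  · rw [← jensen_prod hN hζ, norm_prod]
    exact Finset.prod_pos fun k _ => hpos k
  · calc ‖1 - (-w) ^ N‖ ≤ ‖(1 : ℂ)‖ + ‖(-w) ^ N‖ := norm_sub_le _ _
      _ ≤ 1 + 1 := by
          rw [norm_one, norm_pow, norm_neg]
          gcongr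
          exact pow_le_one₀ (norm_nonneg _) hw.le
      _ = 2 := by norm_num

theorem jensen {q : ℕ} [NeZero q] {ψ : AddChar (ZMod q) ℂ} (hψ : ψ.IsPrimitive) (j : ZMod q)
    (D : ℂ) (m' : ℝ) (h : 2 * ‖D‖ < m') :
    ∑ a : ZMod q, Real.log (m' + 2 * (D * ψ (-(j * a))).re) ≤
      q * Real.log ((m' + √(m' ^ 2 - 4 * ‖D‖ ^ 2)) / 2) +
        (q : ℝ) / addOrderOf j * Real.log 4 := by
  have hD0 := norm_nonneg D
  have hm0 : 0 < m' := by linarith
  set s := √(m' ^ 2 - 4 * ‖D‖ ^ 2) with hs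
  have hs0 : 0 ≤ s := Real.sqrt_nonneg _
  have hs2 : s ^ 2 = m' ^ 2 - 4 * ‖D‖ ^ 2 := by
    apply Real.sq_sqrt
    nlinarith
  set M := (m' + s) / 2 with hM
  have hM0 : 0 < M := by rw [hM]; linarith
  have hMe : m' * M = M ^ 2 + ‖D‖ ^ 2 := by
    rw [hM]
    linear_combination -(1 / 4) * hs2
  have hDM : ‖D‖ < M := by rw [hM]; linarith
  set w : ℂ := D / (M : ℂ) with hw
  have hwn : ‖w‖ = ‖D‖ / M := by
    rw [hw, norm_div, Complex.norm_real, Real.norm_of_nonneg hM0.le]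
  have hw1 : ‖w‖ < 1 := by
    rw [hwn, div_lt_one hM0]
    exact hDM
  have hψn : ∀ x : ZMod q, ‖ψ x‖ = 1 := fun x => AddChar.norm_apply ψ x
  have hpos : ∀ z : ℂ, ‖z‖ = 1 → 0 < ‖1 + w * z‖ := by
    intro z hz
    have h1 : ‖w * z‖ < 1 := by rw [norm_mul, hz, mul_one]; exact hw1
    have h2 : ‖(1 : ℂ)‖ ≤ ‖1 + w * z‖ + ‖w * z‖ := by
      calc ‖(1 : ℂ)‖ = ‖(1 + w * z) - w * z‖ := by ring_nf
        _ ≤ _ := norm_sub_le _ _
    rw [norm_one] at h2
    linarith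
  -- pointwise
  have hpt : ∀ z : ℂ, ‖z‖ = 1 →
      Real.log (m' + 2 * (D * z).re) = Real.log M + 2 * Real.log ‖1 + w * z‖ := by
    intro z hz
    have h1 : ‖1 + w * z‖ ^ 2 = 1 + 2 * (w * z).re + ‖w‖ ^ 2 := by
      have h2 : ‖w * z‖ ^ 2 = ‖w‖ ^ 2 := by rw [norm_mul, hz, mul_one]
      rw [← h2, ← Complex.normSq_eq_norm_sq, ← Complex.normSq_eq_norm_sq, Complex.normSq_add]
      simp
      ring
    have h3 : D = (M : ℂ) * w := by
      rw [hw, mul_div_cancel₀]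
      exact_mod_cast hM0.ne'
    have h4 : (D * z).re = M * (w * z).re := by
      rw [h3, mul_assoc, Complex.re_ofReal_mul]
    have h5 : m' + 2 * (D * z).re = M * ‖1 + w * z‖ ^ 2 := by
      rw [h1, h4, hwn]
      field_simp
      linear_combination hMe
    rw [h5, Real.log_mul hM0.ne' (pow_pos (hpos z hz) 2).ne', Real.log_pow]
    norm_num
  set L : ZMod q → ℝ := fun a => Real.log ‖1 + w * ψ (-(j * a))‖ with hL
  have hsum : ∑ a : ZMod q, Real.log (m' + 2 * (D * ψ (-(j * a))).re) =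
      q * Real.log M + 2 * ∑ a, L a := by
    rw [Finset.sum_congr rfl fun a _ => hpt _ (hψn _), Finset.sum_add_distrib, Finset.sum_const,
      ← Finset.mul_sum, card_univ, ZMod.card, nsmul_eq_mul]
  have hq : (0 : ℝ) < q := by exact_mod_cast Nat.pos_of_ne_zero (NeZero.ne q)
  have hNpos : 0 < addOrderOf j := addOrderOf_pos j
  set N := addOrderOf j with hN
  have hNR : (0 : ℝ) < N := by exact_mod_cast hNpos
  have hprim := jensen_prim hψ j
  have hshift : ∀ k : ℕ, ∑ a, L (a + (k : ZMod q)) = ∑ a, L a := fun k =>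
    Equiv.sum_comp (Equiv.addRight (k : ZMod q)) L
  have hNsum : (N : ℝ) * ∑ a, L a = ∑ a, ∑ k ∈ range N, L (a + (k : ZMod q)) := by
    rw [Finset.sum_comm, Finset.sum_congr rfl fun k _ => hshift k, Finset.sum_const, card_range,
      nsmul_eq_mul]
  have hin : ∀ a : ZMod q, ∑ k ∈ range N, L (a + (k : ZMod q)) ≤ Real.log 2 := by
    intro a
    have h1 : ∀ k : ℕ, L (a + (k : ZMod q)) =
        Real.log ‖1 + (w * ψ (-(j * a))) * ψ (-j) ^ k‖ := by
      intro k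
      have h2 : -(j * (a + (k : ZMod q))) = -(j * a) + k • (-j) := by
        rw [nsmul_eq_mul]
        ring
      simp only [hL]
      rw [h2, AddChar.map_add_eq_mul, AddChar.map_nsmul_eq_pow, mul_assoc]
    rw [Finset.sum_congr rfl fun k _ => h1 k]
    apply jensen_inner hNpos hprim
    rw [norm_mul, hψn, mul_one]
    exact hw1
  have hle : (N : ℝ) * ∑ a, L a ≤ q * Real.log 2 := by
    rw [hNsum]
    calc ∑ a, ∑ k ∈ range N, L (a + (k : ZMod q)) ≤ ∑ _a : ZMod q, Real.log 2 :=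
          Finset.sum_le_sum fun a _ => hin a
      _ = q * Real.log 2 := by
          rw [Finset.sum_const, card_univ, ZMod.card, nsmul_eq_mul]
  have h4 : Real.log 4 = 2 * Real.log 2 := by
    rw [show (4 : ℝ) = 2 ^ 2 by norm_num, Real.log_pow]
    norm_num
  rw [hsum, h4]
  have h5 : ∑ a, L a ≤ q / N * Real.log 2 := by
    rw [div_mul_eq_mul_div, le_div_iff₀ hNR, mul_comm]
    exact hle
  linarith

end Pool.Agent.CYC
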