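import Mathlib
import Pool.Agent.Lib.MP_8ca0c8_nt_CYC2.Defs

/-! Project CYC2 (MP_8ca0c8_nt), module NONVAN: partial sums do not vanish. -/

namespace Pool.Agent.CYC

open Finset

theorem logm_nonneg {Ω : Type} [Fintype Ω] {q : ℕ} [NeZero q] (F : Fam Ω q) :
    0 ≤ ∑ φ, Real.log (F.m φ) := by
  have hc : (0 : ℝ) < F.S.card := by exact_mod_cast F.card_pos
  have h1 : ∀ φ, ∑ a ∈ F.S, Real.log (F.f φ a) ≤ F.S.card * Real.log (F.m φ) := by
    intro φ
    have hm := F.m_pos φ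
    have h2 : ∀ a ∈ F.S, Real.log (F.f φ a) ≤ Real.log (F.m φ) + (F.f φ a / F.m φ - 1) := by
      intro a ha
      have hf := F.hf φ a ha
      have h3 := Real.log_le_sub_one_of_pos (div_pos hf hm)
      rw [Real.log_div hf.ne' hm.ne'] at h3
      linarith
    refine (Finset.sum_le_sum h2).trans (le_of_eq ?_)
    rw [Finset.sum_add_distrib, Finset.sum_sub_distrib, ← Finset.sum_div]
    have h4 : (∑ a ∈ F.S, F.f φ a) / F.m φ = F.S.card := by
      have h5 := F.m_eq φ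
      rw [eq_div_iff hc.ne'] at h5
      rw [div_eq_iff hm.ne', ← h5]
      ring
    rw [h4]
    simp
  have h6 : 0 ≤ ∑ φ, (F.S.card : ℝ) * Real.log (F.m φ) :=
    F.hlog.trans (Finset.sum_le_sum fun φ _ => h1 φ)
  rw [← Finset.mul_sum] at h6
  exact nonneg_of_mul_nonneg_right h6 hc

theorem nonvan_inv {q : ℕ} [NeZero q] (ψ : AddChar (ZMod q) ℂ) (hψ : ψ.IsPrimitive)
    (c : ZMod q → ℂ) (v : ZMod q) :
    ∑ a, (∑ u, c u * ψ (-(u * a))) * ψ (v * a) = q * c v := by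
  have h1 : ∀ a : ZMod q, (∑ u, c u * ψ (-(u * a))) * ψ (v * a) =
      ∑ u, c u * ψ (a * (v - u)) := by
    intro a
    rw [Finset.sum_mul]
    refine Finset.sum_congr rfl fun u _ => ?_
    rw [mul_assoc, ← AddChar.map_add_eq_mul]
    congr 2
    ring
  rw [Finset.sum_congr rfl fun a _ => h1 a, Finset.sum_comm]
  have h2 : ∀ u : ZMod q, ∑ a : ZMod q, c u * ψ (a * (v - u)) = if u = v then q * c u else 0 := by
    intro u
    rw [← Finset.mul_sum, AddChar.sum_mulShift _ hψ, ZMod.card]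
    by_cases h : u = v
    · simp [h, mul_comm]
    · rw [if_neg (sub_ne_zero.2 (Ne.symm h)), if_neg h]
      simp
  rw [Finset.sum_congr rfl fun u _ => h2 u, Finset.sum_ite_eq' Finset.univ v]
  simp

theorem nonvan_zero {q : ℕ} [NeZero q] (ψ : AddChar (ZMod q) ℂ) (hψ : ψ.IsPrimitive)
    (c : ZMod q → ℂ) (S : Finset (ZMod q)) (hS : q ≤ S.card + 1)
    (h : ∀ a ∈ S, ∑ u, c u * ψ (-(u * a)) = 0) (v0 : ZMod q) (hv0 : c v0 = 0) (v : ZMod q) :
    c v = 0 := by
  have hq : (q : ℂ) ≠ 0 := by exact_mod_cast NeZero.ne q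
  have hsum : ∀ v : ZMod q, ∑ a ∈ Sᶜ, (∑ u, c u * ψ (-(u * a))) * ψ (v * a) = q * c v := by
    intro v
    rw [← nonvan_inv ψ hψ c v, ← Finset.sum_compl_add_sum S]
    have h0 : ∑ a ∈ S, (∑ u, c u * ψ (-(u * a))) * ψ (v * a) = 0 :=
      Finset.sum_eq_zero fun a ha => by rw [h a ha, zero_mul]
    rw [h0, add_zero]
  have hcard : Sᶜ.card ≤ 1 := by
    rw [Finset.card_compl, ZMod.card]
    omega
  have key : ∀ a ∈ Sᶜ, ∑ u, c u * ψ (-(u * a)) = 0 := by
    intro a ha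
    have hs : Sᶜ = {a} := by
      apply Finset.eq_singleton_iff_unique_mem.2
      exact ⟨ha, fun b hb => Finset.card_le_one.1 hcard b hb a ha⟩
    have h1 := hsum v0
    rw [hs, Finset.sum_singleton, hv0, mul_zero] at h1
    rcases mul_eq_zero.1 h1 with h2 | h2
    · exact h2
    · exfalso
      have h3 := norm_psi ψ (v0 * a)
      rw [h2, norm_zero] at h3
      exact zero_ne_one h3
  have h1 := hsum v
  rw [Finset.sum_eq_zero fun a ha => by rw [key a ha, zero_mul]] at h1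
  rcases mul_eq_zero.1 h1.symm with h2 | h2
  · exact absurd h2 hq
  · exact h2

theorem nonvan {Ω : Type} [Fintype Ω] {q : ℕ} [NeZero q] {R : IRing Ω} (G : BFam Ω q R)
    (J1 : Finset (ZMod q)) (h1 : J1 ⊆ G.J) (h2 : J1.Nonempty) (h3 : G.J.card < q) :
    (∀ φ, ∀ a ∈ G.S, G.g J1 φ a ≠ 0) ∧ 0 ≤ ∑ φ, ∑ a ∈ G.S, Real.log ‖G.g J1 φ a‖ := by
  have first : ∀ φ, ∀ a ∈ G.S, G.g J1 φ a ≠ 0 := by
    intro φ a ha h0
    have hall : ∀ a' ∈ G.S, ∑ u ∈ J1, G.D φ u * G.ψ φ (-(u * a')) = 0 :=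
      fun a' ha' => G.hgal J1 a ha a' ha' φ φ h0
    obtain ⟨v1, hv1⟩ := h2
    obtain ⟨v0, hv0⟩ : ∃ v0, v0 ∉ J1 := by
      by_contra hc
      push Not at hc
      have h4 : J1 = Finset.univ := Finset.eq_univ_iff_forall.2 hc
      have h5 := Finset.card_le_card h1
      rw [h4, Finset.card_univ, ZMod.card] at h5
      omega
    have h6 := nonvan_zero (G.ψ φ) (G.hψ φ) (fun u => if u ∈ J1 then G.D φ u else 0) G.S G.hS1
      (fun a' ha' => by
        refine Eq.trans ?_ (hall a' ha')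
        rw [← Finset.sum_filter_add_sum_filter_not Finset.univ (· ∈ J1)]
        rw [Finset.sum_eq_zero (s := Finset.univ.filter (· ∉ J1)) (fun u hu => by
          rw [if_neg (Finset.mem_filter.1 hu).2, zero_mul]), add_zero]
        have h7 : Finset.univ.filter (· ∈ J1) = J1 := by ext; simp
        rw [h7]
        exact Finset.sum_congr rfl fun u hu => by rw [if_pos hu])
      v0 (if_neg hv0) v1
    simp only [if_pos hv1] at h6
    exact G.hDJ v1 (h1 hv1) φ h6
  refine ⟨first, ?_⟩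
  rw [Finset.sum_comm]
  refine Finset.sum_nonneg fun a ha => ?_
  rcases isEmpty_or_nonempty Ω with he | hne
  · simp
  · obtain ⟨φ0⟩ := hne
    have hmem : (fun φ => G.g J1 φ a) ∈ R.A := by
      have h4 : (fun φ => G.g J1 φ a) =
          ∑ u ∈ J1, (fun φ => G.D φ u) * (fun φ => G.ψ φ (-(u * a))) := by
        ext φ
        simp [BFam.g, Finset.sum_apply]
      rw [h4]
      exact sum_mem fun u _ => mul_mem (G.hD u) (G.hψA _)
    exact (R.hA _ hmem (fun h => first φ0 a ha (congrFun h φ0))).2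

end Pool.Agent.CYC
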