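import Mathlib
import Pool.Agent.Lib.MP_8ca0c8_nt_CYC2.Jensen
import Pool.Agent.Lib.MP_8ca0c8_nt_CYC2.Nonvan

/-! Project CYC2 (MP_8ca0c8_nt), module NCCONCL: conclusion of the incommensurable case. -/

namespace Pool.Agent.CYC

open Finset

/-- the pointwise inequality of the last step -/
theorem ncc_point (m' D M : ℝ) (hD : 0 < D) (hM : 0 < M) (h : m' * M = M ^ 2 + D ^ 2) :
    1 + 3 / 5 * Real.log (M / 2) + 2 / 5 * Real.log D ≤ m' / (5 / 2) := by
  have e1 := Real.log_le_sub_one_of_pos (div_pos hM two_pos)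
  have hp : 0 < D ^ 2 / (M / 2) := div_pos (pow_pos hD 2) (div_pos hM two_pos)
  have e2 := Real.log_le_sub_one_of_pos hp
  rw [Real.log_div (pow_pos hD 2).ne' (div_pos hM two_pos).ne', Real.log_pow] at e2
  have e3 : m' = M + D ^ 2 / M := by
    field_simp
    linear_combination h
  have e4 : D ^ 2 / (M / 2) = 2 * (D ^ 2 / M) := by
    field_simp
  rw [e4] at e2
  push_cast at e2
  rw [e3]
  linarith

/-- the sum over `a` -/
theorem ncc_sum {Ω : Type} [Fintype Ω] {q : ℕ} [NeZero q] {Rg : IRing Ω} (G : BFam Ω q Rg)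
    (j : ZMod q) (J1 : Finset (ZMod q)) (ε1 : ℝ) (h1 : 0 < ε1) (φ : Ω)
    (hg0 : ∀ a ∈ G.S, G.g J1 φ a ≠ 0)
    (hD : 2 * ‖G.D φ j‖ ≤ (1 + ε1 / 2) * G.m φ)
    (hg : ∀ a, 2 * ‖G.g J1 φ a‖ ≤
      (1 + ε1) * G.m φ + 2 * (G.D φ j * G.ψ φ (-(j * a))).re) :
    ∑ a ∈ G.S, Real.log ‖G.g J1 φ a‖ ≤
      q * Real.log (((1 + ε1) * G.m φ +
        √(((1 + ε1) * G.m φ) ^ 2 - 4 * ‖G.D φ j‖ ^ 2)) / 2 / 2) +
      (q : ℝ) / addOrderOf j * Real.log 4 -
      (G.Sᶜ.card : ℝ) * (Real.log (ε1 / 4) + Real.log (G.m φ)) := by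
  have hm := G.m_pos φ
  set m' := (1 + ε1) * G.m φ with hm'
  set M := (m' + √(m' ^ 2 - 4 * ‖G.D φ j‖ ^ 2)) / 2 with hM
  have hDm : 2 * ‖G.D φ j‖ < m' := by
    have : 0 < ε1 / 2 * G.m φ := mul_pos (half_pos h1) hm
    rw [hm']
    nlinarith
  have hm'0 : 0 < m' := mul_pos (by linarith) hm
  have hM0 : 0 < M := by
    rw [hM]
    have := Real.sqrt_nonneg (m' ^ 2 - 4 * ‖G.D φ j‖ ^ 2)
    linarith
  set h : ZMod q → ℝ := fun a => m' + 2 * (G.D φ j * G.ψ φ (-(j * a))).re with hh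
  have hlow : ∀ a, ε1 / 2 * G.m φ ≤ h a := by
    intro a
    have h2 : |(G.D φ j * G.ψ φ (-(j * a))).re| ≤ ‖G.D φ j‖ := by
      refine (Complex.abs_re_le_norm _).trans ?_
      rw [norm_mul, norm_psi, mul_one]
    have h3 := (abs_le.1 h2).1
    simp only [hh, hm']
    nlinarith
  have hpos : ∀ a, 0 < h a := fun a => lt_of_lt_of_le (mul_pos (half_pos h1) hm) (hlow a)
  have hj := jensen (G.hψ φ) j (G.D φ j) m' hDm
  have s1 : ∑ a ∈ G.S, Real.log ‖G.g J1 φ a‖ ≤ ∑ a ∈ G.S, (Real.log (h a) - Real.log 2) := by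
    refine Finset.sum_le_sum fun a ha => ?_
    rw [← Real.log_div (hpos a).ne' two_ne_zero]
    apply Real.log_le_log (norm_pos_iff.2 (hg0 a ha))
    rw [le_div_iff₀ two_pos]
    have := hg a
    simp only [hh]
    linarith
  have s2 : ∑ a ∈ G.S, (Real.log (h a) - Real.log 2) =
      ∑ a, (Real.log (h a) - Real.log 2) - ∑ a ∈ G.Sᶜ, (Real.log (h a) - Real.log 2) := by
    rw [← Finset.sum_compl_add_sum G.S]
    ring
  have s3 : (G.Sᶜ.card : ℝ) * (Real.log (ε1 / 4) + Real.log (G.m φ)) ≤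
      ∑ a ∈ G.Sᶜ, (Real.log (h a) - Real.log 2) := by
    rw [← nsmul_eq_mul, ← Finset.sum_const]
    refine Finset.sum_le_sum fun a _ => ?_
    rw [← Real.log_mul (by positivity) hm.ne', ← Real.log_div (hpos a).ne' two_ne_zero]
    apply Real.log_le_log (by positivity)
    rw [le_div_iff₀ two_pos]
    have := hlow a
    linarith
  have s4 : ∑ a, (Real.log (h a) - Real.log 2) =
      ∑ a, Real.log (h a) - q * Real.log 2 := by
    rw [Finset.sum_sub_distrib, Finset.sum_const, card_univ, ZMod.card, nsmul_eq_mul]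
  have s5 : Real.log (M / 2) = Real.log M - Real.log 2 := Real.log_div hM0.ne' two_ne_zero
  rw [s5]
  have hj' : ∑ a, Real.log (h a) ≤ q * Real.log M + (q : ℝ) / addOrderOf j * Real.log 4 := hj
  rw [s2, s4] at s1
  linarith

theorem nc_concl (ε : ℝ) (hε : 0 < ε) (ε1 : ℝ) (h1 : 0 < ε1) (h1' : ε1 ≤ ε / 5)
    (h1'' : ε1 ≤ 1) : ∃ B : ℕ,
    ∀ {Ω : Type} [Fintype Ω] [Nonempty Ω] {q : ℕ} [NeZero q] {Rg : IRing Ω} (G : BFam Ω q Rg)
      (j : ZMod q) (J1 : Finset (ZMod q)), j ∈ G.J → J1 ⊆ G.J → J1.Nonempty → G.J.card < q →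
      B ≤ addOrderOf j → (∀ φ, 2 * ‖G.D φ j‖ ≤ (1 + ε1 / 2) * G.m φ) →
      (∀ φ a, 2 * ‖G.g J1 φ a‖ ≤ (1 + ε1) * G.m φ + 2 * (G.D φ j * G.ψ φ (-(j * a))).re) →
      (5 / 2 - ε) * Fintype.card Ω ≤ ∑ φ, G.m φ := by
  have hl4 : 0 < Real.log 4 := Real.log_pos (by norm_num)
  have hl4e : 0 ≤ Real.log (4 / ε1) := by
    apply Real.log_nonneg
    rw [le_div_iff₀ h1]
    linarith
  have hneg : Real.log (ε1 / 4) = -Real.log (4 / ε1) := by
    rw [← Real.log_inv, inv_div]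
  set L := Real.log 4 + Real.log (4 / ε1) with hL
  have hL0 : 0 < L := by linarith
  refine ⟨⌈5 * L / ε⌉₊ + 1, ?_⟩
  intro Ω _ _ q _ Rg G j J1 hj hJ1 hne hcard hB hD hg
  obtain ⟨hg0, hsum⟩ := nonvan G J1 hJ1 hne hcard
  have hlm := logm_nonneg G.toFam
  have hlD := G.log_D hj
  set N := addOrderOf j with hN
  set c : ℝ := (Fintype.card Ω : ℝ) with hc
  have hc0 : 0 < c := by
    rw [hc]
    exact_mod_cast Fintype.card_pos
  have hBR : 5 * L / ε < (N : ℝ) := by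
    have e1 : 5 * L / ε ≤ (⌈5 * L / ε⌉₊ : ℝ) := Nat.le_ceil _
    have e2 : ((⌈5 * L / ε⌉₊ + 1 : ℕ) : ℝ) ≤ N := by exact_mod_cast hB
    push_cast at e2
    linarith
  have hN0 : (0 : ℝ) < N := lt_trans (by positivity) hBR
  have hNq : (N : ℝ) ≤ q := by
    have : addOrderOf j ≤ Fintype.card (ZMod q) := addOrderOf_le_card_univ
    rw [ZMod.card] at this
    exact_mod_cast this
  have hq0 : (0 : ℝ) < q := lt_of_lt_of_le hN0 hNq
  have hδ : (G.Sᶜ.card : ℝ) ≤ 1 := by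
    have h2 : G.Sᶜ.card ≤ 1 := by
      rw [Finset.card_compl, ZMod.card]
      have := G.hS1
      omega
    exact_mod_cast h2
  set M : Ω → ℝ := fun φ => ((1 + ε1) * G.m φ +
        √(((1 + ε1) * G.m φ) ^ 2 - 4 * ‖G.D φ j‖ ^ 2)) / 2 with hM
  -- lower bound for the sum of the logarithms of `M / 2`
  have key1 : 0 ≤ q * ∑ φ, Real.log (M φ / 2) + c * (q / N * Real.log 4) +
      c * Real.log (4 / ε1) := by
    have e1 : ∑ φ, ∑ a ∈ G.S, Real.log ‖G.g J1 φ a‖ ≤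
        ∑ φ, (q * Real.log (M φ / 2) + (q : ℝ) / N * Real.log 4 -
          (G.Sᶜ.card : ℝ) * (Real.log (ε1 / 4) + Real.log (G.m φ))) :=
      Finset.sum_le_sum fun φ _ => ncc_sum G j J1 ε1 h1 φ (hg0 φ) (hD φ) (hg φ)
    rw [Finset.sum_sub_distrib, Finset.sum_add_distrib, Finset.sum_const, ← Finset.mul_sum,
      ← Finset.mul_sum, Finset.sum_add_distrib, Finset.sum_const, card_univ, nsmul_eq_mul,
      nsmul_eq_mul, hneg] at e1
    have e2 : 0 ≤ (G.Sᶜ.card : ℝ) * ∑ φ, Real.log (G.m φ) := mul_nonneg (Nat.cast_nonneg _) hlm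
    have e3 : (G.Sᶜ.card : ℝ) * (c * Real.log (4 / ε1)) ≤ 1 * (c * Real.log (4 / ε1)) :=
      mul_le_mul_of_nonneg_right hδ (mul_nonneg hc0.le hl4e)
    have e4 := hsum.trans e1
    rw [← hc] at e4
    linarith
  have key2 : -(c * L / N) ≤ ∑ φ, Real.log (M φ / 2) := by
    have e1 : q * (-(c * L / N)) ≤ q * ∑ φ, Real.log (M φ / 2) := by
      have e2 : c * Real.log (4 / ε1) ≤ c * Real.log (4 / ε1) * (q / N) := by
        apply le_mul_of_one_le_right (mul_nonneg hc0.le hl4e)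
        rw [le_div_iff₀ hN0]
        linarith
      have e3 : q * (-(c * L / N)) =
          -(c * (q / N * Real.log 4) + c * Real.log (4 / ε1) * (q / N)) := by
        rw [hL]
        field_simp
      rw [e3]
      linarith
    exact le_of_mul_le_mul_left e1 hq0
  -- pointwise
  have key3 : ∀ φ, 1 + 3 / 5 * Real.log (M φ / 2) + 2 / 5 * Real.log ‖G.D φ j‖ ≤
      (1 + ε1) * G.m φ / (5 / 2) := by
    intro φ
    have hm := G.m_pos φ
    have hm'0 : 0 < (1 + ε1) * G.m φ := mul_pos (by linarith) hm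
    have hDm : 2 * ‖G.D φ j‖ < (1 + ε1) * G.m φ := by
      have e1 := hD φ
      have : 0 < ε1 / 2 * G.m φ := mul_pos (half_pos h1) hm
      nlinarith
    have hDn := norm_nonneg (G.D φ j)
    have hs2 : √(((1 + ε1) * G.m φ) ^ 2 - 4 * ‖G.D φ j‖ ^ 2) ^ 2 =
        ((1 + ε1) * G.m φ) ^ 2 - 4 * ‖G.D φ j‖ ^ 2 := by
      apply Real.sq_sqrt
      nlinarith
    apply ncc_point
    · exact norm_pos_iff.2 (G.hDJ j hj φ)
    · simp only [hM]
      have := Real.sqrt_nonneg (((1 + ε1) * G.m φ) ^ 2 - 4 * ‖G.D φ j‖ ^ 2)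
      linarith
    · simp only [hM]
      linear_combination -(1 / 4) * hs2
  have key4 : c + 3 / 5 * ∑ φ, Real.log (M φ / 2) ≤ (1 + ε1) * (∑ φ, G.m φ) / (5 / 2) := by
    have e1 := Finset.sum_le_sum fun φ (_ : φ ∈ Finset.univ) => key3 φ
    rw [Finset.sum_add_distrib, Finset.sum_add_distrib, ← Finset.mul_sum, ← Finset.mul_sum,
      ← Finset.sum_div, ← Finset.mul_sum, Finset.sum_const, card_univ, nsmul_eq_mul, mul_one,
      ← hc] at e1
    linarith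
  have key5 : c * L / N ≤ c * (ε / 5) := by
    rw [div_le_iff₀ hN0]
    rw [div_lt_iff₀ hε] at hBR
    nlinarith
  have hms : 0 ≤ ∑ φ, G.m φ := Finset.sum_nonneg fun φ _ => (G.m_pos φ).le
  set s := ∑ φ, G.m φ with hs
  rw [le_div_iff₀ (by norm_num)] at key4
  have key6 : c * (5 / 2) - 3 / 2 * (c * (ε / 5)) ≤ (1 + ε1) * s := by
    have : -(c * (ε / 5)) ≤ ∑ φ, Real.log (M φ / 2) := by linarith
    linarith
  rcases le_or_gt (5 / 2 - ε) 0 with h5 | h5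
  · exact (mul_nonpos_of_nonpos_of_nonneg h5 hc0.le).trans hms
  · by_contra hcon
    push Not at hcon
    have e1 : (1 + ε1) * s < (1 + ε1) * ((5 / 2 - ε) * c) :=
      mul_lt_mul_of_pos_left hcon (by linarith)
    have e2 : (1 + ε1) * ((5 / 2 - ε) * c) ≤ (1 + ε / 5) * ((5 / 2 - ε) * c) :=
      mul_le_mul_of_nonneg_right (by linarith) (mul_pos h5 hc0).le
    have e3 : (1 + ε / 5) * ((5 / 2 - ε) * c) ≤ c * (5 / 2) - 3 / 2 * (c * (ε / 5)) := by
      have : 0 < c * ε := mul_pos hc0 hε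
      nlinarith [mul_pos hc0 (mul_pos hε hε)]
    linarith

end Pool.Agent.CYC
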