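import Mathlib
import Pool.Agent.Lib.MP_8ca0c8_nt_CYC2.Kernel

/-! Project CYC2 (MP_8ca0c8_nt), module NCINEQ: the pointwise inequality, incommensurable case. -/

namespace Pool.Agent.CYC

open Finset

private theorem nci_Icc_succ (S : ℕ) : Icc (-((S + 1 : ℕ) : ℤ)) ((S + 1 : ℕ) : ℤ) =
    insert (-((S : ℤ) + 1)) (insert ((S : ℤ) + 1) (Icc (-(S : ℤ)) S)) := by
  ext k
  simp only [mem_Icc, mem_insert]
  push_cast
  omega

private theorem nci_weight (S : ℕ) :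
    ∑ l ∈ Icc (-(S : ℤ)) S, (((S : ℤ) + 1 - |l| : ℤ) : ℝ) = ((S : ℝ) + 1) ^ 2 := by
  induction S with
  | zero => simp
  | succ S ih =>
    rw [nci_Icc_succ, sum_insert, sum_insert]
    · have h1 : ∑ l ∈ Icc (-(S : ℤ)) S, ((((S + 1 : ℕ) : ℤ) + 1 - |l| : ℤ) : ℝ) =
          ∑ l ∈ Icc (-(S : ℤ)) S, ((((S : ℤ) + 1 - |l| : ℤ) : ℝ) + 1) := by
        refine sum_congr rfl fun l _ => ?_
        push_cast
        ring
      rw [h1, sum_add_distrib, ih, sum_const, Int.card_Icc]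
      have h2 : ((S : ℤ) + 1 - -(S : ℤ)).toNat = 2 * S + 1 := by omega
      have h3 : |((S : ℤ) + 1)| = S + 1 := abs_of_nonneg (by omega)
      rw [h2, abs_neg, h3]
      push_cast
      ring
    · simp only [mem_Icc]
      omega
    · simp only [mem_insert, mem_Icc]
      omega

private theorem nci_sum_neg {M : Type*} [AddCommMonoid M] (F : ℤ → M) (S : ℕ) :
    ∑ l ∈ Icc (-(S : ℤ)) S, F (-l) = ∑ l ∈ Icc (-(S : ℤ)) S, F l := by
  refine sum_nbij' (fun l => -l) (fun l => -l) ?_ ?_ ?_ ?_ ?_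
  · intro l hl
    simp only [mem_Icc] at hl ⊢
    omega
  · intro l hl
    simp only [mem_Icc] at hl ⊢
    omega
  · intro l _
    exact neg_neg l
  · intro l _
    exact neg_neg l
  · intro l _
    rfl

private theorem nci_three (F : ℤ → ℂ) (S : ℕ) (hS : 1 ≤ S)
    (h : ∀ k : ℤ, 2 ≤ |k| → |k| ≤ S → F k = 0) :
    ∑ k ∈ Icc (-(S : ℤ)) S, F k = F (-1) + F 0 + F 1 := by
  have h1 : ({-1, 0, 1} : Finset ℤ) ⊆ Icc (-(S : ℤ)) S := by
    intro k hk
    simp only [mem_insert, mem_singleton] at hk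
    simp only [mem_Icc]
    omega
  rw [← sum_subset h1]
  · rw [sum_insert (by decide), sum_insert (by decide), sum_singleton, add_assoc]
  · intro k hk hk'
    simp only [mem_insert, mem_singleton, not_or] at hk'
    simp only [mem_Icc] at hk
    refine h k ?_ ?_
    · rcases le_total 0 k with h2 | h2
      · rw [abs_of_nonneg h2]; omega
      · rw [abs_of_nonpos h2]; omega
    · exact abs_le.mpr hk

private theorem nci_phase (g : ℂ) : ∃ c : ℂ, ‖c‖ = 1 ∧ c * g = -(‖g‖ : ℂ) := by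
  by_cases hg : g = 0
  · exact ⟨1, by simp, by simp [hg]⟩
  · have hn : (‖g‖ : ℂ) ≠ 0 := by
      rw [Complex.ofReal_ne_zero]
      exact norm_ne_zero_iff.mpr hg
    refine ⟨-((starRingEnd ℂ) g / ‖g‖), ?_, ?_⟩
    · rw [norm_neg, norm_div, RCLike.norm_conj, Complex.norm_real, norm_norm, div_self]
      exact norm_ne_zero_iff.mpr hg
    · have h1 : (starRingEnd ℂ) g * g = (‖g‖ : ℂ) * ‖g‖ := by
        rw [mul_comm, Complex.mul_conj, Complex.normSq_eq_norm_sq, pow_two, Complex.ofReal_mul]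
      rw [neg_mul, div_mul_eq_mul_div, h1, mul_div_assoc, div_self hn, mul_one]

/-- positivity of the double Fejer sum of the Fourier coefficients -/
private theorem nci_pos {q : ℕ} [NeZero q] (ψ : AddChar (ZMod q) ℂ) (w : ZMod q → ℝ)
    (hw : ∀ b, 0 ≤ w b) (R S : ℕ) (j x a : ZMod q) (c : ℂ) (hc : ‖c‖ = 1) :
    0 ≤ (∑ k ∈ Icc (-(R : ℤ)) R, ∑ l ∈ Icc (-(S : ℤ)) S,
      (((R + 1 - |k| : ℤ) : ℝ) : ℂ) * (((S + 1 - |l| : ℤ) : ℝ) : ℂ) * c ^ k *
        (ψ (-(((k : ZMod q) * x + (l : ZMod q) * j) * a)) *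
          FT ψ w ((k : ZMod q) * x + (l : ZMod q) * j))).re := by
  have hz : ∀ b, ‖c * ψ (x * (b - a))‖ = 1 := fun b => by
    rw [norm_mul, hc, norm_psi, one_mul]
  choose ρ hρ hρe using fun b => kernel_pos (c * ψ (x * (b - a))) (hz b) R
  choose σ hσ hσe using fun b => kernel_pos (ψ (j * (b - a))) (norm_psi ψ _) S
  have key : (∑ k ∈ Icc (-(R : ℤ)) R, ∑ l ∈ Icc (-(S : ℤ)) S,
      (((R + 1 - |k| : ℤ) : ℝ) : ℂ) * (((S + 1 - |l| : ℤ) : ℝ) : ℂ) * c ^ k *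
        (ψ (-(((k : ZMod q) * x + (l : ZMod q) * j) * a)) *
          FT ψ w ((k : ZMod q) * x + (l : ZMod q) * j))) =
      ((∑ b, w b * (ρ b * σ b) : ℝ) : ℂ) := by
    have h0 : ((∑ b, w b * (ρ b * σ b) : ℝ) : ℂ) = ∑ b, (w b : ℂ) * ((ρ b : ℂ) * (σ b : ℂ)) := by
      rw [Complex.ofReal_sum]
      refine sum_congr rfl fun b _ => ?_
      rw [Complex.ofReal_mul, Complex.ofReal_mul]
    have h1 : ∀ b, ((w b : ℂ) * ((ρ b : ℂ) * (σ b : ℂ))) = ∑ k ∈ Icc (-(R : ℤ)) R,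
        ∑ l ∈ Icc (-(S : ℤ)) S, (((R + 1 - |k| : ℤ) : ℝ) : ℂ) * (((S + 1 - |l| : ℤ) : ℝ) : ℂ) *
          c ^ k * (ψ (-(((k : ZMod q) * x + (l : ZMod q) * j) * a)) *
            ((w b : ℂ) * ψ (((k : ZMod q) * x + (l : ZMod q) * j) * b))) := by
      intro b
      rw [← hρe, ← hσe, sum_mul_sum, mul_sum]
      refine sum_congr rfl fun k _ => ?_
      rw [mul_sum]
      refine sum_congr rfl fun l _ => ?_
      have h2 : (c * ψ (x * (b - a))) ^ k * ψ (j * (b - a)) ^ l =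
          c ^ k * (ψ (-(((k : ZMod q) * x + (l : ZMod q) * j) * a)) *
            ψ (((k : ZMod q) * x + (l : ZMod q) * j) * b)) := by
        rw [mul_zpow, mul_assoc, ← AddChar.map_zsmul_eq_zpow, ← AddChar.map_zsmul_eq_zpow,
          ← AddChar.map_add_eq_mul, ← AddChar.map_add_eq_mul]
        congr 2
        rw [zsmul_eq_mul, zsmul_eq_mul]
        ring
      calc (w b : ℂ) * ((((R + 1 - |k| : ℤ) : ℝ) : ℂ) * (c * ψ (x * (b - a))) ^ k *
            ((((S + 1 - |l| : ℤ) : ℝ) : ℂ) * ψ (j * (b - a)) ^ l)) =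
          (w b : ℂ) * ((((R + 1 - |k| : ℤ) : ℝ) : ℂ) * (((S + 1 - |l| : ℤ) : ℝ) : ℂ) *
            ((c * ψ (x * (b - a))) ^ k * ψ (j * (b - a)) ^ l)) := by ring
        _ = _ := by
          rw [h2]
          ring
    have h3 : ∑ b, (w b : ℂ) * ((ρ b : ℂ) * (σ b : ℂ)) = ∑ b, ∑ k ∈ Icc (-(R : ℤ)) R,
        ∑ l ∈ Icc (-(S : ℤ)) S, (((R + 1 - |k| : ℤ) : ℝ) : ℂ) * (((S + 1 - |l| : ℤ) : ℝ) : ℂ) *
          c ^ k * (ψ (-(((k : ZMod q) * x + (l : ZMod q) * j) * a)) *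
            ((w b : ℂ) * ψ (((k : ZMod q) * x + (l : ZMod q) * j) * b))) :=
      sum_congr rfl fun b _ => h1 b
    rw [h0, h3]
    symm
    rw [sum_comm]
    refine sum_congr rfl fun k _ => ?_
    rw [sum_comm]
    refine sum_congr rfl fun l _ => ?_
    rw [FT, mul_sum, mul_sum]
  rw [key, Complex.ofReal_re]
  exact sum_nonneg fun b _ => mul_nonneg (hw b) (mul_nonneg (hρ b) (hσ b))

private theorem nci_arith (m κ ε X S0 R S e0 ej g h : ℝ) (hm : 0 < m) (hX : 0 ≤ X)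
    (hS0 : 0 ≤ S0) (hR0 : 0 ≤ R) (hS : 0 ≤ S) (hR : 16 * (X + 1) ≤ ε * (R + 1))
    (hS' : 16 * (X + 1) * (S0 + 1) ≤ ε * (S + 1)) (hκ : κ * ((R + 1) * (S + 1) + 1) ≤ ε / 2)
    (he0 : e0 ≤ (1 + κ) * m) (hej : -(2 * m) ≤ ej) (hg : g ≤ X * (2 * m))
    (hh : h ≤ S0 * (X * (2 * m))) (hh0 : 0 ≤ h)
    (f1 : 0 ≤ (R + 1) * ((S + 1) * e0 + 2 * S * ej) + 2 * R * (-((S + 1) * g) + h) +
      κ * m * ((R + 1) * (S + 1)) ^ 2) : 2 * g ≤ (1 + ε) * m + 2 * ej := by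
  have hRpos : 0 < R + 1 := by linarith
  have hSpos : 0 < S + 1 := by linarith
  set N : ℝ := (R + 1) * (S + 1) with hN
  have hNpos : 0 < N := mul_pos hRpos hSpos
  have e0' : (R + 1) * ((S + 1) * e0) ≤ N * ((1 + κ) * m) := by
    have : (R + 1) * ((S + 1) * e0) = N * e0 := by rw [hN]; ring
    rw [this]
    exact mul_le_mul_of_nonneg_left he0 hNpos.le
  have e1 : (R + 1) * (2 * S * ej) ≤ N * (2 * ej) + (R + 1) * (4 * m) := by
    have h3 : N * (2 * ej) = (R + 1) * (2 * S * ej) + (R + 1) * (2 * ej) := by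
      rw [hN]; ring
    have h2 : (R + 1) * (2 * (-(2 * m))) ≤ (R + 1) * (2 * ej) :=
      mul_le_mul_of_nonneg_left (by linarith) hRpos.le
    linarith
  have e2 : 2 * R * ((S + 1) * g) = N * (2 * g) - (S + 1) * (2 * g) := by
    rw [hN]; ring
  have e3 : (S + 1) * (2 * g) ≤ (S + 1) * (2 * (X * (2 * m))) :=
    mul_le_mul_of_nonneg_left (by linarith) hSpos.le
  have e4 : 2 * R * h ≤ (R + 1) * (2 * (S0 * (X * (2 * m)))) := by
    have h2 : 2 * R * h ≤ 2 * (R + 1) * h :=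
      mul_le_mul_of_nonneg_right (by linarith) hh0
    have h3 : 2 * (R + 1) * h ≤ 2 * (R + 1) * (S0 * (X * (2 * m))) :=
      mul_le_mul_of_nonneg_left hh (by linarith)
    linarith
  have f3 : N * (2 * g) ≤ N * ((1 + κ) * m) + N * (2 * ej) +
      (R + 1) * (4 * m) + (S + 1) * (2 * (X * (2 * m))) +
      (R + 1) * (2 * (S0 * (X * (2 * m)))) + κ * m * N ^ 2 := by
    linarith
  have f4 : (R + 1) * (4 * m) + (R + 1) * (2 * (S0 * (X * (2 * m)))) ≤ N * (ε / 4) * m := by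
    have h2 : 4 + 4 * (S0 * X) ≤ ε / 4 * (S + 1) := by linarith
    have h4 : (R + 1) * m * (4 + 4 * (S0 * X)) ≤ (R + 1) * m * (ε / 4 * (S + 1)) :=
      mul_le_mul_of_nonneg_left h2 (mul_pos hRpos hm).le
    have h5 : (R + 1) * m * (ε / 4 * (S + 1)) = N * (ε / 4) * m := by
      rw [hN]; ring
    linarith
  have f5 : (S + 1) * (2 * (X * (2 * m))) ≤ N * (ε / 4) * m := by
    have h3 : 4 * X ≤ ε / 4 * (R + 1) := by linarith
    have h4 : (S + 1) * m * (4 * X) ≤ (S + 1) * m * (ε / 4 * (R + 1)) :=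
      mul_le_mul_of_nonneg_left h3 (mul_pos hSpos hm).le
    have h5 : (S + 1) * m * (ε / 4 * (R + 1)) = N * (ε / 4) * m := by
      rw [hN]; ring
    linarith
  have f6 : N * (κ * m) + κ * m * N ^ 2 ≤ N * (ε / 2) * m := by
    have h4 : N * m * (κ * (N + 1)) ≤ N * m * (ε / 2) :=
      mul_le_mul_of_nonneg_left hκ (mul_pos hNpos hm).le
    linarith
  have f2 : N * (2 * g) ≤ N * ((1 + ε) * m + 2 * ej) := by linarith
  exact le_of_mul_le_mul_left f2 hNpos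

theorem nc_ineq {Ω : Type} [Fintype Ω] {q : ℕ} [NeZero q] {Rg : IRing Ω} (G : BFam Ω q Rg)
    (ε1 : ℝ) (h1 : 0 < ε1) (h1' : ε1 ≤ 1) (X : ℕ) (hX : G.J.card ≤ X) (R S0 S' : ℕ)
    (hR : 16 * ((X : ℝ) + 1) ≤ ε1 * ((R : ℝ) + 1))
    (hS' : 16 * ((X : ℝ) + 1) * (S0 + 1) ≤ ε1 * ((S' : ℝ) + 1))
    (hκ : G.κ * (((R : ℝ) + 1) * (S' + 1) + 1) ≤ ε1 / 2) (j x : ZMod q)
    (hj : ∀ l : ℤ, 2 ≤ |l| → |l| ≤ S' → (l : ZMod q) * j ∉ G.J)
    (hx : ∀ k l : ℤ, 2 ≤ |k| → |k| ≤ R → |l| ≤ S' → (k : ZMod q) * x + (l : ZMod q) * j ∉ G.J)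
    (hw : ∀ l : ℤ, (S0 : ℤ) < |l| → |l| ≤ S' → x + (l : ZMod q) * j ∉ G.J)
    (hord : 2 * S' < addOrderOf j) (φ : Ω) (a : ZMod q) :
    2 * ‖∑ l ∈ Icc (-(S0 : ℤ)) S0,
        G.D φ (x + (l : ZMod q) * j) * G.ψ φ (-((x + (l : ZMod q) * j) * a))‖ ≤
      (1 + ε1) * G.m φ + 2 * (G.D φ j * G.ψ φ (-(j * a))).re := by
  have hm : 0 < G.m φ := G.m_pos φ
  have hκ0 := G.hκ
  have hRpos : (0 : ℝ) < (R : ℝ) + 1 := by positivity
  have hSpos : (0 : ℝ) < (S' : ℝ) + 1 := by positivity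
  have hXn : (0 : ℝ) ≤ (X : ℝ) := Nat.cast_nonneg X
  have hS0n : (0 : ℝ) ≤ (S0 : ℝ) := Nat.cast_nonneg S0
  have hRR : (16 : ℝ) ≤ (R : ℝ) + 1 := by nlinarith
  have hR1 : 1 ≤ R := by
    have : (1 : ℝ) ≤ (R : ℝ) := by linarith
    exact_mod_cast this
  have hSS : (16 : ℝ) * (S0 + 1) ≤ (S' : ℝ) + 1 := by nlinarith [mul_nonneg hXn hS0n]
  have hS1 : 1 ≤ S' := by
    have : (1 : ℝ) ≤ (S' : ℝ) := by linarith
    exact_mod_cast this
  have hS0 : S0 ≤ S' := by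
    have : (S0 : ℝ) ≤ (S' : ℝ) := by linarith
    exact_mod_cast this
  have hκ1 : G.κ ≤ 1 / 2 := by
    have h2 : G.κ * 1 ≤ G.κ * (((R : ℝ) + 1) * (S' + 1) + 1) :=
      mul_le_mul_of_nonneg_left (by nlinarith [mul_pos hRpos hSpos]) hκ0
    linarith
  set E : ZMod q → ℂ := fun u => G.D φ u * G.ψ φ (-(u * a)) with hE
  have hE0 : ∀ u, u ∉ G.J → E u = 0 := fun u hu => by
    simp only [hE, G.hD0 u hu φ, zero_mul]
  have hEc : ∀ u, E (-u) = (starRingEnd ℂ) (E u) := fun u => by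
    simp only [hE]
    rw [G.hconj, map_mul, ← AddChar.map_neg_eq_conj, neg_mul, neg_neg]
  have hEn : ∀ u, ‖E u‖ = ‖G.D φ u‖ := fun u => by
    simp only [hE]
    rw [norm_mul, norm_psi, mul_one]
  have hE2 : ∀ u, ‖E u‖ ≤ 2 * G.m φ := fun u => by
    rw [hEn]
    have h2 := G.norm_D_le φ u
    nlinarith
  set g : ℂ := ∑ l ∈ Icc (-(S0 : ℤ)) S0, E (x + (l : ZMod q) * j) with hg
  show 2 * ‖g‖ ≤ (1 + ε1) * G.m φ + 2 * (E j).re
  -- the number of nonzero terms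
  have hinj : Set.InjOn (fun l : ℤ => x + (l : ZMod q) * j) (Icc (-(S0 : ℤ)) S0 : Finset ℤ) := by
    intro l hl l' hl' hll
    simp only [coe_Icc, Set.mem_Icc] at hl hl'
    have h2 : ((l - l' : ℤ)) • j = 0 := by
      rw [zsmul_eq_mul]
      push_cast
      have h3 : (l : ZMod q) * j = (l' : ZMod q) * j := add_left_cancel hll
      rw [sub_mul, h3, sub_self]
    have h3 := (addOrderOf_dvd_iff_zsmul_eq_zero).mpr h2
    have h4 : l - l' = 0 := by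
      refine Int.eq_zero_of_abs_lt_dvd h3 ?_
      rw [abs_lt]
      omega
    omega
  have hsum : ∑ l ∈ Icc (-(S0 : ℤ)) S0, ‖E (x + (l : ZMod q) * j)‖ ≤ X * (2 * G.m φ) := by
    have h2 : ∑ l ∈ Icc (-(S0 : ℤ)) S0, ‖E (x + (l : ZMod q) * j)‖ =
        ∑ u ∈ (Icc (-(S0 : ℤ)) S0).image (fun l : ℤ => x + (l : ZMod q) * j), ‖E u‖ :=
      (sum_image (f := fun u => ‖E u‖) hinj).symm
    rw [h2]
    calc ∑ u ∈ (Icc (-(S0 : ℤ)) S0).image (fun l : ℤ => x + (l : ZMod q) * j), ‖E u‖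
        ≤ ∑ u ∈ G.J, ‖E u‖ := by
          rw [← sum_filter_add_sum_filter_not _ (fun u => u ∈ G.J)]
          have h3 : ∑ u ∈ ((Icc (-(S0 : ℤ)) S0).image
              (fun l : ℤ => x + (l : ZMod q) * j)).filter (fun u => ¬ u ∈ G.J), ‖E u‖ = 0 := by
            refine sum_eq_zero fun u hu => ?_
            rw [mem_filter] at hu
            rw [hE0 u hu.2, norm_zero]
          rw [h3, add_zero]
          refine sum_le_sum_of_subset_of_nonneg ?_ fun u _ _ => norm_nonneg _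
          intro u hu
          exact (mem_filter.mp hu).2
      _ ≤ ∑ u ∈ G.J, 2 * G.m φ := sum_le_sum fun u _ => hE2 u
      _ = G.J.card * (2 * G.m φ) := by rw [sum_const, nsmul_eq_mul]
      _ ≤ X * (2 * G.m φ) := by
          refine mul_le_mul_of_nonneg_right ?_ (by positivity)
          exact_mod_cast hX
  have hgn : ‖g‖ ≤ X * (2 * G.m φ) := (norm_sum_le _ _).trans hsum
  obtain ⟨c, hc, hcg⟩ := nci_phase g
  -- the error of replacing T by D
  have hpos := nci_pos (G.ψ φ) (G.w φ) (G.w_nonneg φ) R S' j x a c hc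
  set N : ℝ := ((R : ℝ) + 1) * (S' + 1) with hN
  set SD : ℂ := ∑ k ∈ Icc (-(R : ℤ)) R, ∑ l ∈ Icc (-(S' : ℤ)) S',
      (((R + 1 - |k| : ℤ) : ℝ) : ℂ) * (((S' + 1 - |l| : ℤ) : ℝ) : ℂ) * c ^ k *
        E ((k : ZMod q) * x + (l : ZMod q) * j) with hSD
  have herr : 0 ≤ SD.re + G.κ * G.m φ * N ^ 2 := by
    set ST : ℂ := ∑ k ∈ Icc (-(R : ℤ)) R, ∑ l ∈ Icc (-(S' : ℤ)) S',
      (((R + 1 - |k| : ℤ) : ℝ) : ℂ) * (((S' + 1 - |l| : ℤ) : ℝ) : ℂ) * c ^ k *
        (G.ψ φ (-(((k : ZMod q) * x + (l : ZMod q) * j) * a)) *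
          FT (G.ψ φ) (G.w φ) ((k : ZMod q) * x + (l : ZMod q) * j)) with hST
    have h2 : ‖ST - SD‖ ≤ G.κ * G.m φ * N ^ 2 := by
      rw [hST, hSD, ← sum_sub_distrib]
      have h3 : ∀ k ∈ Icc (-(R : ℤ)) R, ∀ l ∈ Icc (-(S' : ℤ)) S',
          ‖(((R + 1 - |k| : ℤ) : ℝ) : ℂ) * (((S' + 1 - |l| : ℤ) : ℝ) : ℂ) * c ^ k *
            (G.ψ φ (-(((k : ZMod q) * x + (l : ZMod q) * j) * a)) *
              FT (G.ψ φ) (G.w φ) ((k : ZMod q) * x + (l : ZMod q) * j)) -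
            (((R + 1 - |k| : ℤ) : ℝ) : ℂ) * (((S' + 1 - |l| : ℤ) : ℝ) : ℂ) * c ^ k *
              E ((k : ZMod q) * x + (l : ZMod q) * j)‖ ≤
            ((R + 1 - |k| : ℤ) : ℝ) * ((S' + 1 - |l| : ℤ) : ℝ) * (G.κ * G.m φ) := by
        intro k hk l hl
        have hk' : (0 : ℤ) ≤ R + 1 - |k| := by
          have := abs_le.mpr (mem_Icc.mp hk)
          omega
        have hl' : (0 : ℤ) ≤ S' + 1 - |l| := by
          have := abs_le.mpr (mem_Icc.mp hl)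
          omega
        have hk'' : (0 : ℝ) ≤ ((R + 1 - |k| : ℤ) : ℝ) := by exact_mod_cast hk'
        have hl'' : (0 : ℝ) ≤ ((S' + 1 - |l| : ℤ) : ℝ) := by exact_mod_cast hl'
        generalize (k : ZMod q) * x + (l : ZMod q) * j = u
        rw [← mul_sub, norm_mul, norm_mul, norm_mul, norm_zpow, hc, one_zpow, mul_one,
          Complex.norm_real, Complex.norm_real, Real.norm_of_nonneg hk'',
          Real.norm_of_nonneg hl'']
        refine mul_le_mul_of_nonneg_left ?_ (mul_nonneg hk'' hl'')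
        have h4 : G.ψ φ (-(u * a)) * FT (G.ψ φ) (G.w φ) u - E u =
            G.ψ φ (-(u * a)) * (G.T φ u - G.D φ u) := by
          simp only [hE, Fam.T]
          ring
        rw [h4, norm_mul, norm_psi, one_mul]
        exact G.near φ u
      calc ‖∑ k ∈ Icc (-(R : ℤ)) R, (∑ l ∈ Icc (-(S' : ℤ)) S',
          (((R + 1 - |k| : ℤ) : ℝ) : ℂ) * (((S' + 1 - |l| : ℤ) : ℝ) : ℂ) * c ^ k *
            (G.ψ φ (-(((k : ZMod q) * x + (l : ZMod q) * j) * a)) *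
              FT (G.ψ φ) (G.w φ) ((k : ZMod q) * x + (l : ZMod q) * j)) -
          ∑ l ∈ Icc (-(S' : ℤ)) S',
          (((R + 1 - |k| : ℤ) : ℝ) : ℂ) * (((S' + 1 - |l| : ℤ) : ℝ) : ℂ) * c ^ k *
            E ((k : ZMod q) * x + (l : ZMod q) * j))‖
          ≤ ∑ k ∈ Icc (-(R : ℤ)) R, ∑ l ∈ Icc (-(S' : ℤ)) S',
            ((R + 1 - |k| : ℤ) : ℝ) * ((S' + 1 - |l| : ℤ) : ℝ) * (G.κ * G.m φ) := by
            refine (norm_sum_le _ _).trans (sum_le_sum fun k hk => ?_)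
            rw [← sum_sub_distrib]
            exact (norm_sum_le _ _).trans (sum_le_sum fun l hl => h3 k hk l hl)
        _ = (∑ k ∈ Icc (-(R : ℤ)) R, ((R + 1 - |k| : ℤ) : ℝ)) *
            (∑ l ∈ Icc (-(S' : ℤ)) S', ((S' + 1 - |l| : ℤ) : ℝ)) * (G.κ * G.m φ) := by
            rw [sum_mul_sum, sum_mul]
            refine sum_congr rfl fun k _ => ?_
            rw [sum_mul]
        _ = G.κ * G.m φ * N ^ 2 := by
            rw [nci_weight, nci_weight, hN]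
            ring
    have h3 : (ST - SD).re ≤ G.κ * G.m φ * N ^ 2 := (Complex.re_le_norm _).trans h2
    rw [Complex.sub_re] at h3
    linarith
  -- evaluation of SD
  set I : ℤ → ℂ := fun k => ∑ l ∈ Icc (-(S' : ℤ)) S', (((S' + 1 - |l| : ℤ) : ℝ) : ℂ) *
      E ((k : ZMod q) * x + (l : ZMod q) * j) with hI
  have hSD2 : SD = ∑ k ∈ Icc (-(R : ℤ)) R, (((R + 1 - |k| : ℤ) : ℝ) : ℂ) * c ^ k * I k := by
    rw [hSD]
    refine sum_congr rfl fun k _ => ?_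
    simp only [hI]
    rw [mul_sum]
    refine sum_congr rfl fun l _ => ?_
    ring
  have hI0 : ∀ k : ℤ, 2 ≤ |k| → |k| ≤ R → I k = 0 := by
    intro k hk hk'
    simp only [hI]
    refine sum_eq_zero fun l hl => ?_
    rw [hE0 _ (hx k l hk hk' (abs_le.mpr (mem_Icc.mp hl))), mul_zero]
  have hSD3 : SD = (((R + 1 - |(-1 : ℤ)| : ℤ) : ℝ) : ℂ) * c ^ (-1 : ℤ) * I (-1) +
      (((R + 1 - |(0 : ℤ)| : ℤ) : ℝ) : ℂ) * c ^ (0 : ℤ) * I 0 +
      (((R + 1 - |(1 : ℤ)| : ℤ) : ℝ) : ℂ) * c ^ (1 : ℤ) * I 1 := by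
    rw [hSD2]
    exact nci_three (fun k : ℤ => (((R + 1 - |k| : ℤ) : ℝ) : ℂ) * c ^ k * I k) R hR1
      (fun k hk hk' => by rw [hI0 k hk hk', mul_zero])
  have hconjI : I (-1) = (starRingEnd ℂ) (I 1) := by
    simp only [hI]
    rw [map_sum, ← nci_sum_neg]
    refine sum_congr rfl fun l _ => ?_
    rw [map_mul, Complex.conj_ofReal, ← hEc, abs_neg]
    congr 2
    push_cast
    ring
  have hcinv : c ^ (-1 : ℤ) = (starRingEnd ℂ) c := by
    rw [zpow_neg_one]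
    have h2 : c * (starRingEnd ℂ) c = 1 := by
      rw [Complex.mul_conj, Complex.normSq_eq_norm_sq, hc]
      simp
    exact inv_eq_of_mul_eq_one_right h2
  have hI00 : I 0 = (((S' : ℝ) + 1 : ℝ) : ℂ) * E 0 + ((S' : ℝ) : ℂ) * (E j + (starRingEnd ℂ) (E j)) := by
    simp only [hI]
    rw [nci_three (fun l : ℤ => (((S' + 1 - |l| : ℤ) : ℝ) : ℂ) *
      E (((0 : ℤ) : ZMod q) * x + (l : ZMod q) * j)) S' hS1]
    · have e1 : ((0 : ℤ) : ZMod q) * x + ((-1 : ℤ) : ZMod q) * j = -j := by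
        push_cast
        ring
      have e2 : ((0 : ℤ) : ZMod q) * x + ((0 : ℤ) : ZMod q) * j = 0 := by
        push_cast
        ring
      have e3 : ((0 : ℤ) : ZMod q) * x + ((1 : ℤ) : ZMod q) * j = j := by
        push_cast
        ring
      rw [e1, e2, e3, hEc]
      simp only [abs_neg, abs_one, abs_zero]
      push_cast
      ring
    · intro l hl hl'
      have e1 : ((0 : ℤ) : ZMod q) * x + (l : ZMod q) * j = (l : ZMod q) * j := by
        push_cast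
        ring
      rw [e1, hE0 _ (hj l hl hl'), mul_zero]
  have hI1 : I 1 = ∑ l ∈ Icc (-(S0 : ℤ)) S0, (((S' + 1 - |l| : ℤ) : ℝ) : ℂ) *
      E (x + (l : ZMod q) * j) := by
    simp only [hI]
    have hsub : Icc (-(S0 : ℤ)) S0 ⊆ Icc (-(S' : ℤ)) S' := by
      intro l hl
      simp only [mem_Icc] at hl ⊢
      omega
    rw [← sum_subset hsub]
    · refine sum_congr rfl fun l _ => ?_
      push_cast
      rw [one_mul]
    · intro l hl hl'
      have h2 : (S0 : ℤ) < |l| := by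
        by_contra h
        apply hl'
        rw [mem_Icc]
        exact abs_le.mp (not_lt.mp h)
      have h3 : |l| ≤ S' := abs_le.mpr (mem_Icc.mp hl)
      have h4 : ((1 : ℤ) : ZMod q) * x + (l : ZMod q) * j = x + (l : ZMod q) * j := by
        push_cast
        rw [one_mul]
      rw [h4, hE0 _ (hw l h2 h3), mul_zero]
  set h : ℂ := ∑ l ∈ Icc (-(S0 : ℤ)) S0, (((|l| : ℤ) : ℝ) : ℂ) * E (x + (l : ZMod q) * j) with hh
  have hI1' : I 1 = (((S' : ℝ) + 1 : ℝ) : ℂ) * g - h := by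
    rw [hI1, hg, hh, mul_sum, ← sum_sub_distrib]
    refine sum_congr rfl fun l _ => ?_
    push_cast
    ring
  have hhn : ‖h‖ ≤ S0 * (X * (2 * G.m φ)) := by
    calc ‖h‖ ≤ ∑ l ∈ Icc (-(S0 : ℤ)) S0, S0 * ‖E (x + (l : ZMod q) * j)‖ := by
          refine (norm_sum_le _ _).trans (sum_le_sum fun l hl => ?_)
          rw [norm_mul]
          refine mul_le_mul_of_nonneg_right ?_ (norm_nonneg _)
          have h2 : |l| ≤ S0 := abs_le.mpr (mem_Icc.mp hl)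
          rw [Complex.norm_real, Real.norm_of_nonneg (by exact_mod_cast abs_nonneg l)]
          exact_mod_cast h2
      _ = S0 * ∑ l ∈ Icc (-(S0 : ℤ)) S0, ‖E (x + (l : ZMod q) * j)‖ := by rw [mul_sum]
      _ ≤ S0 * (X * (2 * G.m φ)) := mul_le_mul_of_nonneg_left hsum hS0n
  have hre : SD.re = (R + 1) * ((S' + 1) * (E 0).re + 2 * S' * (E j).re) +
      2 * R * (c * I 1).re := by
    rw [hSD3, hconjI, hcinv, hI00]
    simp only [abs_neg, abs_one, abs_zero, zpow_zero, zpow_one]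
    push_cast
    simp only [Complex.add_re, Complex.mul_re, Complex.mul_im, Complex.conj_re, Complex.conj_im,
      Complex.add_im, Complex.sub_re, Complex.sub_im, Complex.natCast_re, Complex.natCast_im,
      Complex.one_re, Complex.one_im, Complex.zero_re, Complex.zero_im]
    ring
  have hcI : (c * I 1).re ≤ -((S' + 1) * ‖g‖) + ‖h‖ := by
    have h2 : c * I 1 = ((-(((S' : ℝ) + 1) * ‖g‖) : ℝ) : ℂ) - c * h := by
      rw [hI1', mul_sub]
      congr 1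
      calc c * ((((S' : ℝ) + 1 : ℝ) : ℂ) * g) = (((S' : ℝ) + 1 : ℝ) : ℂ) * (c * g) := by ring
        _ = _ := by
          rw [hcg]
          push_cast
          ring
    rw [h2, Complex.sub_re, Complex.ofReal_re]
    have h3 : -(c * h).re ≤ ‖h‖ := by
      have h4 := (abs_le.mp (Complex.abs_re_le_norm (c * h))).1
      rw [norm_mul, hc, one_mul] at h4
      linarith
    linarith
  have hE00 : (E 0).re ≤ (1 + G.κ) * G.m φ := by
    have h2 := (abs_le.mp (G.abs_m_sub_le φ)).1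
    have h3 : E 0 = G.D φ 0 := by
      simp only [hE, zero_mul, neg_zero, AddChar.map_zero_eq_one, mul_one]
    rw [h3]
    linarith
  have hEj : |(E j).re| ≤ 2 * G.m φ := (Complex.abs_re_le_norm _).trans (hE2 j)
  have hEj' := abs_le.mp hEj
  -- conclusion
  have f1 : 0 ≤ ((R : ℝ) + 1) * ((S' + 1) * (E 0).re + 2 * S' * (E j).re) +
      2 * R * (-((S' + 1) * ‖g‖) + ‖h‖) + G.κ * G.m φ * (((R : ℝ) + 1) * (S' + 1)) ^ 2 := by
    have := mul_le_mul_of_nonneg_left hcI (by positivity : (0 : ℝ) ≤ 2 * R)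
    rw [hre] at herr
    linarith
  exact nci_arith (G.m φ) G.κ ε1 X S0 R S' (E 0).re (E j).re ‖g‖ ‖h‖ hm hXn hS0n
    (Nat.cast_nonneg R) (Nat.cast_nonneg S') hR hS' hκ hE00 hEj'.1 hgn hhn (norm_nonneg _) f1

end Pool.Agent.CYC
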