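import Mathlib
import Pool.Agent.Lib.MP_8ca0c8_nt_CYC2.Defs

/-! Project CYC2 (MP_8ca0c8_nt), module SQRT. -/

namespace Pool.Agent.CYC

open Finset

theorem sqin_phase (Y : ℂ) : ∃ e : ℂ, ‖e‖ = 1 ∧ e * Y = -(‖Y‖ : ℂ) := by
  by_cases hY : Y = 0
  · exact ⟨1, by simp, by simp [hY]⟩
  · have h0 : (‖Y‖ : ℝ) ≠ 0 := norm_ne_zero_iff.2 hY
    have h0' : ((‖Y‖ : ℝ) : ℂ) ≠ 0 := by exact_mod_cast h0
    refine ⟨-(starRingEnd ℂ) Y / ((‖Y‖ : ℝ) : ℂ), ?_, ?_⟩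
    · rw [norm_div, norm_neg, Complex.norm_conj, Complex.norm_real, norm_norm, div_self h0]
    · have h1 : (starRingEnd ℂ) Y * Y = ((‖Y‖ : ℝ) : ℂ) ^ 2 := by
        rw [mul_comm]
        exact Complex.mul_conj' Y
      have h2 : -(starRingEnd ℂ) Y / ((‖Y‖ : ℝ) : ℂ) * Y =
          -((starRingEnd ℂ) Y * Y) / ((‖Y‖ : ℝ) : ℂ) := by ring
      rw [h2, h1]
      field_simp

theorem sqin_rot {A B z : ℂ} (hz : ‖z‖ = 1) : ‖z * A + B‖ = ‖A + (starRingEnd ℂ) z * B‖ := by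
  have h1 : z * (starRingEnd ℂ) z = 1 := by
    rw [Complex.mul_conj', hz]
    norm_num
  have h2 : z * A + B = z * (A + (starRingEnd ℂ) z * B) := by
    linear_combination (-B) * h1
  rw [h2, norm_mul, hz, one_mul]

theorem sqrt_ineq (m' : ℝ) (A B Y : ℂ)
    (h : ∀ z : ℂ, ‖z‖ = 1 → ‖A + (starRingEnd ℂ) z * B‖ ≤ m' + 2 * (z * Y).re) :
    4 * ‖Y‖ ^ 2 + ‖A‖ ^ 2 ≤ m' ^ 2 := by
  have hm : 0 ≤ m' := by
    have h1 := h 1 (by simp)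
    have h2 := h (-1) (by simp)
    have h3 := norm_nonneg (A + (starRingEnd ℂ) 1 * B)
    have h4 := norm_nonneg (A + (starRingEnd ℂ) (-1) * B)
    simp only [one_mul, neg_mul, Complex.neg_re] at h1 h2
    linarith
  by_cases h0 : 4 * ‖Y‖ ^ 2 + ‖A‖ ^ 2 = 0
  · rw [h0]
    positivity
  have hpos : 0 < 4 * ‖Y‖ ^ 2 + ‖A‖ ^ 2 := lt_of_le_of_ne (by positivity) (Ne.symm h0)
  set r : ℝ := Real.sqrt (4 * ‖Y‖ ^ 2 + ‖A‖ ^ 2) with hr
  have hr0 : 0 < r := Real.sqrt_pos.2 hpos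
  have hr2 : r ^ 2 = 4 * ‖Y‖ ^ 2 + ‖A‖ ^ 2 := Real.sq_sqrt hpos.le
  obtain ⟨e, he, heY⟩ := sqin_phase Y
  set c : ℝ := 2 * ‖Y‖ / r with hc
  set s : ℝ := ‖A‖ / r with hs
  have hcs : c ^ 2 + s ^ 2 = 1 := by
    rw [hc, hs]
    field_simp
    rw [hr2]
    ring
  have hs0 : 0 ≤ s := by positivity
  have hn1 : ‖e * ((c : ℂ) + (s : ℂ) * Complex.I)‖ = 1 := by
    rw [norm_mul, he, one_mul, Complex.norm_add_mul_I, hcs, Real.sqrt_one]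
  have hn2 : ‖e * ((c : ℂ) + ((-s : ℝ) : ℂ) * Complex.I)‖ = 1 := by
    rw [norm_mul, he, one_mul, Complex.norm_add_mul_I, neg_sq, hcs, Real.sqrt_one]
  have hre : ∀ t : ℝ, (e * ((c : ℂ) + (t : ℂ) * Complex.I) * Y).re = -(‖Y‖ * c) := by
    intro t
    have h1 : e * ((c : ℂ) + (t : ℂ) * Complex.I) * Y =
        ((c : ℂ) + (t : ℂ) * Complex.I) * (e * Y) := by ring
    rw [h1, heY]
    simp
    ring
  have e1 := h _ hn1
  have e2 := h _ hn2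
  rw [hre, ← sqin_rot hn1] at e1
  rw [hre, ← sqin_rot hn2] at e2
  have e3 : ‖(e * ((c : ℂ) + (s : ℂ) * Complex.I) * A + B) -
      (e * ((c : ℂ) + ((-s : ℝ) : ℂ) * Complex.I) * A + B)‖ = 2 * s * ‖A‖ := by
    have h1 : (e * ((c : ℂ) + (s : ℂ) * Complex.I) * A + B) -
      (e * ((c : ℂ) + ((-s : ℝ) : ℂ) * Complex.I) * A + B) =
        e * (((2 * s : ℝ) : ℂ) * Complex.I) * A := by
      push_cast
      ring
    rw [h1, norm_mul, norm_mul, norm_mul, he, Complex.norm_I, Complex.norm_real, Real.norm_eq_abs,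
      abs_of_nonneg (by positivity)]
    ring
  have e4 := norm_sub_le (e * ((c : ℂ) + (s : ℂ) * Complex.I) * A + B)
    (e * ((c : ℂ) + ((-s : ℝ) : ℂ) * Complex.I) * A + B)
  rw [e3] at e4
  have e5 : r ≤ m' := by
    have h1 : 2 * ‖Y‖ * c + ‖A‖ * s = r := by
      rw [hc, hs]
      field_simp
      rw [hr2]
      ring
    nlinarith
  rw [← hr2]
  exact pow_le_pow_left₀ hr0.le e5 2

end Pool.Agent.CYC
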