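import Mathlib
import Pool.Agent.Lib.MP_8ca0c8_nt_CYC2.CConcl
import Pool.Agent.Lib.MP_8ca0c8_nt_CYC2.AuxThree

/-! Project CYC2 (MP_8ca0c8_nt), module THREE: three frequencies. -/

namespace Pool.Agent.CYC

open Finset

theorem three_alg (e x m m0 : ℝ) (he : 0 ≤ e) (he1 : e ≤ 1) (hm : 0 < m)
    (h1 : m0 ≤ (1 + e / 4) * m) (h2 : (1 - e / 4) * m ≤ m0) (hx : 0 ≤ x)
    (h3 : 2 * x ≤ (1 + e / 4) * m) : 4 * x ^ 2 + |m0 ^ 2 - 4 * x ^ 2| ≤ ((1 + e) * m) ^ 2 := by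
  have hm0 : 0 ≤ m0 := by
    have : 0 ≤ (1 - e / 4) * m := mul_nonneg (by linarith) hm.le
    linarith
  have hx2 : 4 * x ^ 2 ≤ ((1 + e / 4) * m) ^ 2 := by
    have := pow_le_pow_left₀ (by linarith : (0 : ℝ) ≤ 2 * x) h3 2
    nlinarith [this]
  have hm1 : m0 ^ 2 ≤ ((1 + e / 4) * m) ^ 2 := pow_le_pow_left₀ hm0 h1 2
  have hm2 : ((1 - e / 4) * m) ^ 2 ≤ m0 ^ 2 :=
    pow_le_pow_left₀ (mul_nonneg (by linarith) hm.le) h2 2
  have hmm : 0 < m ^ 2 := by positivity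
  rcases le_total (4 * x ^ 2) (m0 ^ 2) with h | h
  · rw [abs_of_nonneg (by linarith)]
    have : ((1 + e / 4) * m) ^ 2 ≤ ((1 + e) * m) ^ 2 := by
      apply pow_le_pow_left₀ (mul_nonneg (by linarith) hm.le)
      exact mul_le_mul_of_nonneg_right (by linarith) hm.le
    linarith
  · rw [abs_of_nonpos (by linarith)]
    have h5 : 2 * ((1 + e / 4) * m) ^ 2 - ((1 - e / 4) * m) ^ 2 ≤ ((1 + e) * m) ^ 2 := by
      have h6 : ((1 + e) * m) ^ 2 - (2 * ((1 + e / 4) * m) ^ 2 - ((1 - e / 4) * m) ^ 2)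
          = (e / 2 + 15 / 16 * e ^ 2) * m ^ 2 := by ring
      have h7 : 0 ≤ (e / 2 + 15 / 16 * e ^ 2) * m ^ 2 := by positivity
      linarith
    linarith

theorem three_case (ε : ℝ) (hε : 0 < ε) : ∃ ε1 : ℝ, 0 < ε1 ∧ ε1 ≤ 1 ∧
    ∀ {Ω : Type} [Fintype Ω] [Nonempty Ω] {q : ℕ} [NeZero q] {Rg : IRing Ω} (G : BFam Ω q Rg)
      (y : ZMod q), G.κ ≤ ε1 → y ∈ G.J → y ≠ 0 → y ≠ -y → G.J ⊆ {0, y, -y} →
      (∀ φ, 2 * ‖G.D φ y‖ ≤ (1 + ε1) * G.m φ) →
      (5 / 2 - ε) * Fintype.card Ω ≤ ∑ φ, G.m φ ∨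
      ∀ a ∈ G.S, ∃ x ∈ Rg.A, ∀ φ, ‖x φ‖ = 1 ∧
        (G.f φ a : ℂ) = 2 + x φ + (starRingEnd ℂ) (x φ) := by
  obtain ⟨e, he0, he1, hc⟩ := c_concl ε hε
  refine ⟨min (e / 4) (2 * ε / 5), by positivity, (min_le_left _ _).trans (by linarith), ?_⟩
  intro Ω _ _ q _ Rg G y hκ hyJ hy0 hyn hJ hF
  classical
  have hl1 : min (e / 4) (2 * ε / 5) ≤ e / 4 := min_le_left _ _
  have hl2 : min (e / 4) (2 * ε / 5) ≤ 2 * ε / 5 := min_le_right _ _
  set e1 := min (e / 4) (2 * ε / 5) with he1def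
  have he1pos : 0 < e1 := by rw [he1def]; positivity
  have hκe : G.κ ≤ e / 4 := hκ.trans hl1
  have hκ1 : G.κ < 1 := by linarith
  have hm : ∀ φ, 0 < G.m φ := fun φ => G.m_pos φ
  have hm0 : ∀ φ, 0 < (G.D φ 0).re := fun φ => G.D_zero_pos hκ1 φ
  have hup : ∀ φ, (G.D φ 0).re ≤ (1 + e1) * G.m φ := by
    intro φ
    have h1 := abs_le.mp (G.abs_m_sub_le φ)
    have h2 : G.κ * G.m φ ≤ e1 * G.m φ := mul_le_mul_of_nonneg_right hκ (hm φ).le
    linarith [h1.1]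
  have hup4 : ∀ φ, (G.D φ 0).re ≤ (1 + e / 4) * G.m φ := by
    intro φ
    have h2 : (1 + e1) * G.m φ ≤ (1 + e / 4) * G.m φ :=
      mul_le_mul_of_nonneg_right (by linarith) (hm φ).le
    linarith [hup φ]
  have hlow : ∀ φ, (1 - e / 4) * G.m φ ≤ (G.D φ 0).re := by
    intro φ
    have h1 := abs_le.mp (G.abs_m_sub_le φ)
    have h2 : G.κ * G.m φ ≤ e / 4 * G.m φ := mul_le_mul_of_nonneg_right hκe (hm φ).le
    linarith [h1.2]
  have hF4 : ∀ φ, 2 * ‖G.D φ y‖ ≤ (1 + e / 4) * G.m φ := by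
    intro φ
    have h2 : (1 + e1) * G.m φ ≤ (1 + e / 4) * G.m φ :=
      mul_le_mul_of_nonneg_right (by linarith) (hm φ).le
    linarith [hF φ]
  have hX : ∀ φ, G.D φ y * G.D φ (-y) = ((‖G.D φ y‖ ^ 2 : ℝ) : ℂ) := by
    intro φ
    rw [G.hconj, Complex.mul_conj, Complex.normSq_eq_norm_sq]
  have hD0A := G.hD 0
  have hXA : (fun φ => G.D φ y * G.D φ (-y)) ∈ Rg.A := Rg.A.mul_mem (G.hD y) (G.hD (-y))
  have h4XA : (fun φ => 4 * (G.D φ y * G.D φ (-y))) ∈ Rg.A := by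
    have h4 : ((4 : ℕ) : Ω → ℂ) ∈ Rg.A := natCast_mem Rg.A 4
    have h5 : (fun φ => 4 * (G.D φ y * G.D φ (-y))) =
        ((4 : ℕ) : Ω → ℂ) * (fun φ => G.D φ y * G.D φ (-y)) := by
      funext φ
      simp
    rw [h5]
    exact Rg.A.mul_mem h4 hXA
  have hΔA : (fun φ => (G.D φ 0) ^ 2 - 4 * (G.D φ y * G.D φ (-y))) ∈ Rg.A := by
    have h5 : (fun φ => (G.D φ 0) ^ 2 - 4 * (G.D φ y * G.D φ (-y))) =
        (fun φ => G.D φ 0) ^ 2 - (fun φ => 4 * (G.D φ y * G.D φ (-y))) := by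
      funext φ
      simp
    rw [h5]
    exact Rg.A.sub_mem (Rg.A.pow_mem hD0A 2) h4XA
  have hΔr : ∀ φ, (G.D φ 0) ^ 2 - 4 * (G.D φ y * G.D φ (-y)) =
      (((G.D φ 0).re ^ 2 - 4 * ‖G.D φ y‖ ^ 2 : ℝ) : ℂ) := by
    intro φ
    rw [hX φ]
    conv_lhs => rw [G.D_zero_eq φ]
    push_cast
    ring
  by_cases hΔ : (fun φ => (G.D φ 0) ^ 2 - 4 * (G.D φ y * G.D φ (-y))) = 0
  · -- Δ = 0
    have hΔ' : ∀ φ, (G.D φ 0).re ^ 2 = 4 * ‖G.D φ y‖ ^ 2 := by
      intro φ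
      have h1 := congrFun hΔ φ
      simp only [Pi.zero_apply] at h1
      rw [hΔr φ] at h1
      have h2 : (G.D φ 0).re ^ 2 - 4 * ‖G.D φ y‖ ^ 2 = 0 := by exact_mod_cast h1
      linarith
    set z : Ω → ℂ := fun φ => G.D φ 0 / 2 with hz
    have hzr : ∀ φ, z φ = (((G.D φ 0).re / 2 : ℝ) : ℂ) := by
      intro φ
      rw [hz]
      simp only
      rw [G.D_zero_eq φ]
      push_cast
      simp
    have hz2 : z ^ 2 = (fun φ => G.D φ y * G.D φ (-y)) := by
      funext φ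
      rw [Pi.pow_apply, hzr φ, hX φ]
      have : ((G.D φ 0).re / 2) ^ 2 = ‖G.D φ y‖ ^ 2 := by
        have := hΔ' φ
        linarith [this]
      exact_mod_cast this
    have h2z : 2 * z = (fun φ => G.D φ 0) := by
      funext φ
      simp only [Pi.mul_apply, hz]
      change (2 : ℂ) * (G.D φ 0 / 2) = G.D φ 0
      ring
    have hzA : z ∈ Rg.A := Rg.hsq z (by rw [hz2]; exact hXA) (by rw [h2z]; exact hD0A)
    have hz1A : z - 1 ∈ Rg.A := Rg.A.sub_mem hzA Rg.A.one_mem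
    by_cases hz1 : z - 1 = 0
    · right
      have hzone : ∀ φ, (G.D φ 0).re = 2 := by
        intro φ
        have h1 := congrFun hz1 φ
        simp only [Pi.sub_apply, Pi.one_apply, Pi.zero_apply] at h1
        rw [hzr φ] at h1
        have h2 : (G.D φ 0).re / 2 - 1 = 0 := by exact_mod_cast h1
        linarith
      have hDy : ∀ φ, ‖G.D φ y‖ = 1 := by
        intro φ
        have h1 := hΔ' φ
        rw [hzone φ] at h1
        have h2 : ‖G.D φ y‖ ^ 2 = 1 := by linarith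
        exact (pow_eq_one_iff_of_nonneg (norm_nonneg _) (by norm_num)).mp h2
      intro a ha
      refine ⟨fun φ => G.D φ y * G.ψ φ (-(y * a)), Rg.A.mul_mem (G.hD y) (G.hψA _), ?_⟩
      intro φ
      constructor
      · simp only
        rw [norm_mul, hDy, norm_psi, one_mul]
      · rw [G.hfD φ a ha]
        have hsub : ∀ u, u ∉ ({0, y, -y} : Finset (ZMod q)) → G.D φ u * G.ψ φ (-(u * a)) = 0 := by
          intro u hu
          rw [G.hD0 u (fun h => hu (hJ h)) φ, zero_mul]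
        rw [← Finset.sum_subset (Finset.subset_univ ({0, y, -y} : Finset (ZMod q)))
          (fun u _ hu => hsub u hu)]
        have hn1 : (0 : ZMod q) ∉ ({y, -y} : Finset (ZMod q)) := by
          simp only [Finset.mem_insert, Finset.mem_singleton, not_or]
          refine ⟨fun h => hy0 h.symm, fun h => hy0 ?_⟩
          have := congrArg Neg.neg h
          simpa using this.symm
        have hn2 : y ∉ ({-y} : Finset (ZMod q)) := by
          simpa using hyn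
        rw [Finset.sum_insert hn1, Finset.sum_insert hn2, Finset.sum_singleton]
        rw [zero_mul, neg_zero, AddChar.map_zero_eq_one, mul_one, G.D_zero_eq φ, hzone φ]
        simp only [map_mul]
        rw [← G.hconj φ y, ← AddChar.map_neg_eq_conj, neg_mul]
        push_cast
        ring
    · left
      have hA1 := Rg.hA _ hz1A hz1
      have hzne : z ≠ 0 := by
        intro h
        obtain ⟨φ⟩ := ‹Nonempty Ω›
        have h1 := congrFun h φ
        rw [hzr φ, Pi.zero_apply] at h1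
        have h2 : (G.D φ 0).re / 2 = 0 := by exact_mod_cast h1
        linarith [hm0 φ]
      have hA2 := Rg.hA _ hzA hzne
      have haux : ∀ φ, 5 / 4 + Real.log ‖z φ‖ + 1 / 2 * Real.log ‖(z - 1) φ‖ ≤
          (G.D φ 0).re / 2 := by
        intro φ
        have hne : (G.D φ 0).re / 2 ≠ 1 := by
          intro h
          apply hA1.1 φ
          simp only [Pi.sub_apply, Pi.one_apply]
          rw [hzr φ, h]
          simp
        have h1 := aux3 ((G.D φ 0).re / 2) (by linarith [hm0 φ]) hne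
        have h2 : ‖z φ‖ = (G.D φ 0).re / 2 := by
          rw [hzr φ, Complex.norm_real, Real.norm_eq_abs, abs_of_pos (by linarith [hm0 φ])]
        have h3 : ‖(z - 1) φ‖ = |(G.D φ 0).re / 2 - 1| := by
          simp only [Pi.sub_apply, Pi.one_apply]
          rw [hzr φ, ← Complex.ofReal_one, ← Complex.ofReal_sub, Complex.norm_real,
            Real.norm_eq_abs]
        rw [h2, h3]
        exact h1
      have hsum := Finset.sum_le_sum (fun φ (_ : φ ∈ Finset.univ) => haux φ)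
      simp only [Finset.sum_add_distrib, ← Finset.mul_sum, Finset.sum_const, Finset.card_univ,
        nsmul_eq_mul] at hsum
      have hs2 : ∑ φ, (G.D φ 0).re / 2 = (∑ φ, (G.D φ 0).re) / 2 := by
        rw [Finset.sum_div]
      have hs3 : ∑ φ, (G.D φ 0).re ≤ (1 + e1) * ∑ φ, G.m φ := by
        rw [Finset.mul_sum]
        exact Finset.sum_le_sum fun φ _ => hup φ
      have hs4 : (5 / 2 : ℝ) * Fintype.card Ω ≤ (1 + e1) * ∑ φ, G.m φ := by
        rw [hs2] at hsum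
        linarith [hA1.2, hA2.2]
      have hcard : (0 : ℝ) ≤ Fintype.card Ω := Nat.cast_nonneg _
      have hs5 : (1 + e1) * ((5 / 2 - ε) * Fintype.card Ω) ≤ (5 / 2 : ℝ) * Fintype.card Ω := by
        have h6 : (1 + e1) * (5 / 2 - ε) ≤ 5 / 2 := by nlinarith
        calc (1 + e1) * ((5 / 2 - ε) * Fintype.card Ω)
            = ((1 + e1) * (5 / 2 - ε)) * Fintype.card Ω := by ring
          _ ≤ 5 / 2 * Fintype.card Ω := mul_le_mul_of_nonneg_right h6 hcard
      exact le_of_mul_le_mul_left (hs5.trans hs4) (by linarith)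
  · -- Δ ≠ 0
    left
    have hA := Rg.hA _ hΔA hΔ
    have hne : ∀ φ, (G.D φ 0).re ^ 2 - 4 * ‖G.D φ y‖ ^ 2 ≠ 0 := by
      intro φ h
      apply hA.1 φ
      rw [hΔr φ, h]
      simp
    have hlog : 0 ≤ ∑ φ, Real.log |(G.D φ 0).re ^ 2 - 4 * ‖G.D φ y‖ ^ 2| := by
      have h1 := hA.2
      refine h1.trans (le_of_eq ?_)
      refine Finset.sum_congr rfl fun φ _ => ?_
      rw [hΔr φ, Complex.norm_real, Real.norm_eq_abs]
    refine hc G (by linarith) (fun φ => ‖G.D φ y‖)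
      (fun φ => Real.sqrt |(G.D φ 0).re ^ 2 - 4 * ‖G.D φ y‖ ^ 2|) ?_ ?_ ?_ ?_ ?_
    · intro φ
      exact norm_pos_iff.mpr (G.hDJ y hyJ φ)
    · intro φ
      exact Real.sqrt_pos.mpr (abs_pos.mpr (hne φ))
    · exact G.log_D hyJ
    · have h1 : ∀ φ, Real.log (Real.sqrt |(G.D φ 0).re ^ 2 - 4 * ‖G.D φ y‖ ^ 2|) =
          Real.log |(G.D φ 0).re ^ 2 - 4 * ‖G.D φ y‖ ^ 2| / 2 := by
        intro φ
        exact Real.log_sqrt (abs_nonneg _)
      simp only [h1, ← Finset.sum_div]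
      linarith
    · intro φ
      rw [Real.sq_sqrt (abs_nonneg _)]
      exact three_alg e ‖G.D φ y‖ (G.m φ) (G.D φ 0).re he0.le he1 (hm φ) (hup4 φ) (hlow φ)
        (norm_nonneg _) (hF4 φ)

end Pool.Agent.CYC
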