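import Mathlib
import Pool.Agent.Lib.MP_8ca0c8_nt_CYC2.Defs

/-! Project CYC2 (MP_8ca0c8_nt), module WINDOW: a free window. -/

namespace Pool.Agent.CYC

open Finset

theorem window_aux {q : ℕ} [NeZero q] (X : ℕ) (s : ℕ → ℕ)
    (hs : StrictMono s) (j x : ZMod q) (hord : 2 * s (X + 1) < addOrderOf j)
    (i k : ℕ) (hik : i < k) (hk : k ≤ X) (a b : ℤ)
    (ha' : |a| ≤ s (i + 1)) (hb : (s k : ℤ) < |b|) (hb' : |b| ≤ s (k + 1))
    (h : x + (a : ZMod q) * j = x + (b : ZMod q) * j) : False := by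
  have h1 : (a : ZMod q) * j = (b : ZMod q) * j := add_left_cancel h
  have h2 : (b - a) • j = 0 := by
    rw [zsmul_eq_mul, Int.cast_sub, sub_mul, h1, sub_self]
  rw [← addOrderOf_dvd_iff_zsmul_eq_zero] at h2
  have h3 : (s (i + 1) : ℤ) ≤ s k := by
    exact_mod_cast hs.monotone (by omega)
  have h4 : (s (k + 1) : ℤ) ≤ s (X + 1) := by
    exact_mod_cast hs.monotone (by omega)
  have h5 : |a| < |b| := lt_of_le_of_lt (ha'.trans h3) hb
  have h6 : b - a ≠ 0 := by
    intro h0
    have : b = a := by linarith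
    rw [this] at h5
    exact lt_irrefl _ h5
  have h7 : (addOrderOf j : ℤ) ≤ |b - a| := by
    have := Int.le_of_dvd (abs_pos.mpr h6) ((dvd_abs _ _).mpr h2)
    exact this
  have h8 : |b - a| ≤ |b| + |a| := abs_sub b a
  have h9 : (2 * s (X + 1) : ℤ) < addOrderOf j := by exact_mod_cast hord
  linarith

theorem window {q : ℕ} [NeZero q] (J : Finset (ZMod q)) (X : ℕ) (hX : J.card ≤ X) (s : ℕ → ℕ)
    (hs : StrictMono s) (j x : ZMod q) (hord : 2 * s (X + 1) < addOrderOf j) :
    ∃ i ≤ X, ∀ l : ℤ, (s i : ℤ) < |l| → |l| ≤ s (i + 1) → x + (l : ZMod q) * j ∉ J := by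
  by_contra hcon
  push Not at hcon
  have hex : ∀ i, ∃ l : ℤ, i ≤ X → ((s i : ℤ) < |l| ∧ |l| ≤ s (i + 1) ∧
      x + (l : ZMod q) * j ∈ J) := by
    intro i
    by_cases hi : i ≤ X
    · obtain ⟨l, h1, h2, h3⟩ := hcon i hi
      exact ⟨l, fun _ => ⟨h1, h2, h3⟩⟩
    · exact ⟨0, fun h => absurd h hi⟩
  choose l hl using hex
  have hmap : ∀ i ∈ (range (X + 1) : Finset ℕ), x + (l i : ZMod q) * j ∈ J := by
    intro i hi
    exact (hl i (by simp only [mem_range] at hi; omega)).2.2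
  have hinj : Set.InjOn (fun i => x + (l i : ZMod q) * j) (range (X + 1) : Finset ℕ) := by
    intro i hi k hk h
    simp only [coe_range, Set.mem_Iio] at hi hk
    have hi' : i ≤ X := by omega
    have hk' : k ≤ X := by omega
    rcases lt_trichotomy i k with hlt | heq | hgt
    · exact (window_aux X s hs j x hord i k hlt hk' (l i) (l k) (hl i hi').2.1 (hl k hk').1
        (hl k hk').2.1 h).elim
    · exact heq
    · exact (window_aux X s hs j x hord k i hgt hi' (l k) (l i) (hl k hk').2.1 (hl i hi').1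
        (hl i hi').2.1 h.symm).elim
  have hc := Finset.card_le_card_of_injOn _ hmap hinj
  rw [card_range] at hc
  omega

end Pool.Agent.CYC
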