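import Mathlib
import Pool.Agent.Lib.MP_8ca0c8_nt_CYC2.NCChain
import Pool.Agent.Lib.MP_8ca0c8_nt_CYC2.Window
import Pool.Agent.Lib.MP_8ca0c8_nt_CYC2.NCIneq
import Pool.Agent.Lib.MP_8ca0c8_nt_CYC2.NCConcl
import Pool.Agent.Lib.MP_8ca0c8_nt_CYC2.Geo
import Pool.Agent.Lib.MP_8ca0c8_nt_CYC2.CIneq
import Pool.Agent.Lib.MP_8ca0c8_nt_CYC2.SqrtIneq
import Pool.Agent.Lib.MP_8ca0c8_nt_CYC2.CConcl
import Pool.Agent.Lib.MP_8ca0c8_nt_CYC2.Three
import Pool.Agent.Lib.MP_8ca0c8_nt_CYC2.Fej2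
import Pool.Agent.Lib.MP_8ca0c8_nt_CYC.Chain

/-! Project CYC2 (MP_8ca0c8_nt), module BST: the theorem for bounded support. -/

namespace Pool.Agent.CYC

open Finset

section aux

variable {Ω : Type} [Fintype Ω] [Nonempty Ω] {q : ℕ} [NeZero q] {Rg : IRing Ω} (G : BFam Ω q Rg)

/-- negating an element outside `J` -/
theorem bst_neg {x : ZMod q} (h : x ∉ G.J) : -x ∉ G.J := fun h' => h (by
  have := G.neg_mem h'
  rwa [neg_neg] at this)

/-- from natural to integral multiples -/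
theorem bst_int {j : ZMod q} {R1 S : ℕ} (hRS : S ≤ R1)
    (h : ∀ r : ℕ, 2 ≤ r → r ≤ R1 → (r : ZMod q) * j ∉ G.J) (l : ℤ) (h2 : 2 ≤ |l|)
    (hS : |l| ≤ S) : (l : ZMod q) * j ∉ G.J := by
  have h3 : (l.natAbs : ℤ) = |l| := Int.natCast_natAbs l
  have h4 := h l.natAbs (by omega) (by omega)
  rcases Int.natAbs_eq l with h5 | h5
  · rw [h5]
    push_cast
    simpa using h4
  · rw [h5]
    have := bst_neg G h4
    push_cast
    rw [neg_mul]
    simpa using this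

theorem bst_int2 {j x : ZMod q} {R S : ℕ}
    (h : ∀ (r : ℕ) (s : ℤ), 2 ≤ r → r ≤ R → |s| ≤ S → (r : ZMod q) * x + (s : ZMod q) * j ∉ G.J)
    (k l : ℤ) (h2 : 2 ≤ |k|) (hR : |k| ≤ R) (hS : |l| ≤ S) :
    (k : ZMod q) * x + (l : ZMod q) * j ∉ G.J := by
  have h3 : (k.natAbs : ℤ) = |k| := Int.natCast_natAbs k
  rcases Int.natAbs_eq k with h5 | h5
  · have h4 := h k.natAbs l (by omega) (by omega) hS
    rw [h5]
    push_cast
    simpa using h4
  · have h4 := h k.natAbs (-l) (by omega) (by omega) (by rwa [abs_neg])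
    have := bst_neg G h4
    rw [h5]
    push_cast at this ⊢
    rw [neg_add, neg_mul, neg_neg] at this
    rw [neg_mul]
    simpa using this

end aux

/-- the incommensurable case -/
theorem bst_nc (ε : ℝ) (hε : 0 < ε) (X0 : ℕ) : ∃ (P1 R1 B : ℕ) (κ0 : ℝ), 1 ≤ P1 ∧ 2 ≤ R1 ∧
    0 < κ0 ∧
    ∀ {Ω : Type} [Fintype Ω] [Nonempty Ω] {q : ℕ} [NeZero q] {Rg : IRing Ω} (G : BFam Ω q Rg)
      (j x : ZMod q), G.κ ≤ κ0 → G.J.card ≤ X0 → j ∈ G.J → x ∈ G.J → B < addOrderOf j →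
      (∀ r : ℕ, 2 ≤ r → r ≤ R1 → (r : ZMod q) * j ∉ G.J) →
      (∀ (P : ℕ) (s : ℤ), 1 ≤ P → P ≤ P1 → |s| ≤ P1 → (P : ZMod q) * x ≠ (s : ZMod q) * j) →
      (5 / 2 - ε) * Fintype.card Ω ≤ ∑ φ, G.m φ := by
  set ε1 : ℝ := min (ε / 5) 1 with hε1
  have h10 : 0 < ε1 := lt_min (by positivity) one_pos
  have h11 : ε1 ≤ ε / 5 := min_le_left _ _
  have h12 : ε1 ≤ 1 := min_le_right _ _
  obtain ⟨Bn, hBn⟩ := nc_concl ε hε ε1 h10 h11 h12
  -- the scale factor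
  obtain ⟨Λ, hΛ⟩ := exists_nat_ge (16 * ((X0 : ℝ) + 1) / ε1)
  rw [div_le_iff₀ h10] at hΛ
  have hΛ1 : 1 ≤ Λ := by
    by_contra h
    have h0 : Λ = 0 := by omega
    rw [h0] at hΛ
    have : (0 : ℝ) ≤ X0 := Nat.cast_nonneg _
    push_cast at hΛ
    linarith
  obtain ⟨s, hs1⟩ : ∃ s : ℕ → ℕ, ∀ i, s (i + 1) = Λ * (s i + 1) :=
    ⟨fun i => Nat.rec 0 (fun _ t => Λ * (t + 1)) i, fun i => rfl⟩
  have hs : StrictMono s := strictMono_nat_of_lt_succ fun i => by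
    rw [hs1]
    calc s i < s i + 1 := Nat.lt_succ_self _
      _ ≤ Λ * (s i + 1) := Nat.le_mul_of_pos_left _ hΛ1
  set S : ℕ := s (X0 + 1) with hS
  set P1 : ℕ := 2 * (S + 1) * (Λ + 1) ^ (X0 + 1) with hP1
  obtain ⟨R2, hR2⟩ := exists_nat_ge (8 / ε1)
  rw [div_le_iff₀ h10] at hR2
  set R1 : ℕ := S + R2 + 2 with hR1
  have hε2 : 0 < ε1 / 2 := by positivity
  refine ⟨P1, R1, max Bn (max (2 * S) X0) + 1,
    min (ε1 / 2 / (((Λ : ℝ) + 1) * (S + 1) + 1)) (ε1 / 2 / 2 / (4 * ((R1 : ℝ) + 1) ^ 2)),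
    ?_, by omega, by positivity, ?_⟩
  · rw [hP1]
    exact Nat.one_le_iff_ne_zero.mpr (by positivity)
  intro Ω _ _ q _ Rg G j x hκ hX hj hx hB hjr hPs
  have hB1 : Bn ≤ addOrderOf j := by
    have : Bn ≤ max Bn (max (2 * S) X0) := le_max_left _ _
    omega
  have hB2 : 2 * S < addOrderOf j := by
    have : 2 * S ≤ max Bn (max (2 * S) X0) := (le_max_left _ _).trans (le_max_right _ _)
    omega
  have hB3 : X0 < addOrderOf j := by
    have : X0 ≤ max Bn (max (2 * S) X0) := (le_max_right _ _).trans (le_max_right _ _)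
    omega
  have hordq : addOrderOf j ≤ q := by
    have h1 := addOrderOf_dvd_card (x := j)
    rw [ZMod.card] at h1
    exact Nat.le_of_dvd (NeZero.pos q) h1
  obtain ⟨x', hx', hx'r⟩ := nc_chain G.J X0 Λ S hX j x hx (by
    intro P t h1 h2 h3
    exact hPs P t h1 h2 (by exact_mod_cast h3))
  obtain ⟨i, hi, hwin⟩ := window G.J X0 hX s hs j x' (by exact_mod_cast hB2)
  have hsi : s (i + 1) ≤ S := hs.monotone (show i + 1 ≤ X0 + 1 by omega)
  have hsi0 : s i ≤ S := (hs.monotone (Nat.le_succ i)).trans hsi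
  have hκ1 : G.κ * (((Λ : ℝ) + 1) * (S + 1) + 1) ≤ ε1 / 2 := by
    rw [← le_div_iff₀ (by positivity)]
    exact hκ.trans (min_le_left _ _)
  have hκ2 : G.κ * (4 * ((R1 : ℝ) + 1) ^ 2) ≤ ε1 / 2 / 2 := by
    rw [← le_div_iff₀ (by positivity)]
    exact hκ.trans (min_le_right _ _)
  have hineq := fun φ a => nc_ineq G ε1 h10 h12 X0 hX Λ (s i) (s (i + 1))
    (by nlinarith) (by
      rw [hs1]
      push_cast
      have h1 : (0 : ℝ) ≤ (s i : ℝ) + 1 := by positivity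
      have h2 := mul_le_mul_of_nonneg_right hΛ h1
      nlinarith)
    (by
      refine le_trans ?_ hκ1
      refine mul_le_mul_of_nonneg_left ?_ G.hκ
      have h1 : (s (i + 1) : ℝ) ≤ S := by exact_mod_cast hsi
      have h2 : (0 : ℝ) ≤ (Λ : ℝ) + 1 := by positivity
      nlinarith) j x'
    (fun l h1 h2 => bst_int G (by omega) hjr l h1 h2)
    (fun k l h1 h2 h3 => bst_int2 G hx'r k l h1 h2 (h3.trans (by exact_mod_cast hsi)))
    hwin (by omega) φ a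
  set I : Finset ℤ := Icc (-(s i : ℤ)) (s i) with hI
  set J1 : Finset (ZMod q) := (I.image (fun l : ℤ => x' + (l : ZMod q) * j)).filter
    (fun u => u ∈ G.J) with hJ1
  have hinj : ∀ l ∈ I, ∀ l' ∈ I,
      x' + (l : ZMod q) * j = x' + (l' : ZMod q) * j → l = l' := by
    intro l hl l' hl' hll
    have h1 : ((l - l' : ℤ) : ZMod q) * j = 0 := by
      push_cast
      have : (l : ZMod q) * j = (l' : ZMod q) * j := by simpa using hll
      rw [sub_mul, this, sub_self]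
    have h2 : (l - l') • j = 0 := by rw [zsmul_eq_mul]; exact h1
    have h3 : (addOrderOf j : ℤ) ∣ l - l' := addOrderOf_dvd_iff_zsmul_eq_zero.mpr h2
    rw [hI, mem_Icc] at hl hl'
    by_contra hne
    have h4 := Int.le_of_dvd (b := |l - l'|) (abs_pos.mpr (sub_ne_zero.mpr hne))
      ((dvd_abs _ _).mpr h3)
    have h5 : |l - l'| ≤ 2 * (s i : ℤ) := by
      rw [abs_le]
      constructor <;> omega
    omega
  have hg : ∀ φ a, G.g J1 φ a = ∑ l ∈ I,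
      G.D φ (x' + (l : ZMod q) * j) * G.ψ φ (-((x' + (l : ZMod q) * j) * a)) := by
    intro φ a
    rw [BFam.g, hJ1, Finset.sum_filter_of_ne, Finset.sum_image (fun l hl l' hl' h => hinj l hl l' hl' h)]
    intro u _ hu
    by_contra h
    exact hu (by rw [G.hD0 u h φ, zero_mul])
  refine hBn G j J1 hj (fun u hu => (mem_filter.mp hu).2) ⟨x', ?_⟩ (by omega) hB1 (fun φ => ?_)
    (fun φ a => ?_)
  · rw [hJ1, mem_filter, mem_image]
    exact ⟨⟨0, by simp [hI], by simp⟩, hx'⟩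
  · exact fejer_D G (ε1 / 2) hε2 R1 (by omega) (by
      rw [hR1]
      push_cast
      have : (0 : ℝ) ≤ S := Nat.cast_nonneg _
      nlinarith) hκ2 j hjr φ
  · rw [hg]
    exact hineq φ a

theorem bst (ε : ℝ) (hε : 0 < ε) (X0 : ℕ) : ∃ (B : ℕ) (κ0 : ℝ), 0 < κ0 ∧
    ∀ {Ω : Type} [Fintype Ω] [Nonempty Ω] {q : ℕ} [NeZero q] {Rg : IRing Ω} (G : BFam Ω q Rg),
      G.κ ≤ κ0 → G.J.card ≤ X0 → (∃ j ∈ G.J, j ≠ 0) →
      (∀ i ∈ G.J, ∀ j ∈ G.J, i ≠ j → B < addOrderOf (i - j)) →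
      (5 / 2 - ε) * Fintype.card Ω ≤ ∑ φ, G.m φ ∨
      ∀ a ∈ G.S, ∃ x ∈ Rg.A, ∀ φ, ‖x φ‖ = 1 ∧
        (G.f φ a : ℂ) = 2 + x φ + (starRingEnd ℂ) (x φ) := by
  obtain ⟨P1, R1, B1, κ1, hP1, hR1, hκ1, hNC⟩ := bst_nc ε hε X0
  obtain ⟨εc, hεc, hεc1, hC⟩ := c_concl ε hε
  obtain ⟨εt, hεt, hεt1, hT⟩ := three_case ε hε
  obtain ⟨Ra, hRa⟩ := exists_nat_ge (16 / εc)
  obtain ⟨Rb, hRb⟩ := exists_nat_ge (4 / εt)
  rw [div_le_iff₀ hεc] at hRa
  rw [div_le_iff₀ hεt] at hRb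
  set Rg0 : ℕ := Ra + Rb + 2 with hRg0
  have hRg0' : (Rg0 : ℝ) = Ra + Rb + 2 := by rw [hRg0]; push_cast; ring
  refine ⟨max (max (R1 ^ X0) B1) (2 * (P1.factorial * (P1 + 1) * (Rg0 + 2))),
    min (min (1 / 2) κ1) (min (min εc (εc / 2 / (2 * (Rg0 : ℝ) + 3)))
      (min εt (εt / 2 / (4 * ((Rg0 : ℝ) + 1) ^ 2)))), by positivity, ?_⟩
  intro Ω _ _ q _ Rg G hκ hX hex hord
  have hk1 : G.κ ≤ 1 / 2 := hκ.trans ((min_le_left _ _).trans (min_le_left _ _))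
  have hk2 : G.κ ≤ κ1 := hκ.trans ((min_le_left _ _).trans (min_le_right _ _))
  have hk3 : G.κ ≤ εc := hκ.trans ((min_le_right _ _).trans ((min_le_left _ _).trans
    (min_le_left _ _)))
  have hk4 : G.κ * (2 * (Rg0 : ℝ) + 3) ≤ εc / 2 := by
    rw [← le_div_iff₀ (by positivity)]
    exact hκ.trans ((min_le_right _ _).trans ((min_le_left _ _).trans (min_le_right _ _)))
  have hk5 : G.κ ≤ εt := hκ.trans ((min_le_right _ _).trans ((min_le_right _ _).trans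
    (min_le_left _ _)))
  have hk6 : G.κ * (4 * ((Rg0 : ℝ) + 1) ^ 2) ≤ εt / 2 := by
    rw [← le_div_iff₀ (by positivity)]
    exact hκ.trans ((min_le_right _ _).trans ((min_le_right _ _).trans (min_le_right _ _)))
  have h0 : (0 : ZMod q) ∈ G.J := G.zero_mem (by linarith)
  have hord0 : ∀ j ∈ G.J, j ≠ 0 →
      max (max (R1 ^ X0) B1) (2 * (P1.factorial * (P1 + 1) * (Rg0 + 2))) < addOrderOf j := by
    intro j hj hj0
    have := hord j hj 0 h0 hj0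
    rwa [sub_zero] at this
  obtain ⟨j0, hj0, hj0'⟩ := hex
  obtain ⟨j, hj, hjr⟩ := chain G.J R1 X0 hX j0 hj0
    (lt_of_le_of_lt ((le_max_left _ _).trans (le_max_left _ _)) (hord0 j0 hj0 hj0'))
  have hjne : j ≠ 0 := by
    rintro rfl
    have := hjr 2 le_rfl hR1
    rw [mul_zero] at this
    exact this h0
  by_cases hnc : ∃ x ∈ G.J, ∀ (P : ℕ) (s : ℤ), 1 ≤ P → P ≤ P1 → |s| ≤ P1 →
      (P : ZMod q) * x ≠ (s : ZMod q) * j
  · obtain ⟨x, hx, hxP⟩ := hnc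
    left
    exact hNC G j x hk2 hX hj hx
      (lt_of_le_of_lt ((le_max_right _ _).trans (le_max_left _ _)) (hord0 j hj hjne)) hjr hxP
  · push Not at hnc
    obtain ⟨y, hy, hy0, hyk, hyJ⟩ := geo G.J h0 (fun x hx => G.neg_mem hx) j hj hjne P1 Rg0 hP1
      hnc (fun x hx y hy hxy => lt_of_le_of_lt (le_max_right _ _) (hord x hx y hy hxy))
    rcases hyJ with hyJ | ⟨x, hx, hxk⟩
    · refine hT G y hk5 hy hy0 (fun h => ?_) hyJ (fun φ => ?_)
      · have h1 := hyk 2 (by norm_num) (by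
          rw [hRg0]
          push_cast
          norm_num
          positivity)
        apply h1
        have h2 : ((2 : ℤ) : ZMod q) * y = y + y := by push_cast; ring
        rw [h2]
        nth_rewrite 2 [h]
        rw [add_neg_cancel]
        exact h0
      · exact fejer_D G εt hεt Rg0 (by omega) (by rw [hRg0']; nlinarith [Nat.cast_nonneg (α := ℝ) Ra]) hk6 y
          (fun r h1 h2 => by
            have := hyk (r : ℤ) (by
              rw [Nat.abs_cast]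
              exact_mod_cast h1) (by
              rw [Nat.abs_cast]
              exact_mod_cast h2)
            simpa using this) φ
    · left
      refine hC G hk3 (fun φ => ‖G.D φ y‖) (fun φ => ‖G.D φ x‖)
        (fun φ => norm_pos_iff.mpr (G.hDJ y hy φ)) (fun φ => norm_pos_iff.mpr (G.hDJ x hx φ))
        (G.log_D hy) (G.log_D hx) (fun φ => ?_)
      refine sqrt_ineq _ (G.D φ x) (G.D φ (x - y)) (G.D φ y) (fun z hz => ?_)
      exact c_ineq G εc hεc hεc1 Rg0 (by rw [hRg0']; nlinarith [Nat.cast_nonneg (α := ℝ) Rb]) hk4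
        x y hyk hxk φ z hz

end Pool.Agent.CYC
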