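import Mathlib
import Pool.Agent.Lib.MP_8ca0c8_nt_CYC2.RingA

/-! Project CYC2 (MP_8ca0c8_nt), module EXC: the exceptional elements. -/

namespace Pool.Agent.CYC

open Finset

theorem ringA_root (L : IntermediateField ℚ ℂ) [FiniteDimensional ℚ L] (x : (L →ₐ[ℚ] ℂ) → ℂ)
    (hx : x ∈ (ringA L).A) (h : ∀ φ, ‖x φ‖ = 1) :
    ∃ η : L, (∃ n : ℕ, 0 < n ∧ η ^ n = 1) ∧ ∀ φ, x φ = φ η := by
  obtain ⟨y, hy, hxy⟩ := hx
  have hNF : NumberField L := { to_charZero := inferInstance, to_finiteDimensional := inferInstance }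
  have hyL : IsIntegral ℤ y := by
    have h1 : IsIntegral ℤ (algebraMap L ℂ y) := hy
    rwa [isIntegral_algebraMap_iff (algebraMap L ℂ).injective] at h1
  have hno : ∀ ψ : L →+* ℂ, ‖ψ y‖ = 1 := by
    intro ψ
    have h1 := h ψ.toRatAlgHom
    rw [hxy] at h1
    exact h1
  obtain ⟨n, hn, hyn⟩ := NumberField.Embeddings.pow_eq_one_of_norm_eq_one L ℂ hyL hno
  exact ⟨y, ⟨n, hn, hyn⟩, hxy⟩

theorem exc (L : IntermediateField ℚ ℂ) [FiniteDimensional ℚ L] (α : L) (σ : L ≃ₐ[ℚ] L)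
    (w : (L →ₐ[ℚ] ℂ) → ℝ) (hw : ∀ φ, φ (σ α) = (w φ : ℂ)) (x : (L →ₐ[ℚ] ℂ) → ℂ)
    (hx : x ∈ (ringA L).A)
    (h : ∀ φ, ‖x φ‖ = 1 ∧ (w φ : ℂ) = 2 + x φ + (starRingEnd ℂ) (x φ)) :
    ∃ η : ℂ, (∃ n : ℕ, 0 < n ∧ η ^ n = 1) ∧ (α : ℂ) = 2 + η + η⁻¹ := by
  obtain ⟨η, ⟨n, hn, hηn⟩, hxη⟩ := ringA_root L x hx fun φ => (h φ).1
  have h1 : σ α = 2 + η + η⁻¹ := by
    apply L.val.injective
    have h2 := (h L.val).2
    rw [← hw L.val, ← Complex.inv_eq_conj (h L.val).1, hxη L.val] at h2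
    have h5 : L.val (2 + η + η⁻¹) = 2 + L.val η + (L.val η)⁻¹ := by
      rw [map_add, map_add, map_inv₀, map_ofNat]
    exact h2.trans h5.symm
  have h3 : α = 2 + σ.symm η + (σ.symm η)⁻¹ := by
    have h4 := congrArg σ.symm h1
    rw [AlgEquiv.symm_apply_apply, map_add, map_add, map_inv₀, map_ofNat] at h4
    exact h4
  refine ⟨((σ.symm η : L) : ℂ), ⟨n, hn, ?_⟩, ?_⟩
  · have h5 : (σ.symm η) ^ n = 1 := by rw [← map_pow, hηn, map_one]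
    have h6 := congrArg (fun z : L => (z : ℂ)) h5
    simpa using h6
  · have h7 := congrArg (fun z : L => (z : ℂ)) h3
    have h8 : ((2 + σ.symm η + (σ.symm η)⁻¹ : L) : ℂ) =
        2 + ((σ.symm η : L) : ℂ) + ((σ.symm η : L) : ℂ)⁻¹ := by
      push_cast
      rfl
    exact h7.trans h8

end Pool.Agent.CYC
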