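import Mathlib
import Pool.Agent.Lib.MP_8ca0c8_nt_CYC.Final

/-! Project CYC2 (MP_8ca0c8_nt), module EXCLIM: mean traces of 2 + eta + 1/eta. -/

namespace Pool.Agent.CYC

open Finset

theorem meanTrace_four_sub (α : ℂ) (h : IsIntegral ℤ α) :
    STP.meanTrace (4 - α) = 4 - STP.meanTrace α := by
  have hint : IsIntegral ℚ α := h.tower_top
  let L : IntermediateField ℚ ℂ := IntermediateField.adjoin ℚ {α}
  have : FiniteDimensional ℚ L := IntermediateField.adjoin.finiteDimensional hint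
  let x : L := ⟨α, IntermediateField.mem_adjoin_simple_self ℚ α⟩
  have h1 := sum_emb L x
  have h2 := sum_emb L (4 - x)
  have e1 : ((4 - x : L) : ℂ) = 4 - α := rfl
  have e2 : (x : ℂ) = α := rfl
  have hc : (Fintype.card (L →ₐ[ℚ] ℂ) : ℂ) ≠ 0 := by
    have : Nonempty (L →ₐ[ℚ] ℂ) := ⟨L.val⟩
    exact_mod_cast Fintype.card_ne_zero
  rw [e1] at h2
  rw [e2] at h1
  have h3 : ∑ φ : L →ₐ[ℚ] ℂ, φ (4 - x) = 4 * (Fintype.card (L →ₐ[ℚ] ℂ) : ℂ) -
      ∑ φ : L →ₐ[ℚ] ℂ, φ x := by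
    have h4 : ∀ φ : L →ₐ[ℚ] ℂ, φ (4 - x) = 4 - φ x := fun φ => by
      rw [map_sub, map_ofNat]
    simp_rw [h4]
    rw [Finset.sum_sub_distrib, Finset.sum_const, Finset.card_univ, nsmul_eq_mul, mul_comm]
  rw [h3, h1] at h2
  refine mul_left_cancel₀ hc ?_
  rw [← h2]
  ring

/-- the real number `2 - y - 1 / y` -/
theorem excLim_pos {y : ℂ} (hy : ∃ k : ℕ, 0 < k ∧ y ^ k = 1) (h : y ≠ 1) :
    ∃ r : ℝ, 0 < r ∧ 4 - (2 + y + y⁻¹) = r := by
  obtain ⟨k, hk, hyk⟩ := hy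
  have hn : ‖y‖ = 1 := Complex.norm_eq_one_of_pow_eq_one hyk hk.ne'
  have hinv : y⁻¹ = (starRingEnd ℂ) y := by
    rw [Complex.inv_def, Complex.normSq_eq_norm_sq, hn]
    simp
  have hsq : y.re * y.re + y.im * y.im = 1 := by
    have h1 := Complex.normSq_eq_norm_sq y
    rw [hn, Complex.normSq_apply] at h1
    rw [h1]
    norm_num
  have hre : y.re < 1 := by
    rcases lt_or_ge y.re 1 with h1 | h1
    · exact h1
    · exfalso
      apply h
      have h2 : y.re = 1 := by nlinarith [mul_self_nonneg y.im]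
      have h3 : y.im = 0 := by
        rw [h2] at hsq
        have : y.im * y.im = 0 := by linarith
        exact mul_self_eq_zero.mp this
      exact Complex.ext h2 h3
  refine ⟨2 - 2 * y.re, by linarith, ?_⟩
  rw [hinv]
  apply Complex.ext
  · simp
    ring
  · simp

theorem excLim_int {η : ℂ} (hη : ∃ k : ℕ, 0 < k ∧ η ^ k = 1) :
    IsIntegral ℤ η ∧ IsIntegral ℤ η⁻¹ := by
  obtain ⟨k, hk, h⟩ := hη
  have h1 : ∀ z : ℂ, z ^ k = 1 → IsIntegral ℤ z := fun z hz =>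
    IsIntegral.of_pow hk (by rw [hz]; exact isIntegral_one)
  exact ⟨h1 _ h, h1 _ (by rw [inv_pow, h, inv_one])⟩

theorem exc_refl (η : ℂ) (hη : ∃ k : ℕ, 0 < k ∧ η ^ k = 1) (h : η ≠ 1) :
    STP.IsTotallyPositive (4 - (2 + η + η⁻¹)) := by
  obtain ⟨hi1, hi2⟩ := excLim_int hη
  have hint : IsIntegral ℤ (4 - (2 + η + η⁻¹)) := by
    have h2 : IsIntegral ℤ (2 : ℂ) := by exact_mod_cast isIntegral_algebraMap (x := (2 : ℤ))
    have h4 : IsIntegral ℤ (4 : ℂ) := by exact_mod_cast isIntegral_algebraMap (x := (4 : ℤ))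
    exact h4.sub ((h2.add hi1).add hi2)
  refine ⟨hint, ?_⟩
  intro z hz
  have hηQ : IsIntegral ℚ η := hi1.tower_top
  let L : IntermediateField ℚ ℂ := IntermediateField.adjoin ℚ {η}
  have : FiniteDimensional ℚ L := IntermediateField.adjoin.finiteDimensional hηQ
  let e : L := ⟨η, IntermediateField.mem_adjoin_simple_self ℚ η⟩
  let x : L := 4 - (2 + e + e⁻¹)
  have e1 : (x : ℂ) = 4 - (2 + η + η⁻¹) := rfl
  have h1 := Algebra.IsAlgebraic.range_eval_eq_rootSet_minpoly (F := ℚ) (K := L) ℂ x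
  have h2 : z ∈ (minpoly ℚ x).rootSet ℂ := by
    rw [← emb_minpoly x, e1]
    rw [Polynomial.mem_rootSet']
    rw [Polynomial.mem_aroots'] at hz
    exact hz
  rw [← h1] at h2
  obtain ⟨φ, rfl⟩ := h2
  have h3 : φ x = 4 - (2 + φ e + (φ e)⁻¹) := by
    simp only [x, map_sub, map_add, map_inv₀, map_ofNat]
  show ∃ r : ℝ, 0 < r ∧ φ x = r
  rw [h3]
  refine excLim_pos ?_ ?_
  · obtain ⟨k, hk, hk1⟩ := hη
    refine ⟨k, hk, ?_⟩
    have h4 : e ^ k = 1 := Subtype.ext hk1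
    rw [← map_pow, h4, map_one]
  · intro h5
    apply h
    have h6 : e = 1 := φ.injective (h5.trans (map_one φ).symm)
    exact congrArg Subtype.val h6

theorem excLim_mem {η : ℂ} (hη : ∃ k : ℕ, 0 < k ∧ η ^ k = 1) : 2 + η + η⁻¹ ∈ Rinf ⊥ := by
  have h1 : ∀ z : ℂ, (∃ k : ℕ, 0 < k ∧ z ^ k = 1) → z ∈ Rinf ⊥ := fun z hz =>
    Subring.subset_closure (Or.inr hz)
  have h2 : (2 : ℂ) ∈ Rinf ⊥ := by
    have := natCast_mem (Rinf ⊥) 2
    exact_mod_cast this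
  obtain ⟨k, hk, hk1⟩ := hη
  exact add_mem (add_mem h2 (h1 η ⟨k, hk, hk1⟩)) (h1 _ ⟨k, hk, by rw [inv_pow, hk1, inv_one]⟩)

theorem exc_fin (δ : ℝ) (hδ : 0 < δ) :
    {α : ℂ | (∃ η : ℂ, (∃ k : ℕ, 0 < k ∧ η ^ k = 1) ∧ α = 2 + η + η⁻¹) ∧
      STP.IsTotallyPositive α ∧ δ ≤ |(STP.meanTrace α).re - 2|}.Finite := by
  have hF := main_finite ⊥ (δ / 2) (by linarith)
  refine Set.Finite.subset (hF.union ((Set.finite_singleton (4 : ℂ)).union
    (hF.image fun x => 4 - x))) ?_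
  rintro α ⟨⟨η, hη, rfl⟩, hpos, hd⟩
  have h4 : (4 : ℂ) ∈ Rinf ⊥ := by
    have := natCast_mem (Rinf ⊥) 4
    exact_mod_cast this
  rcases le_or_gt (STP.meanTrace (2 + η + η⁻¹)).re 2 with h1 | h1
  · left
    rw [abs_of_nonpos (by linarith)] at hd
    exact ⟨excLim_mem hη, hpos, by linarith⟩
  · right
    rw [abs_of_pos (by linarith)] at hd
    by_cases h2 : η = 1
    · left
      rw [h2]
      norm_num
    · right
      refine ⟨4 - (2 + η + η⁻¹), ⟨sub_mem h4 (excLim_mem hη), exc_refl η hη h2, ?_⟩, by ring⟩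
      rw [meanTrace_four_sub _ hpos.1, Complex.sub_re]
      have : (4 : ℂ).re = 4 := rfl
      rw [this]
      linarith

end Pool.Agent.CYC
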