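import Mathlib
import Pool.Agent.Lib.MP_8ca0c8_nt_CYC2.Defs
import Pool.Agent.Lib.MP_8ca0c8_nt_CYC.GalB

/-! Project CYC2 (MP_8ca0c8_nt), module FIXRN: the automorphisms fix the lower ring. -/

namespace Pool.Agent.CYC

open Finset

theorem fixRn_zt_pow_eq {m : ℕ} (hm : 0 < m) {u : ℕ} (hu : u ≡ 1 [MOD m]) : zt m ^ u = zt m := by
  have h1 : zt m ^ m = 1 := (Complex.isPrimitiveRoot_exp m hm.ne').pow_eq_one
  have h2 : u % m = 1 % m := hu
  calc zt m ^ u = zt m ^ (u % m) := pow_eq_pow_mod u h1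
    _ = zt m ^ (1 % m) := by rw [h2]
    _ = zt m ^ 1 := (pow_eq_pow_mod 1 h1).symm
    _ = zt m := pow_one _

theorem fix_rn (K : IntermediateField ℚ ℂ) (m n : ℕ) (hn : 0 < n) (hmn : m ∣ n) (u : ℕ)
    (hu : u ≡ 1 [MOD m]) (σ : Ln K n ≃ₐ[ℚ] Ln K n) (h1 : ∀ x : Ln K n, (x : ℂ) ∈ K → σ x = x)
    (h2 : ∀ z : Ln K n, (z : ℂ) = zt n → ((σ z : Ln K n) : ℂ) = zt n ^ u) (y : Ln K n)
    (hy : (y : ℂ) ∈ Rn K m) : σ y = y := by
  have hm : 0 < m := Nat.pos_of_dvd_of_pos hmn hn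
  let F : Subring (Ln K n) := RingHom.eqLocus (σ : Ln K n →+* Ln K n) (RingHom.id _)
  have hle : Rn K m ≤ F.map (algebraMap (Ln K n) ℂ) := by
    refine Subring.closure_le.mpr ?_
    rintro x (⟨hx, _⟩ | hx)
    · exact ⟨⟨x, (le_sup_left : K ≤ Ln K n) hx⟩, h1 _ hx, rfl⟩
    · have hx' : x = zt m := hx
      have hz : zt n ∈ Ln K n :=
        (le_sup_right : IntermediateField.adjoin ℚ {zt n} ≤ Ln K n)
          (IntermediateField.mem_adjoin_simple_self ℚ (zt n))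
      have e1 : zt n ^ (n / m) = zt m := galB_zt_pow hn hmn
      refine ⟨(⟨zt n, hz⟩ : Ln K n) ^ (n / m), ?_, ?_⟩
      · show σ ((⟨zt n, hz⟩ : Ln K n) ^ (n / m)) = (⟨zt n, hz⟩ : Ln K n) ^ (n / m)
        apply Subtype.ext
        rw [map_pow, SubmonoidClass.coe_pow, SubmonoidClass.coe_pow, h2 _ rfl, ← pow_mul,
          mul_comm u, pow_mul, e1]
        exact fixRn_zt_pow_eq hm hu
      · rw [hx']
        exact e1
  obtain ⟨y', hy', he⟩ := hle hy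
  have h3 : y' = y := Subtype.ext he
  rw [← h3]
  exact hy'

end Pool.Agent.CYC
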