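import Mathlib
import Pool.Agent.Lib.MP_8ca0c8_nt_CYC2.FamMk2
import Pool.Agent.Lib.MP_8ca0c8_nt_CYC2.FixRn
import Pool.Agent.Lib.MP_8ca0c8_nt_CYC.FamA

/-! Project CYC2 (MP_8ca0c8_nt), module FAMA2: the family of case A. -/

namespace Pool.Agent.CYC

open Finset

private theorem famA2_pow_congr {R : Type*} [Monoid R] {z : R} {n a b : ℕ} (hz : z ^ n = 1)
    (h : a ≡ b [MOD n]) : z ^ a = z ^ b := by
  rw [pow_eq_pow_mod a hz, pow_eq_pow_mod b hz, h]

private theorem famA2_exp (p : ℕ) [NeZero p] (u a : ZMod p) :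
    a.val * (-u).val ≡ (-(u * a)).val [MOD p] := by
  rw [← ZMod.natCast_eq_natCast_iff]
  push_cast
  rw [ZMod.natCast_zmod_val, ZMod.natCast_zmod_val, ZMod.natCast_zmod_val]
  ring

theorem famA2 (K : IntermediateField ℚ ℂ) [FiniteDimensional ℚ K] (f : ℕ) (hf : 0 < f)
    (hgal : GalOK K f) (n m p : ℕ) (hm : 0 < m) (hnm : n = m * p) [Fact p.Prime] (hp3 : 3 ≤ p)
    (hpm : ¬ p ∣ m) (hfm : f ∣ m) (α : ℂ) (hα : α ∈ Rn K n) (hα1 : α ≠ 1) (hα2 : α ≠ 2)
    (htp : STP.IsTotallyPositive α) (hnot : α ∉ Rn K m) :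
    ∃ F : Fam (Ln K n →ₐ[ℚ] ℂ) p, F.S = univ.erase 0 ∧ F.Aux ∧
      (∀ b, (fun φ => F.ψ φ b) ∈ (ringA (Ln K n)).A) ∧
      (∀ i j, (fun φ => (((p : ℂ) - 1) / p) * (F.T φ i - F.T φ j)) ∈ (ringA (Ln K n)).A) ∧
      (∀ (t : ZMod p) (J1 : Finset (ZMod p)), ∀ a ∈ F.S, ∀ a' ∈ F.S, ∀ φ φ',
        ∑ u ∈ J1, (F.T φ u - F.T φ t) * F.ψ φ (-(u * a)) = 0 →
        ∑ u ∈ J1, (F.T φ' u - F.T φ' t) * F.ψ φ' (-(u * a')) = 0) ∧
      (∃ i j : ZMod p, i ≠ 0 ∧ j ≠ 0 ∧ ∃ φ, F.T φ i ≠ F.T φ j) ∧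
      ∑ φ, F.m φ = Fintype.card (Ln K n →ₐ[ℚ] ℂ) * (STP.meanTrace α).re ∧
      ∀ a ∈ F.S, ∃ σ : Ln K n ≃ₐ[ℚ] Ln K n, ∀ φ (z : Ln K n), (z : ℂ) = α →
        φ (σ z) = (F.f φ a : ℂ) := by
  subst hnm
  have hp : p.Prime := Fact.out
  have hn : 0 < m * p := Nat.mul_pos hm hp.pos
  set ζ : Ln K (m * p) := ⟨zt (m * p), zt_mem K _⟩ with hζ
  obtain ⟨ω, hω⟩ : ∃ w : Ln K (m * p), w = ζ ^ m := ⟨_, rfl⟩
  have hωc : (ω : ℂ) = zt p := by
    rw [hω, hζ]
    simpa using zt_mul_pow m p hm hp.pos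
  have hωp : IsPrimitiveRoot ω p := by
    refine IsPrimitiveRoot.of_map_of_injective (f := (Ln K (m * p)).val) ?_
      (Ln K (m * p)).val.injective
    show IsPrimitiveRoot (ω : ℂ) p
    rw [hωc]
    exact zt_pow _ hp.ne_zero
  obtain ⟨t, ht1, ht2⟩ := decompA K m p hm ((Nat.Prime.coprime_iff_not_dvd hp).2 hpm).symm α hα
  set x : Ln K (m * p) := ⟨α, (rn_sub K hn hα).1⟩ with hx
  -- the automorphisms
  have hσ : ∀ b : ZMod p, ∃ σ : Ln K (m * p) ≃ₐ[ℚ] Ln K (m * p), b ≠ 0 →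
      ((σ x : Ln K (m * p)) : ℂ) = ∑ i, t i * zt p ^ (b.val * i.val) ∧ σ ω = ω ^ b.val ∧
      ∀ y : Ln K (m * p), (y : ℂ) ∈ Rn K m → σ y = y := by
    intro b
    by_cases hb : b = 0
    · exact ⟨AlgEquiv.refl, fun h => absurd hb h⟩
    · obtain ⟨u, hu1, hu2, hu3⟩ := famA_exists_u m p hpm b hb
      obtain ⟨σ, hσ1, hσ2⟩ := hgal m (m * p) hn hfm (dvd_mul_right m _) u hu1 hu2
      refine ⟨σ, fun _ => ⟨ht2 b.val u σ hu3 hu2 hσ1 hσ2 x rfl, ?_, ?_⟩⟩
      · have h1 : σ ζ = ζ ^ u := by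
          apply Subtype.ext
          rw [hσ2 ζ rfl]
          simp [hζ]
        have h2 : σ ω = ω ^ u := by
          rw [hω, map_pow, h1, ← pow_mul, mul_comm u m, pow_mul]
        rw [h2]
        exact famA2_pow_congr hωp.pow_eq_one hu3
      · intro y hy
        exact fix_rn K m (m * p) hn (dvd_mul_right m p) u hu2 σ hσ1 hσ2 y hy
  choose σ hσ using hσ
  have hcard : ((univ : Finset (ZMod p)).erase 0).card = p - 1 := by
    rw [Finset.card_erase_of_mem (mem_univ _), card_univ, ZMod.card]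
  obtain ⟨F, hFS, hFA, hFf, hFψ, hFT, hFm⟩ := fam_mk2 (Ln K (m * p)) p
    ((univ : Finset (ZMod p)).erase 0) (by rw [hcard]; omega) σ x htp hα1 hα2 ω hωp
  set τ : ZMod p → Ln K (m * p) := fun j =>
    (1 / ((((univ : Finset (ZMod p)).erase 0).card : Ln K (m * p)))) *
      ∑ b ∈ (univ : Finset (ZMod p)).erase 0, σ b x * ω ^ (j * b).val with hτ
  have hp1 : ((p : ℂ) - 1) ≠ 0 := by
    have : (p : ℂ) ≠ 1 := by exact_mod_cast hp.one_lt.ne'
    exact sub_ne_zero.2 this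
  have hp0 : (p : ℂ) ≠ 0 := by exact_mod_cast hp.ne_zero
  have hτt : ∀ j, ((τ j : Ln K (m * p)) : ℂ) = ((p : ℂ) * t (-j) - ∑ i, t i) / ((p : ℂ) - 1) := by
    intro j
    have h1 : ((τ j : Ln K (m * p)) : ℂ) = (1 / ((p : ℂ) - 1)) *
        ∑ b ∈ (univ : Finset (ZMod p)).erase 0,
          ((σ b x : Ln K (m * p)) : ℂ) * (ω : ℂ) ^ (j * b).val := by
      rw [hτ]
      simp only [hcard]
      push_cast [Nat.cast_sub hp.one_lt.le]
      rfl
    rw [h1]
    have h2 : ∀ b ∈ (univ : Finset (ZMod p)).erase 0,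
        ((σ b x : Ln K (m * p)) : ℂ) * (ω : ℂ) ^ (j * b).val =
        ∑ i, t i * (zt p ^ (b.val * i.val) * zt p ^ (j * b).val) := by
      intro b hb
      rw [(hσ b (Finset.ne_of_mem_erase hb)).1, hωc, Finset.sum_mul]
      exact Finset.sum_congr rfl fun i _ => by ring
    rw [Finset.sum_congr rfl h2, Finset.sum_comm]
    have h3 : ∀ i : ZMod p, ∑ b ∈ (univ : Finset (ZMod p)).erase 0,
        t i * (zt p ^ (b.val * i.val) * zt p ^ (j * b).val) =
        (if i = -j then t i * (p : ℂ) else 0) - t i := by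
      intro i
      rw [← Finset.mul_sum, famA_char_sum_erase]
      split_ifs <;> ring
    rw [Finset.sum_congr rfl fun i _ => h3 i, Finset.sum_sub_distrib,
      Finset.sum_ite_eq' univ (-j), if_pos (mem_univ _)]
    field_simp
  have hTτ : ∀ φ j, F.T φ j = φ (τ j) := fun φ j => hFT φ j
  have hdiff : ∀ i j, ((τ i - τ j : Ln K (m * p)) : ℂ) =
      ((p : ℂ) / ((p : ℂ) - 1)) * (t (-i) - t (-j)) := by
    intro i j
    have h1 : ((τ i - τ j : Ln K (m * p)) : ℂ) =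
        ((τ i : Ln K (m * p)) : ℂ) - ((τ j : Ln K (m * p)) : ℂ) := rfl
    rw [h1, hτt, hτt]
    field_simp
    ring
  have htn : ∀ j, t j ∈ Rn K (m * p) := fun j => rn_mono K hn (dvd_mul_right m p) (ht1 j)
  -- the lifts of the `t j`
  set tt : ZMod p → Ln K (m * p) := fun j => ⟨t j, (rn_sub K hn (htn j)).1⟩ with htt
  have httc : ∀ j, ((tt j : Ln K (m * p)) : ℂ) = t j := fun j => rfl
  have hpL : ((p : Ln K (m * p)) - 1) ≠ 0 := by
    intro h
    apply hp1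
    have h1 := congrArg (fun z : Ln K (m * p) => (z : ℂ)) h
    simpa using h1
  have hval : ∀ φ i j, F.T φ i - F.T φ j =
      ((p : ℂ) / ((p : ℂ) - 1)) * φ (tt (-i) - tt (-j)) := by
    intro φ i j
    have hτy : τ i - τ j =
        ((p : Ln K (m * p)) / ((p : Ln K (m * p)) - 1)) * (tt (-i) - tt (-j)) := by
      apply Subtype.ext
      rw [hdiff]
      simp [htt]
    rw [hTτ, hTτ, ← map_sub, hτy, map_mul, map_div₀, map_sub, map_natCast, map_one]
  refine ⟨F, hFS, hFA, fun b => ?_, fun i j => ?_, ?_, ?_, hFm, ?_⟩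
  · -- the characters
    refine mem_ringA.2 ⟨ω ^ b.val, ?_, fun φ => ?_⟩
    · have h1 : ((ω ^ b.val : Ln K (m * p)) : ℂ) = zt p ^ b.val := by
        rw [← hωc]
        rfl
      rw [h1]
      exact (rnB_zt_integral hp.pos).pow _
    · have h1 := hFψ φ b.val
      rw [ZMod.natCast_zmod_val] at h1
      rw [h1, map_pow]
  · -- the differences of the coefficients
    refine mem_ringA.2 ⟨tt (-i) - tt (-j), ?_, fun φ => ?_⟩
    · have h1 : ((tt (-i) - tt (-j) : Ln K (m * p)) : ℂ) = t (-i) - t (-j) := rfl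
      rw [h1]
      exact (rn_sub K hn (Subring.sub_mem _ (htn _) (htn _))).2
    · rw [hval φ i j]
      field_simp
  · -- Galois invariance of the vanishing of partial sums
    intro t0 J1 a ha a' ha' φ φ' h0
    rw [hFS] at ha ha'
    have ha := Finset.ne_of_mem_erase ha
    have ha' := Finset.ne_of_mem_erase ha'
    set γ : Ln K (m * p) := ∑ u ∈ J1, (tt (-u) - tt (-t0)) * ω ^ (-u).val with hγ
    have key : ∀ (φ : Ln K (m * p) →ₐ[ℚ] ℂ) (a : ZMod p), a ≠ 0 →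
        ∑ u ∈ J1, (F.T φ u - F.T φ t0) * F.ψ φ (-(u * a)) =
          ((p : ℂ) / ((p : ℂ) - 1)) * φ (σ a γ) := by
      intro φ a ha
      rw [hγ, map_sum, map_sum, Finset.mul_sum]
      refine Finset.sum_congr rfl fun u _ => ?_
      have h1 := hFψ φ (-(u * a)).val
      rw [ZMod.natCast_zmod_val] at h1
      have e1 : σ a ((tt (-u) - tt (-t0)) * ω ^ (-u).val) =
          (tt (-u) - tt (-t0)) * ω ^ (-(u * a)).val := by
        rw [map_mul, map_sub, (hσ a ha).2.2 (tt (-u)) (ht1 _),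
          (hσ a ha).2.2 (tt (-t0)) (ht1 _), map_pow, (hσ a ha).2.1, ← pow_mul,
          famA2_pow_congr hωp.pow_eq_one (famA2_exp p u a)]
      rw [e1, h1, hval φ u t0, map_mul φ, map_pow φ ω]
      ring
    have hpp : ((p : ℂ) / ((p : ℂ) - 1)) ≠ 0 := div_ne_zero hp0 hp1
    rw [key φ a ha] at h0
    have h1 : φ (σ a γ) = 0 := (mul_eq_zero.1 h0).resolve_left hpp
    have h2 : σ a γ = 0 := (map_eq_zero_iff φ φ.injective).1 h1
    have h3 : γ = 0 := (map_eq_zero_iff (σ a) (σ a).injective).1 h2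
    rw [key φ' a' ha', h3, map_zero, map_zero, mul_zero]
  · -- the coefficients are not constant
    by_contra hcon
    push Not at hcon
    apply hnot
    have hone : (1 : ZMod p) ≠ 0 := one_ne_zero
    have hconst : ∀ j : ZMod p, j ≠ 0 → t j = t 1 := by
      intro j hj
      have h1 := hcon (-j) (-1) (neg_ne_zero.2 hj) (neg_ne_zero.2 hone) (Ln K (m * p)).val
      have h2 : ((τ (-j) : Ln K (m * p)) : ℂ) = ((τ (-1) : Ln K (m * p)) : ℂ) :=
        ((hTτ (Ln K (m * p)).val (-j)).symm.trans h1).trans (hTτ (Ln K (m * p)).val (-1))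
      have h3 := hdiff (-j) (-1)
      have h4 : ((τ (-j) - τ (-1) : Ln K (m * p)) : ℂ) =
        ((τ (-j) : Ln K (m * p)) : ℂ) - ((τ (-1) : Ln K (m * p)) : ℂ) := rfl
      rw [h4, h2, sub_self, neg_neg, neg_neg] at h3
      have hpp : ((p : ℂ) / ((p : ℂ) - 1)) ≠ 0 := div_ne_zero hp0 hp1
      rcases mul_eq_zero.1 h3.symm with h5 | h5
      · exact absurd h5 hpp
      · exact sub_eq_zero.1 h5
    have h1 := ht2 1 1 AlgEquiv.refl rfl rfl (fun _ _ => rfl)
      (fun z hz => by rw [pow_one]; exact hz) x rfl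
    have h2 : α = ∑ j, t j * zt p ^ (1 * j.val) := h1
    rw [← Finset.add_sum_erase univ _ (mem_univ (0 : ZMod p))] at h2
    have h3 : ∑ j ∈ (univ : Finset (ZMod p)).erase 0, t j * zt p ^ (1 * j.val) =
        t 1 * ∑ j ∈ (univ : Finset (ZMod p)).erase 0, zt p ^ (j.val * (0 : ZMod p).val) *
          zt p ^ ((1 : ZMod p) * j).val := by
      rw [Finset.mul_sum]
      refine Finset.sum_congr rfl fun j hj => ?_
      rw [hconst j (Finset.ne_of_mem_erase hj)]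
      simp
    rw [h3, famA_char_sum_erase, if_neg (by simp)] at h2
    have h4 : α = t 0 - t 1 := by
      rw [h2]
      simp
      ring
    rw [h4]
    exact Subring.sub_mem _ (ht1 _) (ht1 _)
  · -- the values
    intro a _
    refine ⟨σ a, fun φ z hz => ?_⟩
    have h1 : z = x := Subtype.ext hz
    rw [h1]
    exact hFf φ a

end Pool.Agent.CYC
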