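import Mathlib
import Pool.Agent.Lib.MP_8ca0c8_nt_CYC2.Defs
import Pool.Agent.Lib.MP_8ca0c8_nt_CYC.Fejer

/-! Project CYC2 (MP_8ca0c8_nt), module FEJ2: Fejer bound for the coefficients `D`. -/

namespace Pool.Agent.CYC

open Finset

theorem fejer_D {Ω : Type} [Fintype Ω] {q : ℕ} [NeZero q] {Rg : IRing Ω} (G : BFam Ω q Rg)
    (ε1 : ℝ) (h1 : 0 < ε1) (R : ℕ) (hR0 : 1 ≤ R) (hR : 4 ≤ ε1 * (R : ℝ))
    (hκ : G.κ * (4 * ((R : ℝ) + 1) ^ 2) ≤ ε1 / 2) (j : ZMod q)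
    (hj : ∀ r : ℕ, 2 ≤ r → r ≤ R → (r : ZMod q) * j ∉ G.J) (φ : Ω) :
    2 * ‖G.D φ j‖ ≤ (1 + ε1) * G.m φ := by
  have hm := G.m_pos φ
  have hκ0 := G.hκ
  have hR1 : (1 : ℝ) ≤ R := by exact_mod_cast hR0
  have hT : ∀ r : ℕ, 2 ≤ r → r ≤ R → ‖FT (G.ψ φ) (G.w φ) (r * j)‖ ≤ G.κ * G.m φ := by
    intro r h2 h3
    have h4 := G.near φ ((r : ZMod q) * j)
    rw [G.hD0 _ (hj r h2 h3) φ, sub_zero] at h4
    exact h4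
  have h2 := fejer (G.ψ φ) (G.w φ) (G.w_nonneg φ) j R (G.κ * G.m φ)
    (mul_nonneg hκ0 hm.le) hT
  have h3 : ‖FT (G.ψ φ) (G.w φ) j‖ = ‖G.T φ j‖ := rfl
  have h4 : ∑ a, G.w φ a = G.m φ := rfl
  rw [h3, h4] at h2
  have h5 : ‖G.D φ j‖ ≤ ‖G.T φ j‖ + G.κ * G.m φ := by
    have h6 := norm_sub_le (G.T φ j) (G.T φ j - G.D φ j)
    rw [sub_sub_cancel] at h6
    linarith [G.near φ j]
  have h6 : ((R + 1 : ℝ) ^ 2 + 2 * R) * G.κ ≤ ε1 * R / 4 := by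
    have h7 : ((R + 1 : ℝ) ^ 2 + 2 * R) * G.κ ≤ (2 * (R + 1 : ℝ) ^ 2) * G.κ := by
      refine mul_le_mul_of_nonneg_right ?_ hκ0
      nlinarith
    nlinarith
  have h7 : 1 + ((R + 1 : ℝ) ^ 2 + 2 * R) * G.κ ≤ ε1 * R := by linarith
  have h8 : (1 + ((R + 1 : ℝ) ^ 2 + 2 * R) * G.κ) * G.m φ ≤ ε1 * R * G.m φ :=
    mul_le_mul_of_nonneg_right h7 hm.le
  have h9 : (2 * ‖G.D φ j‖) * R ≤ ((1 + ε1) * G.m φ) * R := by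
    have h10 : ‖G.D φ j‖ * (2 * R) ≤ (‖G.T φ j‖ + G.κ * G.m φ) * (2 * R) :=
      mul_le_mul_of_nonneg_right h5 (by positivity)
    nlinarith
  exact le_of_mul_le_mul_right h9 (by linarith)

end Pool.Agent.CYC
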