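import Mathlib
import Pool.Agent.Lib.MP_8ca0c8_nt_CYC2.Defs
import Pool.Agent.Lib.MP_8ca0c8_nt_CYC.FinLevel

/-! Project CYC2 (MP_8ca0c8_nt), module FIN2: Northcott. -/

namespace Pool.Agent.CYC

open Finset

theorem fin_level2 (L : IntermediateField ℚ ℂ) [FiniteDimensional ℚ L] (C : ℝ) :
    {α : ℂ | α ∈ L ∧ STP.IsTotallyPositive α ∧ (STP.meanTrace α).re < C}.Finite := by
  classical
  have hNF : NumberField L := ⟨⟩
  set dd : ℝ := (Fintype.card (L →ₐ[ℚ] ℂ) : ℝ) with hdd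
  have hfin := NumberField.Embeddings.finite_of_norm_le L ℂ (dd * C)
  refine (hfin.image (fun x : L => (x : ℂ))).subset ?_
  rintro α ⟨hαL, hpos, htr⟩
  refine ⟨⟨α, hαL⟩, ⟨?_, ?_⟩, rfl⟩
  · exact (isIntegral_algebraMap_iff (A := L) (B := ℂ) (R := ℤ) (x := (⟨α, hαL⟩ : L))
      (algebraMap L ℂ).injective).1 hpos.1
  · intro φ0
    set x : L := ⟨α, hαL⟩ with hx
    have hemb : ∀ φ : L →ₐ[ℚ] ℂ, ∃ r : ℝ, 0 < r ∧ φ x = r := fun φ => pos_emb hpos φ
    choose r hr0 hr using hemb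
    have hsum := sum_emb L x
    have hre : ∑ φ : L →ₐ[ℚ] ℂ, r φ = dd * (STP.meanTrace α).re := by
      have h1 := congrArg Complex.re hsum
      simp only [hr] at h1
      rw [Complex.re_sum] at h1
      simp only [Complex.ofReal_re] at h1
      rw [h1]
      have h2 : ((Fintype.card (L →ₐ[ℚ] ℂ) : ℂ)) = ((dd : ℝ) : ℂ) := by simp [hdd]
      rw [h2, Complex.re_ofReal_mul]
    set φ : L →ₐ[ℚ] ℂ := φ0.toRatAlgHom with hφ
    have h3 : φ0 x = r φ := hr φ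
    rw [h3, Complex.norm_real, Real.norm_eq_abs, abs_of_pos (hr0 φ)]
    have h4 : r φ ≤ ∑ φ : L →ₐ[ℚ] ℂ, r φ :=
      Finset.single_le_sum (fun ψ _ => (hr0 ψ).le) (Finset.mem_univ φ)
    rw [hre] at h4
    refine h4.trans ?_
    have h5 : 0 ≤ dd := Nat.cast_nonneg _
    exact mul_le_mul_of_nonneg_left htr.le h5

end Pool.Agent.CYC
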