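import Mathlib
import Pool.Agent.Lib.MP_8ca0c8_nt_CYC2.Defs

/-! Project CYC2 (MP_8ca0c8_nt), module TBREL: relation between the levels. -/

namespace Pool.Agent.CYC

open Finset

theorem tB_rel (c : ℕ → ℂ) (n p s' s : ℕ) (hp : 0 < p) (hs : s' ≤ s) (j' : ZMod (p ^ s'))
    (h : tB c n (p ^ s') j' ≠ 0) : ∃ j : ZMod (p ^ s), tB c n (p ^ s) j ≠ 0 ∧
      ((j.val : ℕ) : ZMod (p ^ s')) = j' := by
  classical
  haveI : NeZero (p ^ s) := ⟨(pow_pos hp s).ne'⟩
  have hdvd : p ^ s' ∣ p ^ s := pow_dvd_pow p hs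
  have hcast : ∀ i : ℕ, ((((i : ZMod (p ^ s)).val : ℕ)) : ZMod (p ^ s')) = (i : ZMod (p ^ s')) := by
    intro i
    rw [ZMod.val_natCast]
    exact (ZMod.natCast_eq_natCast_iff _ _ _).mpr ((Nat.mod_modEq i (p ^ s)).of_dvd hdvd)
  have key : tB c n (p ^ s') j' = ∑ j ∈ (univ : Finset (ZMod (p ^ s))).filter
      (fun j => ((j.val : ℕ) : ZMod (p ^ s')) = j'), tB c n (p ^ s) j := by
    unfold tB
    rw [← sum_fiberwise_of_maps_to (s := (range n).filter (fun i : ℕ => (i : ZMod (p ^ s')) = j'))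
      (t := (univ : Finset (ZMod (p ^ s))).filter (fun j => ((j.val : ℕ) : ZMod (p ^ s')) = j'))
      (g := fun i : ℕ => (i : ZMod (p ^ s)))]
    · refine sum_congr rfl fun j hj => ?_
      refine sum_congr ?_ fun _ _ => rfl
      ext i
      simp only [mem_filter, mem_univ, true_and, mem_range] at hj ⊢
      constructor
      · rintro ⟨⟨h1, -⟩, h3⟩
        exact ⟨h1, h3⟩
      · rintro ⟨h1, h3⟩
        exact ⟨⟨h1, by rw [← hj, ← h3, hcast]⟩, h3⟩
    · intro i hi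
      simp only [mem_filter, mem_univ, true_and, mem_range] at hi ⊢
      rw [hcast]
      exact hi.2
  rw [key] at h
  obtain ⟨j, hj, hj0⟩ := exists_ne_zero_of_sum_ne_zero h
  exact ⟨j, hj0, (mem_filter.mp hj).2⟩

end Pool.Agent.CYC
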