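import Mathlib
import Pool.Agent.Lib.MP_8ca0c8_nt_CYC2.Amgm2
import Pool.Agent.Lib.MP_8ca0c8_nt_CYC.Sparse

/-! Project CYC2 (MP_8ca0c8_nt), module LARGE2: large support. -/

namespace Pool.Agent.CYC

open Finset

theorem large_case2 (ε : ℝ) (hε : 0 < ε) : ∃ (X0 : ℕ) (k0 : ℝ), 0 < k0 ∧
    ∀ {Ω : Type} [Fintype Ω] {q : ℕ} [NeZero q] (F : Fam Ω q) (_ : F.Aux) (J : Finset (ZMod q))
      (D : Ω → ZMod q → ℂ), X0 ≤ J.card → (∀ φ, ∀ j ∈ J, D φ j ≠ 0) →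
      (∀ j ∈ J, -k0 * Fintype.card Ω ≤ ∑ φ, Real.log ‖D φ j‖) →
      (∀ φ, ∀ j ∈ J, ‖D φ j‖ ≤ ‖F.T φ j‖ + k0 * F.m φ) →
      (5 / 2 - ε) * Fintype.card Ω ≤ ∑ φ, F.m φ := by
  obtain ⟨C, hC0, hC⟩ := two_of_sparse2
  obtain ⟨k, hkdef⟩ : ∃ k : ℝ, k = min ε 1 / 64 := ⟨_, rfl⟩
  have hk0 : 0 < k := by rw [hkdef]; positivity
  have hkε : 64 * k ≤ ε := by rw [hkdef]; linarith [min_le_left ε 1]
  have hk1 : 64 * k ≤ 1 := by rw [hkdef]; linarith [min_le_right ε 1]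
  have hlog : 0 ≤ C (8 * k) := hC0 _
  obtain ⟨X1, hX1⟩ := exists_nat_ge (8 * (1 / k + 1) * C (8 * k) / (k ^ 2 * ε))
  refine ⟨X1 + 1, k, hk0, ?_⟩
  intro Ω _ q _ F hF J D hJX hD0 hDlog hDT
  by_cases hbig : 3 * (Fintype.card Ω : ℝ) < ∑ φ, F.m φ
  · have hc : (0 : ℝ) ≤ Fintype.card Ω := Nat.cast_nonneg _
    nlinarith
  rw [not_lt] at hbig
  have hJpos : 0 < J.card := by omega
  have hJne : J.Nonempty := Finset.card_pos.mp hJpos
  have hJr : (0 : ℝ) < J.card := by exact_mod_cast hJpos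
  have hXJ : (X1 : ℝ) + 1 ≤ J.card := by exact_mod_cast hJX
  have hX1r : (0 : ℝ) ≤ X1 := Nat.cast_nonneg _
  have hSr : (0 : ℝ) < F.S.card := by exact_mod_cast F.card_pos
  choose E hE1 hE2 using fun φ =>
    sparse_set (F.hψ φ) (F.w φ) (F.w_nonneg φ) J hJne k hk0
  obtain ⟨e, hedef⟩ : ∃ e : ℝ, e = 2 * (1 / k + 1) / (k ^ 2 * (X1 + 1)) := ⟨_, rfl⟩
  have he0 : 0 ≤ e := by rw [hedef]; positivity
  -- the size of the sparse sets
  have hEe : ∀ φ, ((E φ).card : ℝ) ≤ e * F.S.card := by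
    intro φ
    have hq : (q : ℝ) ≤ 2 * F.S.card := by exact_mod_cast F.hS
    have h1 : ((E φ).card : ℝ) * (k ^ 2 * (X1 + 1)) ≤ 2 * (1 / k + 1) * F.S.card := by
      calc ((E φ).card : ℝ) * (k ^ 2 * (X1 + 1)) ≤ ((E φ).card : ℝ) * (k ^ 2 * J.card) := by
            gcongr
        _ ≤ (1 / k + 1) * q := hE1 φ
        _ ≤ (1 / k + 1) * (2 * F.S.card) := by gcongr
        _ = 2 * (1 / k + 1) * F.S.card := by ring
    have h2 : (0 : ℝ) < k ^ 2 * (X1 + 1) := by positivity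
    rw [hedef, div_mul_eq_mul_div, le_div_iff₀ h2]
    exact h1
  have helog : e * C (8 * k) ≤ ε / 4 := by
    have h2 : (0 : ℝ) < k ^ 2 * (X1 + 1) := by positivity
    rw [hedef, div_mul_eq_mul_div, div_le_iff₀ h2]
    have h3 : (0 : ℝ) < k ^ 2 * ε := by positivity
    rw [div_le_iff₀ h3] at hX1
    have h4 : (0 : ℝ) ≤ k ^ 2 * ε := h3.le
    nlinarith
  -- the mass of the sparse sets
  have hsumD : ∀ φ, ∑ j ∈ J, ‖D φ j‖ ≤
      J.card * (∑ a ∈ E φ, F.w φ a) + 3 * k * F.m φ * J.card := by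
    intro φ
    have h1 : ∑ j ∈ J, ‖D φ j‖ ≤ ∑ j ∈ J, ((∑ a ∈ E φ, F.w φ a) +
        ‖FT (F.ψ φ) (fun a => if a ∈ E φ then 0 else F.w φ a) j‖ + k * F.m φ) := by
      refine Finset.sum_le_sum fun j hj => (hDT φ j hj).trans ?_
      have := norm_FT_le_add (F.ψ φ) (F.w_nonneg φ) (E φ) j
      exact add_le_add this le_rfl
    rw [Finset.sum_add_distrib, Finset.sum_add_distrib, Finset.sum_const, Finset.sum_const,
      nsmul_eq_mul, nsmul_eq_mul] at h1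
    have h2 := hE2 φ
    have h3 : (∑ a, F.w φ a) = F.m φ := rfl
    rw [h3] at h2
    linarith
  have hlow : (J.card : ℝ) * ((1 - k) * Fintype.card Ω) ≤ ∑ φ, ∑ j ∈ J, ‖D φ j‖ := by
    rw [Finset.sum_comm]
    have h1 : ∀ j ∈ J, (1 - k) * (Fintype.card Ω : ℝ) ≤ ∑ φ, ‖D φ j‖ := by
      intro j hj
      have h2 : ∑ φ : Ω, (1 + Real.log ‖D φ j‖) ≤ ∑ φ, ‖D φ j‖ := by
        refine Finset.sum_le_sum fun φ _ => ?_
        have h3 : 0 < ‖D φ j‖ := norm_pos_iff.mpr (hD0 φ j hj)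
        have h4 := Real.log_le_sub_one_of_pos h3
        linarith
      rw [Finset.sum_add_distrib, Finset.sum_const, nsmul_eq_mul, mul_one, Finset.card_univ] at h2
      have h5 := hDlog j hj
      linarith
    calc (J.card : ℝ) * ((1 - k) * Fintype.card Ω)
        = ∑ j ∈ J, (1 - k) * (Fintype.card Ω : ℝ) := by
          rw [Finset.sum_const, nsmul_eq_mul]
      _ ≤ ∑ j ∈ J, ∑ φ, ‖D φ j‖ := Finset.sum_le_sum h1
  have hup : ∑ φ, ∑ j ∈ J, ‖D φ j‖ ≤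
      J.card * ((∑ φ, ∑ a ∈ E φ, F.w φ a) + 3 * k * ∑ φ, F.m φ) := by
    refine (Finset.sum_le_sum fun φ _ => hsumD φ).trans (le_of_eq ?_)
    rw [Finset.sum_add_distrib, mul_add, Finset.mul_sum, Finset.mul_sum, Finset.mul_sum]
    congr 1
    refine Finset.sum_congr rfl fun φ _ => ?_
    ring
  have hA : (1 - 10 * k) * (Fintype.card Ω : ℝ) ≤ ∑ φ, ∑ a ∈ E φ, F.w φ a := by
    have h1 : (1 - k) * (Fintype.card Ω : ℝ) ≤
        (∑ φ, ∑ a ∈ E φ, F.w φ a) + 3 * k * ∑ φ, F.m φ :=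
      le_of_mul_le_mul_left (hlow.trans hup) hJr
    have h2 : 3 * k * ∑ φ, F.m φ ≤ 3 * k * (3 * Fintype.card Ω) := by gcongr
    linarith
  have hfin := hC F hF E e (1 - 10 * k) (8 * k) (by linarith) (by linarith) he0 hEe hA
  refine le_trans ?_ hfin
  have hc : (0 : ℝ) ≤ Fintype.card Ω := Nat.cast_nonneg _
  apply mul_le_mul_of_nonneg_right _ hc
  nlinarith [sq_nonneg k]

end Pool.Agent.CYC
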