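import Mathlib
import Pool.Agent.Lib.MP_8ca0c8_nt_CYC2.Amgm2
import Pool.Agent.Lib.MP_8ca0c8_nt_CYC.Sparse
import Pool.Agent.Lib.MP_8ca0c8_nt_CYC.Vand
import Pool.Agent.Lib.MP_8ca0c8_nt_CYC.VandCase

/-! Project CYC2 (MP_8ca0c8_nt), module VANDCASE2: many distinct values. -/

namespace Pool.Agent.CYC

open Finset

/-- the main step, `ε ≤ 1` -/
theorem VandCase2_main {ε : ℝ} (hε : 0 < ε) (hε1 : ε ≤ 1) {Ω : Type} [Fintype Ω] {q : ℕ}
    [NeZero q] (F : Fam Ω q) (hAux : F.Aux) (C : ℝ → ℝ)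
    (hC : ∀ {Ω : Type} [Fintype Ω] {q : ℕ} [NeZero q] (F : Fam Ω q) (_ : F.Aux)
      (E : Ω → Finset (ZMod q)) (e A0 lam : ℝ), 0 < lam → lam ≤ 1 → 0 ≤ e →
      (∀ φ, ((E φ).card : ℝ) ≤ e * F.S.card) →
      A0 * Fintype.card Ω ≤ ∑ φ, ∑ a ∈ E φ, F.w φ a →
      ((1 - lam) * A0 + 3 / 2 - e * C lam) * Fintype.card Ω ≤ ∑ φ, F.m φ)
    (J : Finset (ZMod q)) (hN2 : 2 ≤ J.card)
    (hN3 : (32 / ε) ^ 2 ≤ (J.card : ℝ))
    (hN4 : 2 * (1 / (ε ^ 2 / 4096) + 1) / (ε ^ 2 / 4096) ^ 2 * C (ε / 32) * 8 / ε ≤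
      (J.card : ℝ))
    (hinj : ∀ i ∈ J, ∀ j ∈ J, i ≠ j → ∀ φ, F.T φ i ≠ F.T φ j)
    (hlog : ∀ i ∈ J, ∀ j ∈ J, i ≠ j → 0 ≤ ∑ φ, Real.log ‖F.T φ i - F.T φ j‖)
    (hM : ∑ φ, F.m φ ≤ 3 * Fintype.card Ω) :
    (5 / 2 - ε) * Fintype.card Ω ≤ ∑ φ, F.m φ := by
  classical
  set τ : ℝ := ε ^ 2 / 4096 with hτ
  set η : ℝ := ε / 32 with hη
  have hτ0 : 0 < τ := by positivity
  have hη0 : 0 < η := by positivity
  set N : ℝ := (J.card : ℝ) with hN
  have hNge : (2 : ℝ) ≤ N := by rw [hN]; exact_mod_cast hN2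
  have hJ : J.Nonempty := Finset.card_pos.mp (by omega)
  have hsp := fun φ : Ω => sparse_set (F.hψ φ) (F.w φ) (F.w_nonneg φ) J hJ τ hτ0
  choose E hE1 hE2 using hsp
  set A : Ω → ℝ := fun φ => ∑ a ∈ E φ, F.w φ a with hA
  have hA0 : ∀ φ, 0 ≤ A φ := fun φ => Finset.sum_nonneg fun a _ => F.w_nonneg φ a
  set n : ℝ := (Fintype.card Ω : ℝ) with hn
  have hn0 : 0 ≤ n := Nat.cast_nonneg _
  -- the bound for one place
  have key : ∀ φ : Ω, ∑ x ∈ J.offDiag, Real.log ‖F.T φ x.1 - F.T φ x.2‖ ≤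
      2 * (N * Real.log N) + N * (N - 1) * (A φ + η - 1) +
        2 * (N - 1) * (2 * τ * F.m φ * N / η) := by
    intro φ
    have hB : 0 < A φ + η := by linarith [hA0 φ]
    have hz : Set.InjOn (F.T φ) J := by
      intro i hi j hj hij
      by_contra hne
      exact hinj i hi j hj hne φ hij
    refine (vand_log J (F.T φ) hz (A φ + η) hB).trans ?_
    have h1 : 2 * Real.log (J.card.factorial) ≤ 2 * (N * Real.log N) := by
      have := VandCase_fact J.card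
      linarith
    have h2 : (J.card : ℝ) * (J.card - 1) * Real.log (A φ + η) ≤
        N * (N - 1) * (A φ + η - 1) := by
      apply mul_le_mul_of_nonneg_left (Real.log_le_sub_one_of_pos hB)
      apply mul_nonneg <;> linarith
    have h3 : 2 * ((J.card : ℝ) - 1) * ∑ i ∈ J, Real.log (max 1 (‖F.T φ i‖ / (A φ + η))) ≤
        2 * (N - 1) * (2 * τ * F.m φ * N / η) := by
      apply mul_le_mul_of_nonneg_left _ (by linarith)
      calc ∑ i ∈ J, Real.log (max 1 (‖F.T φ i‖ / (A φ + η)))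
          ≤ ∑ i ∈ J, ‖FT (F.ψ φ) (fun a => if a ∈ E φ then 0 else F.w φ a) i‖ / η := by
            apply Finset.sum_le_sum
            intro i _
            apply VandCase_max (hA0 φ) hη0 (norm_nonneg _)
            exact norm_FT_le_add (F.ψ φ) (F.w_nonneg φ) (E φ) i
        _ = (∑ i ∈ J, ‖FT (F.ψ φ) (fun a => if a ∈ E φ then 0 else F.w φ a) i‖) / η := by
            rw [Finset.sum_div]
        _ ≤ 2 * τ * F.m φ * N / η := by
            apply div_le_div_of_nonneg_right _ hη0.le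
            exact hE2 φ
    linarith
  -- sum over the places
  have hsum0 : 0 ≤ ∑ φ, ∑ x ∈ J.offDiag, Real.log ‖F.T φ x.1 - F.T φ x.2‖ := by
    rw [Finset.sum_comm]
    apply Finset.sum_nonneg
    intro x hx
    rw [Finset.mem_offDiag] at hx
    exact hlog x.1 hx.1 x.2 hx.2.1 hx.2.2
  have hsum1 : ∑ φ, ∑ x ∈ J.offDiag, Real.log ‖F.T φ x.1 - F.T φ x.2‖ ≤
      n * (2 * (N * Real.log N)) + N * (N - 1) * (∑ φ, A φ + n * (η - 1)) +
        2 * (N - 1) * (2 * τ * (∑ φ, F.m φ) * N / η) := by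
    refine (Finset.sum_le_sum fun φ _ => key φ).trans (le_of_eq ?_)
    rw [Finset.sum_add_distrib, Finset.sum_add_distrib, Finset.sum_const, Finset.card_univ,
      nsmul_eq_mul, ← Finset.mul_sum, ← Finset.mul_sum]
    congr 1
    · congr 2
      have : ∀ φ, A φ + η - 1 = A φ + (η - 1) := fun φ => by ring
      simp only [this]
      rw [Finset.sum_add_distrib, Finset.sum_const, Finset.card_univ, nsmul_eq_mul]
    · congr 1
      rw [← Finset.sum_div, ← Finset.sum_mul, ← Finset.mul_sum]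
  have hlg := VandCase_log hε J.card (by omega) hN3
  have hP : 0 < N * (N - 1) := by apply mul_pos <;> linarith
  -- the mass of the sparse sets
  have hAsum : (1 - 9 * ε / 32) * n ≤ ∑ φ, A φ := by
    have e1 : n * (2 * (N * Real.log N)) ≤ N * (N - 1) * (ε / 8 * n) := by
      have h1 : N * (2 * Real.log N) ≤ N * (ε / 8 * (N - 1)) :=
        mul_le_mul_of_nonneg_left hlg (by linarith)
      nlinarith
    have e2 : 2 * (N - 1) * (2 * τ * (∑ φ, F.m φ) * N / η) ≤ N * (N - 1) * (ε / 8 * n) := by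
      have h1 : 2 * (N - 1) * (2 * τ * (∑ φ, F.m φ) * N / η) =
          N * (N - 1) * (4 * τ / η * ∑ φ, F.m φ) := by ring
      have h2 : 4 * τ / η = ε / 32 := by
        rw [hτ, hη]
        field_simp
        norm_num
      rw [h1, h2]
      apply mul_le_mul_of_nonneg_left _ hP.le
      nlinarith
    have e3 : 0 ≤ N * (N - 1) * (ε / 8 * n + (∑ φ, A φ + n * (η - 1)) + ε / 8 * n) := by
      nlinarith
    have e4 := nonneg_of_mul_nonneg_right e3 hP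
    rw [hη] at e4
    linarith
  -- the conclusion
  set e : ℝ := 2 * (1 / τ + 1) / (τ ^ 2 * N) with he
  have he0 : 0 ≤ e := by positivity
  have hE3 : ∀ φ, ((E φ).card : ℝ) ≤ e * F.S.card := by
    intro φ
    have h1 := hE1 φ
    have h2 : (q : ℝ) ≤ 2 * F.S.card := by exact_mod_cast F.hS
    have h3 : 0 < τ ^ 2 * N := by positivity
    rw [he, div_mul_eq_mul_div, le_div_iff₀ h3]
    calc ((E φ).card : ℝ) * (τ ^ 2 * N) ≤ (1 / τ + 1) * q := h1
      _ ≤ (1 / τ + 1) * (2 * F.S.card) := mul_le_mul_of_nonneg_left h2 (by positivity)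
      _ = 2 * (1 / τ + 1) * F.S.card := by ring
  have hfin := hC F hAux E e (1 - 9 * ε / 32) η hη0 (by rw [hη]; linarith) he0 hE3 hAsum
  refine le_trans ?_ hfin
  apply mul_le_mul_of_nonneg_right _ hn0
  have h5 : e * C η ≤ ε / 8 := by
    have hN0 : 0 < N := by linarith
    have h6 : e * C η = (2 * (1 / τ + 1) / τ ^ 2 * C η) / N := by
      rw [he]
      field_simp
    rw [h6, div_le_iff₀ hN0]
    have h7 := hN4
    rw [div_le_iff₀ hε] at h7
    linarith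
  have h8 : (1 - η) * (1 - 9 * ε / 32) ≥ 1 - 10 * ε / 32 := by
    rw [hη]
    nlinarith
  linarith

theorem vand_case2 (ε : ℝ) (hε : 0 < ε) : ∃ N0 : ℕ,
    ∀ {Ω : Type} [Fintype Ω] {q : ℕ} [NeZero q] (F : Fam Ω q) (_ : F.Aux) (J : Finset (ZMod q)),
      N0 ≤ J.card → (∀ i ∈ J, ∀ j ∈ J, i ≠ j → ∀ φ, F.T φ i ≠ F.T φ j) →
      (∀ i ∈ J, ∀ j ∈ J, i ≠ j → 0 ≤ ∑ φ, Real.log ‖F.T φ i - F.T φ j‖) →
      (5 / 2 - ε) * Fintype.card Ω ≤ ∑ φ, F.m φ := by
  obtain ⟨C, hC0, hC⟩ := two_of_sparse2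
  set δ : ℝ := min ε 1 with hδ
  have hδ0 : 0 < δ := lt_min hε one_pos
  have hδ1 : δ ≤ 1 := min_le_right _ _
  have hδε : δ ≤ ε := min_le_left _ _
  set K : ℝ := 2 * (1 / (δ ^ 2 / 4096) + 1) / (δ ^ 2 / 4096) ^ 2 * C (δ / 32) * 8 / δ
    with hK
  refine ⟨2 + ⌈(32 / δ) ^ 2⌉₊ + ⌈K⌉₊, ?_⟩
  intro Ω _ q _ F hAux J hJ hinj hlog
  have hn0 : (0 : ℝ) ≤ Fintype.card Ω := Nat.cast_nonneg _
  by_cases hM : ∑ φ, F.m φ ≤ 3 * Fintype.card Ω
  · have h1 : (32 / δ) ^ 2 ≤ (J.card : ℝ) := by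
      refine (Nat.le_ceil _).trans ?_
      exact_mod_cast (by omega : ⌈(32 / δ) ^ 2⌉₊ ≤ J.card)
    have h2 : K ≤ (J.card : ℝ) := by
      refine (Nat.le_ceil _).trans ?_
      exact_mod_cast (by omega : ⌈K⌉₊ ≤ J.card)
    have h3 := VandCase2_main hδ0 hδ1 F hAux C hC J (by omega) h1 h2 hinj hlog hM
    refine le_trans ?_ h3
    apply mul_le_mul_of_nonneg_right _ hn0
    linarith
  · push Not at hM
    nlinarith

end Pool.Agent.CYC
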