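import Mathlib
import Pool.Agent.Lib.MP_8ca0c8_nt_CYC2.Large2
import Pool.Agent.Lib.MP_8ca0c8_nt_CYC2.VandCase2
import Pool.Agent.Lib.MP_8ca0c8_nt_CYC2.Good2
import Pool.Agent.Lib.MP_8ca0c8_nt_CYC2.Bst
import Pool.Agent.Lib.MP_8ca0c8_nt_CYC.Cohen
import Pool.Agent.Lib.MP_8ca0c8_nt_CYC.ThA

/-! Project CYC2 (MP_8ca0c8_nt), module THA2: prime order. -/

namespace Pool.Agent.CYC

open Finset

/-- Fourier inversion -/
theorem tha2_inv {q : ℕ} [NeZero q] {ψ : AddChar (ZMod q) ℂ} (hψ : ψ.IsPrimitive)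
    (w : ZMod q → ℝ) (a : ZMod q) : ∑ u, FT ψ w u * ψ (-(u * a)) = q * w a := by
  have h1 : ∀ u, FT ψ w u * ψ (-(u * a)) = ∑ b, (w b : ℂ) * ψ (u * (b - a)) := by
    intro u
    rw [FT, Finset.sum_mul]
    refine Finset.sum_congr rfl fun b _ => ?_
    rw [mul_assoc, ← AddChar.map_add_eq_mul]
    congr 2
    ring
  rw [Finset.sum_congr rfl fun u _ => h1 u, Finset.sum_comm]
  have h2 : ∀ b : ZMod q, ∑ u : ZMod q, (w b : ℂ) * ψ (u * (b - a)) =
      if b = a then (q : ℂ) * w b else 0 := by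
    intro b
    rw [← Finset.mul_sum, AddChar.sum_mulShift (b - a) hψ, ZMod.card]
    by_cases h : b = a
    · rw [if_pos h, if_pos (by rw [h, sub_self]), mul_comm]
    · rw [if_neg h, if_neg (sub_ne_zero.mpr h)]
      simp
  rw [Finset.sum_congr rfl fun b _ => h2 b, Finset.sum_ite_eq' univ a, if_pos (mem_univ _)]

theorem tha2_char_sum {q : ℕ} [NeZero q] {ψ : AddChar (ZMod q) ℂ} (hψ : ψ.IsPrimitive)
    (a : ZMod q) (ha : a ≠ 0) : ∑ u : ZMod q, ψ (-(u * a)) = 0 := by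
  have h := AddChar.sum_mulShift (-a) hψ
  rw [if_neg (neg_ne_zero.mpr ha)] at h
  simpa [mul_neg] using h

theorem theoremA2 (ε : ℝ) (hε : 0 < ε) : ∃ P0 : ℕ,
    ∀ {Ω : Type} [Fintype Ω] [Nonempty Ω] {p : ℕ} [Fact p.Prime] (Rg : IRing Ω) (F : Fam Ω p),
      P0 ≤ p → F.S = univ.erase 0 → F.Aux → (∀ b, (fun φ => F.ψ φ b) ∈ Rg.A) →
      (∀ i j, (fun φ => (((p : ℂ) - 1) / p) * (F.T φ i - F.T φ j)) ∈ Rg.A) →
      (∀ (t : ZMod p) (J1 : Finset (ZMod p)), ∀ a ∈ F.S, ∀ a' ∈ F.S, ∀ φ φ',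
        ∑ u ∈ J1, (F.T φ u - F.T φ t) * F.ψ φ (-(u * a)) = 0 →
        ∑ u ∈ J1, (F.T φ' u - F.T φ' t) * F.ψ φ' (-(u * a')) = 0) →
      (∃ i j : ZMod p, i ≠ 0 ∧ j ≠ 0 ∧ ∃ φ, F.T φ i ≠ F.T φ j) →
      (5 / 2 - ε) * Fintype.card Ω ≤ ∑ φ, F.m φ ∨
      ∀ a ∈ F.S, ∃ x ∈ Rg.A, ∀ φ, ‖x φ‖ = 1 ∧
        (F.f φ a : ℂ) = 2 + x φ + (starRingEnd ℂ) (x φ) := by
  classical
  obtain ⟨X0, k1, hk1, hL⟩ := large_case2 ε hε
  obtain ⟨B, κ0, hκ0, hBST⟩ := bst ε hε X0
  obtain ⟨N0, hV⟩ := vand_case2 ε hε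
  obtain ⟨M1, d0, hM1, hd0, hG⟩ := good_place2 N0
  have hrho : 0 < min (1 / 4) (k1 / 2) := by positivity
  obtain ⟨P1, hC⟩ := cohen M1 d0 (min (1 / 4) (k1 / 2)) hM1 hd0 hrho
  refine ⟨max P1 (max (B + X0 + 4) (⌈(X0 : ℝ) + (1 + X0) / (κ0 / 2)⌉₊)), ?_⟩
  intro Ω _ _ p _ Rg F hp hS hAux hψA hdiff hgal h2
  have hpP1 : P1 ≤ p := (le_max_left _ _).trans hp
  have hpB : B + X0 + 4 ≤ p := ((le_max_left _ _).trans (le_max_right _ _)).trans hp
  have hpX : (X0 : ℝ) + (1 + X0) / (κ0 / 2) ≤ p :=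
    (Nat.le_ceil _).trans (by exact_mod_cast ((le_max_right _ _).trans (le_max_right _ _)).trans hp)
  have hpprime : p.Prime := Fact.out
  have hp0 : (0 : ℝ) < p := by exact_mod_cast hpprime.pos
  have hp1 : (1 : ℝ) < p := by exact_mod_cast hpprime.one_lt
  have hpC : (p : ℂ) ≠ 0 := by exact_mod_cast hpprime.ne_zero
  have hp1C : (p : ℂ) - 1 ≠ 0 := by
    rw [sub_ne_zero]
    exact_mod_cast hpprime.one_lt.ne'
  have hcp : (((p : ℂ) - 1) / p) ≠ 0 := div_ne_zero hp1C hpC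
  have hcpn : ‖(((p : ℂ) - 1) / p)‖ = ((p : ℝ) - 1) / p := by
    have : (((p : ℂ) - 1) / p) = ((((p : ℝ) - 1) / p : ℝ) : ℂ) := by push_cast; rfl
    rw [this, Complex.norm_real, Real.norm_eq_abs, abs_of_nonneg]
    exact div_nonneg (by linarith) hp0.le
  have hcplog : Real.log (((p : ℝ) - 1) / p) ≤ 0 :=
    Real.log_nonpos (div_nonneg (by linarith) hp0.le) (by rw [div_le_one hp0]; linarith)
  -- the dichotomy for differences
  have h1 : ∀ i j, (∀ φ, F.T φ i = F.T φ j) ∨ ((∀ φ, F.T φ i ≠ F.T φ j) ∧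
      0 ≤ ∑ φ, Real.log ‖F.T φ i - F.T φ j‖) := by
    intro i j
    by_cases h0 : (fun φ => (((p : ℂ) - 1) / p) * (F.T φ i - F.T φ j)) = 0
    · left
      intro φ
      have h3 := congrFun h0 φ
      simp only [Pi.zero_apply] at h3
      rcases mul_eq_zero.mp h3 with h4 | h4
      · exact absurd h4 hcp
      · exact sub_eq_zero.mp h4
    · right
      obtain ⟨h3, h4⟩ := Rg.hA _ (hdiff i j) h0
      have h5 : ∀ φ, F.T φ i - F.T φ j ≠ 0 := fun φ h => h3 φ (by simp only [h, mul_zero])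
      refine ⟨fun φ => sub_ne_zero.mp (h5 φ), h4.trans (Finset.sum_le_sum fun φ _ => ?_)⟩
      rw [norm_mul, Real.log_mul (norm_ne_zero_iff.mpr hcp) (norm_ne_zero_iff.mpr (h5 φ)), hcpn]
      linarith
  by_cases hlt' : (5 / 2 - ε) * Fintype.card Ω ≤ ∑ φ, F.m φ
  · exact Or.inl hlt'
  have hlt : ∑ φ, F.m φ < (5 / 2 - ε) * Fintype.card Ω := not_le.mp hlt'
  have hcard : (0 : ℝ) < Fintype.card Ω := by exact_mod_cast Fintype.card_pos
  have hsum : ∑ φ, F.m φ ≤ 3 * Fintype.card Ω := by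
    refine hlt.le.trans ?_
    exact mul_le_mul_of_nonneg_right (by linarith) hcard.le
  -- representatives of the values
  let r : Setoid (ZMod p) := ⟨fun i j => ∀ φ, F.T φ i = F.T φ j,
    fun _ _ => rfl, fun h φ => (h φ).symm, fun h h' φ => (h φ).trans (h' φ)⟩
  set J : Finset (ZMod p) := univ.image (fun x => (Quotient.mk r x).out) with hJ
  have hJrep : ∀ x, ∃ i ∈ J, ∀ φ, F.T φ x = F.T φ i := fun x =>
    ⟨_, mem_image_of_mem _ (mem_univ x), fun φ => (Quotient.mk_out (s := r) x φ).symm⟩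
  have hJne : ∀ i ∈ J, ∀ j ∈ J, i ≠ j → ¬ ∀ φ, F.T φ i = F.T φ j := by
    intro i hi j hj hij h
    obtain ⟨x, -, rfl⟩ := mem_image.mp hi
    obtain ⟨y, -, rfl⟩ := mem_image.mp hj
    apply hij
    have h3 : (Quotient.mk r x) = (Quotient.mk r y) := by
      rw [← Quotient.out_eq (Quotient.mk r x), ← Quotient.out_eq (Quotient.mk r y)]
      exact Quotient.sound h
    rw [h3]
  have hJ1 : ∀ i ∈ J, ∀ j ∈ J, i ≠ j → ∀ φ, F.T φ i ≠ F.T φ j := fun i hi j hj hij =>
    ((h1 i j).resolve_left (hJne i hi j hj hij)).1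
  have hJ2 : ∀ i ∈ J, ∀ j ∈ J, i ≠ j → 0 ≤ ∑ φ, Real.log ‖F.T φ i - F.T φ j‖ :=
    fun i hi j hj hij => ((h1 i j).resolve_left (hJne i hi j hj hij)).2
  by_cases hN : N0 ≤ J.card
  · exact Or.inl (hV F hAux J hN hJ1 hJ2)
  push Not at hN
  obtain ⟨φ0, hφ0, hsep⟩ := hG F J hN.le hsum hJ1 hJ2
  obtain ⟨t, ht⟩ := hC p hpP1 (F.ψ φ0) (F.hψ φ0) (F.w φ0) (F.w_nonneg φ0) hφ0 (fun i j => by
    obtain ⟨i', hi', hii⟩ := hJrep i
    obtain ⟨j', hj', hjj⟩ := hJrep j
    by_cases hij : i' = j'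
    · left
      have := (hii φ0).trans ((hij ▸ rfl : F.T φ0 i' = F.T φ0 j').trans (hjj φ0).symm)
      exact this
    · right
      have := hsep i' hi' j' hj' hij
      rw [← hii φ0, ← hjj φ0] at this
      exact this)
  set J' : Finset (ZMod p) := univ.filter (fun j => ∃ φ, F.T φ j ≠ F.T φ t) with hJ'
  have hJ'0 : ∀ j, j ∉ J' → ∀ φ, F.T φ j = F.T φ t := fun j hj φ => by
    by_contra h
    exact hj (mem_filter.mpr ⟨mem_univ _, φ, h⟩)
  have hJ'1 : ∀ j ∈ J', (∀ φ, F.T φ j ≠ F.T φ t) ∧ 0 ≤ ∑ φ, Real.log ‖F.T φ j - F.T φ t‖ :=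
    fun j hj => by
      obtain ⟨φ, hφ⟩ := (mem_filter.mp hj).2
      exact (h1 j t).resolve_left fun h => hφ (h φ)
  have hJ'card : (J'.card : ℝ) ≤ min (1 / 4) (k1 / 2) * p := by
    refine le_trans ?_ ht
    have : J' ⊆ univ.filter (fun j => FT (F.ψ φ0) (F.w φ0) j ≠ FT (F.ψ φ0) (F.w φ0) t) :=
      fun j hj => mem_filter.mpr ⟨mem_univ _, (hJ'1 j hj).1 φ0⟩
    exact_mod_cast Finset.card_le_card this
  have ht1 : ∀ φ, ((p : ℝ) - J'.card) * ‖F.T φ t‖ ≤ J'.card * F.m φ := fun φ =>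
    majority_small F hS J' t φ fun j hj => hJ'0 j hj φ
  have hJ'4 : (J'.card : ℝ) ≤ 1 / 4 * p := hJ'card.trans
    (mul_le_mul_of_nonneg_right (min_le_left _ _) hp0.le)
  have hD : ∀ φ, ∀ j, ∀ k : ℝ, ‖F.T φ t‖ ≤ k * F.m φ →
      ‖F.T φ j - F.T φ t‖ ≤ ‖F.T φ j‖ + k * F.m φ := fun φ j k h =>
    (norm_sub_le _ _).trans (add_le_add le_rfl h)
  by_cases hX : X0 ≤ J'.card
  · refine Or.inl (hL F hAux J' (fun φ j => F.T φ j - F.T φ t) hX
      (fun φ j hj => sub_ne_zero.mpr ((hJ'1 j hj).1 φ)) (fun j hj => ?_)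
      (fun φ j hj => hD φ j k1 ?_))
    · refine le_trans ?_ (hJ'1 j hj).2
      have := mul_pos hk1 hcard
      linarith
    · have h4 : (J'.card : ℝ) ≤ k1 / 2 * p := hJ'card.trans
        (mul_le_mul_of_nonneg_right (min_le_right _ _) hp0.le)
      have h5 := ht1 φ
      have h6 := (F.m_pos φ).le
      have h7 : 1 / 2 * (p : ℝ) * ‖F.T φ t‖ ≤ k1 / 2 * p * F.m φ :=
        (mul_le_mul_of_nonneg_right (by linarith) (norm_nonneg _)).trans
          (h5.trans (mul_le_mul_of_nonneg_right h4 h6))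
      have h8 : (p : ℝ) * ‖F.T φ t‖ ≤ p * (k1 * F.m φ) := by linarith
      exact le_of_mul_le_mul_left h8 hp0
  · push Not at hX
    have hJX : (J'.card : ℝ) ≤ X0 := by exact_mod_cast hX.le
    have hX0p : (X0 : ℝ) < p := by
      have : X0 < p := by omega
      exact_mod_cast this
    -- the majority value is real
    have htconj : ∀ φ, (starRingEnd ℂ) (F.T φ t) = F.T φ t := by
      have hex : ∃ j, j ∉ J' ∧ -j ∉ J' := by
        by_contra hcon
        push Not at hcon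
        have h3 : (univ : Finset (ZMod p)) ⊆ J' ∪ J'.image (fun x => -x) := by
          intro j _
          by_cases hj : j ∈ J'
          · exact mem_union_left _ hj
          · exact mem_union_right _ (mem_image.mpr ⟨-j, hcon j hj, neg_neg j⟩)
        have h4 := Finset.card_le_card h3
        have h5 : (J' ∪ J'.image (fun x => -x)).card ≤ J'.card + J'.card :=
          (Finset.card_union_le _ _).trans (add_le_add le_rfl Finset.card_image_le)
        rw [card_univ, ZMod.card] at h4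
        have h6 : (p : ℝ) ≤ J'.card + J'.card := by exact_mod_cast h4.trans h5
        linarith
      obtain ⟨j, hj1, hj2⟩ := hex
      intro φ
      have h3 : F.T φ (-j) = (starRingEnd ℂ) (F.T φ j) := FT_neg _ _ _
      rw [hJ'0 j hj1 φ, hJ'0 (-j) hj2 φ] at h3
      exact h3.symm
    -- the majority value is small
    have htsmall : ∀ φ, ‖F.T φ t‖ ≤ X0 / (p - X0) * F.m φ := fun φ => by
      have h5 := ht1 φ
      have h6 := F.m_pos φ
      rw [div_mul_eq_mul_div, le_div_iff₀ (by linarith), mul_comm]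
      refine le_trans ?_ (h5.trans (mul_le_mul_of_nonneg_right hJX h6.le))
      exact mul_le_mul_of_nonneg_right (by linarith) (norm_nonneg _)
    set c : ℂ := (((p : ℂ) - 1) / p) with hc
    let G : BFam Ω p Rg :=
      { toFam := F
        hS1 := by rw [hS, card_erase_of_mem (mem_univ _), card_univ, ZMod.card]; omega
        hψA := hψA
        J := J'
        D := fun φ j => c * (F.T φ j - F.T φ t)
        κ := 1 / p + X0 / (p - X0)
        hκ := add_nonneg (by positivity) (div_nonneg (Nat.cast_nonneg _) (by linarith))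
        hD := fun j => hdiff j t
        hD0 := fun j hj φ => by rw [hJ'0 j hj φ, sub_self, mul_zero]
        hDJ := fun j hj φ => mul_ne_zero hcp (sub_ne_zero.mpr ((hJ'1 j hj).1 φ))
        hconj := fun φ j => by
          have h3 : F.T φ (-j) = (starRingEnd ℂ) (F.T φ j) := FT_neg _ _ _
          have h4 : (starRingEnd ℂ) c = c := by
            rw [hc]
            simp
          rw [h3, map_mul, map_sub, htconj φ, h4]
        near := fun φ j => by
          have h3 : F.T φ j - c * (F.T φ j - F.T φ t) = (1 / (p : ℂ)) * F.T φ j + c * F.T φ t := by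
            rw [hc]
            field_simp
            ring
          rw [h3]
          refine (norm_add_le _ _).trans ?_
          rw [add_mul, norm_mul, norm_mul]
          refine add_le_add ?_ ?_
          · rw [norm_div, norm_one, Complex.norm_natCast]
            exact mul_le_mul_of_nonneg_left (F.norm_T_le φ j) (by positivity)
          · refine le_trans ?_ (htsmall φ)
            rw [hc, hcpn]
            have h4 : ((p : ℝ) - 1) / p ≤ 1 := by rw [div_le_one hp0]; linarith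
            exact mul_le_of_le_one_left (norm_nonneg _) h4
        hfD := fun φ a ha => by
          have ha0 : a ≠ 0 := by
            rw [hS] at ha
            exact Finset.ne_of_mem_erase ha
          have h3 := tha2_inv (F.hψ φ) (F.w φ) a
          have h4 := tha2_char_sum (F.hψ φ) a ha0
          have h5 : F.w φ a = F.f φ a / (p - 1) := by
            rw [Fam.w, if_pos ha, hS, card_erase_of_mem (mem_univ _), card_univ, ZMod.card,
              Nat.cast_sub hpprime.one_lt.le, Nat.cast_one]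
          have h6 : ∑ u, c * (F.T φ u - F.T φ t) * F.ψ φ (-(u * a)) =
              c * (∑ u, FT (F.ψ φ) (F.w φ) u * F.ψ φ (-(u * a))) -
                c * F.T φ t * ∑ u, F.ψ φ (-(u * a)) := by
            rw [Finset.mul_sum, Finset.mul_sum, ← Finset.sum_sub_distrib]
            refine Finset.sum_congr rfl fun u _ => ?_
            rw [Fam.T, Fam.T]
            ring
          rw [h6, h3, h4, mul_zero, sub_zero, h5, hc]
          push_cast
          field_simp
        hgal := fun J1 a ha a' ha' φ φ' h => by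
          have h3 : ∀ (φ : Ω) (a : ZMod p), ∑ u ∈ J1, c * (F.T φ u - F.T φ t) *
              F.ψ φ (-(u * a)) = c * ∑ u ∈ J1, (F.T φ u - F.T φ t) * F.ψ φ (-(u * a)) := by
            intro φ a
            rw [Finset.mul_sum]
            exact Finset.sum_congr rfl fun u _ => by ring
          rw [h3] at h ⊢
          rw [hgal t J1 a ha a' ha' φ φ' ((mul_eq_zero.mp h).resolve_left hcp), mul_zero] }
    have hGκ : G.κ ≤ κ0 := by
      show 1 / (p : ℝ) + X0 / (p - X0) ≤ κ0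
      have h3 : (1 + (X0 : ℝ)) / (κ0 / 2) ≤ p - X0 := by linarith
      rw [div_le_iff₀ (by positivity)] at h3
      have h4 : 0 < (p : ℝ) - X0 := by linarith
      have h5 : (X0 : ℝ) / (p - X0) ≤ κ0 / 2 := by
        rw [div_le_iff₀ h4]
        nlinarith [Nat.cast_nonneg (α := ℝ) X0]
      have h6 : 1 / (p : ℝ) ≤ κ0 / 2 := by
        rw [div_le_iff₀ hp0]
        nlinarith [Nat.cast_nonneg (α := ℝ) X0]
      linarith
    have hord : ∀ d : ZMod p, d ≠ 0 → addOrderOf d = p := fun d hd =>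
      addOrderOf_eq_prime (by simp) hd
    refine hBST G hGκ hX.le ?_ (fun i _ j _ hij => ?_)
    · obtain ⟨i, j, hi, hj, φ, hφ⟩ := h2
      by_contra hcon
      push Not at hcon
      have h3 : ∀ i : ZMod p, i ≠ 0 → i ∉ J' := fun i hi h => hi (hcon i h)
      exact hφ ((hJ'0 i (h3 i hi) φ).trans (hJ'0 j (h3 j hj) φ).symm)
    · rw [hord _ (sub_ne_zero.mpr hij)]
      omega

end Pool.Agent.CYC
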