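import Mathlib
import Pool.Agent.Lib.MP_8ca0c8_nt_CYC2.Defs

/-! Project CYC2 (MP_8ca0c8_nt), module TORSION: choice of the level. -/

namespace Pool.Agent.CYC

open Finset

lemma Torsion_pigeon (n : ℕ → ℕ) (X : ℕ) (h0 : n 0 ≤ X)
    (hmono : ∀ i, i ≤ X → n (i + 1) ≤ n i) : ∃ i, i ≤ X ∧ n (i + 1) = n i := by
  by_contra hcon
  push Not at hcon
  have h : ∀ i, i ≤ X + 1 → n i + i ≤ X := by
    intro i
    induction i with
    | zero => intro _; simpa using h0
    | succ i ih =>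
      intro hi
      have h1 := ih (by omega)
      have h2 := hmono i (by omega)
      have h3 := hcon i (by omega)
      omega
  have := h (X + 1) le_rfl
  omega

lemma Torsion_step {p s s' L : ℕ} (hp : p.Prime) (hs : s' + L = s)
    (J : Finset (ZMod (p ^ s))) (B : ℕ) (hB : B < p ^ L)
    (hinj : Set.InjOn (fun x : ZMod (p ^ s) => ((x.val : ℕ) : ZMod (p ^ s'))) J) :
    ∀ i ∈ J, ∀ j ∈ J, i ≠ j → B < addOrderOf (i - j) := by
  have hp0 : 0 < p := hp.pos
  have : NeZero (p ^ s) := ⟨pow_ne_zero _ hp0.ne'⟩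
  intro i hi j hj hij
  by_contra hcon
  push Not at hcon
  have hdvd : p ^ s' ∣ p ^ s := pow_dvd_pow p (by omega)
  have hred : ∀ x : ZMod (p ^ s), ((x.val : ℕ) : ZMod (p ^ s')) =
      ZMod.castHom hdvd (ZMod (p ^ s')) x := by
    intro x
    rw [ZMod.castHom_apply, ZMod.natCast_val]
  have hne : ZMod.castHom hdvd (ZMod (p ^ s')) (i - j) ≠ 0 := by
    intro h0
    rw [map_sub, sub_eq_zero] at h0
    apply hij
    apply hinj hi hj
    simp only [hred]
    exact h0
  have ho : addOrderOf (i - j) ∣ p ^ s := by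
    have h1 := addOrderOf_dvd_card (x := i - j)
    rwa [ZMod.card] at h1
  obtain ⟨e, _, he⟩ := (Nat.dvd_prime_pow hp).1 ho
  rw [he] at hcon
  have heL : e < L := (Nat.pow_lt_pow_iff_right hp.one_lt).1 (lt_of_le_of_lt hcon hB)
  have h2 : addOrderOf (i - j) • (i - j) = 0 := addOrderOf_nsmul_eq_zero _
  rw [he] at h2
  have h3 : ((p ^ e * (i - j).val : ℕ) : ZMod (p ^ s)) = 0 := by
    rw [Nat.cast_mul, ZMod.natCast_zmod_val, ← nsmul_eq_mul]
    exact h2
  rw [ZMod.natCast_eq_zero_iff] at h3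
  have h4 : p ^ s = p ^ e * p ^ (s - e) := by
    rw [← pow_add]
    congr 1
    omega
  generalize hv : (i - j).val = v at h3
  rw [h4] at h3
  have h5 : p ^ (s - e) ∣ (i - j).val := by
    rw [hv]
    exact Nat.dvd_of_mul_dvd_mul_left (pow_pos hp0 e) h3
  have h6 : p ^ s' ∣ (i - j).val := (pow_dvd_pow p (by omega)).trans h5
  apply hne
  rw [← hred]
  exact (ZMod.natCast_eq_zero_iff _ _).2 h6

theorem torsion (X B : ℕ) : ∃ Q0 : ℕ, ∀ (p r : ℕ), p.Prime →
    ∀ Js : ∀ s : ℕ, Finset (ZMod (p ^ s)), Q0 ≤ p ^ r → (Js r).card ≤ X →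
      (∀ s' s : ℕ, 1 ≤ s' → s' ≤ s → s ≤ r → ∀ j' ∈ Js s', ∃ j ∈ Js s,
        ((j.val : ℕ) : ZMod (p ^ s')) = j') →
      ∃ s : ℕ, 1 ≤ s ∧ s ≤ r ∧ (Js s).card ≤ X ∧
        ∀ i ∈ Js s, ∀ j ∈ Js s, i ≠ j → B < addOrderOf (i - j) := by
  classical
  refine ⟨(B + 2) ^ ((X + 3) * (B + 2)), ?_⟩
  intro p r hp Js hQ hX hJ
  have hp0 : 0 < p := hp.pos
  have hr1 : 1 ≤ r := by
    by_contra h
    have h0 : r = 0 := by omega
    rw [h0, pow_zero] at hQ
    have h1 : 1 < (B + 2) ^ ((X + 3) * (B + 2)) :=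
      Nat.one_lt_pow (by positivity) (by omega)
    omega
  have hsub : ∀ s' s : ℕ, 1 ≤ s' → s' ≤ s → s ≤ r →
      Js s' ⊆ (Js s).image (fun x : ZMod (p ^ s) => ((x.val : ℕ) : ZMod (p ^ s'))) := by
    intro s' s h1 h2 h3 j' hj'
    obtain ⟨j, hj, hjj⟩ := hJ s' s h1 h2 h3 j' hj'
    exact mem_image.mpr ⟨j, hj, hjj⟩
  have hle : ∀ s' s : ℕ, 1 ≤ s' → s' ≤ s → s ≤ r → (Js s').card ≤ (Js s).card :=
    fun s' s h1 h2 h3 => (card_le_card (hsub s' s h1 h2 h3)).trans card_image_le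
  by_cases hpB : B < p
  · refine ⟨r, hr1, le_rfl, hX, ?_⟩
    have : NeZero (p ^ r) := ⟨pow_ne_zero _ hp0.ne'⟩
    intro i _ j _ hij
    have ho : addOrderOf (i - j) ∣ p ^ r := by
      have h1 := addOrderOf_dvd_card (x := i - j)
      rwa [ZMod.card] at h1
    obtain ⟨e, _, he⟩ := (Nat.dvd_prime_pow hp).1 ho
    have he0 : e ≠ 0 := by
      intro h0
      rw [h0, pow_zero] at he
      exact hij (sub_eq_zero.1 (AddMonoid.addOrderOf_eq_one_iff.1 he))
    rw [he]
    exact lt_of_lt_of_le hpB (Nat.le_self_pow he0 p)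
  · push Not at hpB
    have hB2 : 2 ≤ B := hp.two_le.trans hpB
    have hpL : B < p ^ B :=
      lt_of_lt_of_le Nat.lt_two_pow_self (Nat.pow_le_pow_left hp.two_le B)
    have hr : (X + 2) * B < r := by
      by_contra h
      push Not at h
      have h1 : p ^ r ≤ (B + 2) ^ ((X + 2) * B) :=
        (Nat.pow_le_pow_left (by omega) r).trans (Nat.pow_le_pow_right (by omega) h)
      have h2 : (B + 2) ^ ((X + 2) * B) < (B + 2) ^ ((X + 3) * (B + 2)) := by
        apply Nat.pow_lt_pow_right (by omega)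
        nlinarith
      omega
    have hiB : ∀ i, i ≤ X + 1 → i * B + B < r := by
      intro i hi
      have h1 : (i + 1) * B ≤ (X + 2) * B := Nat.mul_le_mul_right B (by omega)
      have h2 : (i + 1) * B = i * B + B := by ring
      omega
    obtain ⟨i, hi, hin⟩ := Torsion_pigeon (fun i => (Js (r - i * B)).card) X
      (by
        have h0 : r - 0 * B = r := by omega
        show (Js (r - 0 * B)).card ≤ X
        rw [h0]
        exact hX) (by
        intro i hi
        have h1 := hiB (i + 1) (by omega)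
        have h2 : (i + 1) * B = i * B + B := by ring
        exact hle _ _ (by omega) (by omega) (by omega))
    have h1 := hiB (i + 1) (by omega)
    have h2 : (i + 1) * B = i * B + B := by ring
    have hs1 : 1 ≤ r - (i + 1) * B := by omega
    have hs2 : r - (i + 1) * B + B = r - i * B := by omega
    have hs3 : r - i * B ≤ r := by omega
    refine ⟨r - i * B, by omega, hs3, (hle _ _ (by omega) hs3 le_rfl).trans hX, ?_⟩
    apply Torsion_step hp hs2 (Js (r - i * B)) B hpL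
    rw [← card_image_iff]
    refine le_antisymm card_image_le ?_
    rw [← hin]
    exact card_le_card (hsub _ _ hs1 (by omega) hs3)

end Pool.Agent.CYC
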