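import Mathlib
import Pool.Agent.Lib.MP_8ca0c8_nt_CYC2.Large2
import Pool.Agent.Lib.MP_8ca0c8_nt_CYC2.Bst
import Pool.Agent.Lib.MP_8ca0c8_nt_CYC2.Torsion

/-! Project CYC2 (MP_8ca0c8_nt), module THB2: prime power order. -/

namespace Pool.Agent.CYC

open Finset

theorem theoremB2 (ε : ℝ) (hε : 0 < ε) : ∃ Q0 : ℕ,
    ∀ {Ω : Type} [Fintype Ω] [Nonempty Ω] (p r : ℕ) [NeZero p] (_ : p.Prime) (Rg : IRing Ω)
      (M : ℝ) (W : Set (Ω → ℝ)) (Js : ∀ s : ℕ, Finset (ZMod (p ^ s))), 1 ≤ r → Q0 ≤ p ^ r →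
      (∀ s' s : ℕ, 1 ≤ s' → s' ≤ s → s ≤ r → ∀ j' ∈ Js s', ∃ j ∈ Js s,
        ((j.val : ℕ) : ZMod (p ^ s')) = j') →
      (∀ s : ℕ, 1 ≤ s → s ≤ r → ∃ G : BFam Ω (p ^ s) Rg, G.J = Js s ∧ G.κ = 0 ∧ G.Aux ∧
        (∃ j ∈ Js s, j ≠ 0) ∧ ∑ φ, G.m φ = M ∧ ∀ a ∈ G.S, (fun φ => G.f φ a) ∈ W) →
      (5 / 2 - ε) * Fintype.card Ω ≤ M ∨
      ∃ w ∈ W, ∃ x ∈ Rg.A, ∀ φ, ‖x φ‖ = 1 ∧
        (w φ : ℂ) = 2 + x φ + (starRingEnd ℂ) (x φ) := by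
  obtain ⟨X0, k0, hk0, hL⟩ := large_case2 ε hε
  obtain ⟨B, κ0, hκ0, hB⟩ := bst ε hε X0
  obtain ⟨Q0, hQ⟩ := torsion X0 B
  refine ⟨Q0, ?_⟩
  intro Ω _ _ p r _ hp Rg M W Js hr hQr hrel hG
  by_cases hX : X0 ≤ (Js r).card
  · left
    obtain ⟨G, hJ, hκ, haux, -, hM, -⟩ := hG r hr le_rfl
    rw [← hM]
    rw [← hJ] at hX
    refine hL G.toFam haux G.J G.D hX (fun φ j hj => G.hDJ j hj φ) (fun j hj => ?_)
      (fun φ j _ => ?_)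
    · refine le_trans ?_ (G.log_D hj)
      have : (0 : ℝ) ≤ Fintype.card Ω := Nat.cast_nonneg _
      nlinarith
    · have h1 := G.near φ j
      rw [hκ, zero_mul] at h1
      have h2 : G.toFam.T φ j = G.D φ j := by
        rw [← sub_eq_zero, ← norm_le_zero_iff]
        exact h1
      rw [h2]
      have := mul_nonneg hk0.le (G.m_pos φ).le
      linarith
  · push Not at hX
    obtain ⟨s, hs1, hs2, hs3, hs4⟩ := hQ p r hp Js hQr hX.le hrel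
    obtain ⟨G, hJ, hκ, haux, hex, hM, hW⟩ := hG s hs1 hs2
    rw [← hJ] at hs3 hs4 hex
    rcases hB G (by rw [hκ]; exact hκ0.le) hs3 hex hs4 with h | h
    · left
      rwa [hM] at h
    · right
      obtain ⟨a, ha⟩ := Finset.card_pos.mp G.card_pos
      obtain ⟨x, hx, hx'⟩ := h a ha
      exact ⟨_, hW a ha, x, hx, hx'⟩

end Pool.Agent.CYC
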