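import Mathlib
import Pool.Agent.Lib.MP_8ca0c8_nt_CYC2.ThA2
import Pool.Agent.Lib.MP_8ca0c8_nt_CYC2.ThB2
import Pool.Agent.Lib.MP_8ca0c8_nt_CYC2.FamA2
import Pool.Agent.Lib.MP_8ca0c8_nt_CYC2.BfamB
import Pool.Agent.Lib.MP_8ca0c8_nt_CYC2.TBRel
import Pool.Agent.Lib.MP_8ca0c8_nt_CYC2.Exc
import Pool.Agent.Lib.MP_8ca0c8_nt_CYC2.Fin2
import Pool.Agent.Lib.MP_8ca0c8_nt_CYC.PrimePow
import Pool.Agent.Lib.MP_8ca0c8_nt_CYC.RnBasic

/-! Project CYC2 (MP_8ca0c8_nt), large level and the finiteness theorem. -/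

namespace Pool.Agent.CYC

open Finset

theorem level_bound2 (K : IntermediateField ℚ ℂ) [FiniteDimensional ℚ K] (f : ℕ) (hf : 0 < f)
    (hgal : GalOK K f) (ε : ℝ) (hε : 0 < ε) :
    ∃ N : ℕ, ∀ n : ℕ, 0 < n → f ∣ n → N ≤ n → ∀ α : ℂ, α ∈ Rn K n →
      STP.IsTotallyPositive α → (∀ n' : ℕ, 0 < n' → f ∣ n' → α ∈ Rn K n' → n ≤ n') →
      5 / 2 - ε ≤ (STP.meanTrace α).re ∨
      ∃ η : ℂ, (∃ k : ℕ, 0 < k ∧ η ^ k = 1) ∧ α = 2 + η + η⁻¹ := by
  classical
  obtain ⟨P0, hA⟩ := theoremA2 ε hε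
  obtain ⟨Q0, hB⟩ := theoremB2 ε hε
  obtain ⟨N, hN⟩ := prime_power_large (P0 + 3 + (Q0 + 1) ^ 2 + (Q0 + 1) * f)
  refine ⟨max N (f + 1), fun n hn hfn hNn α hα htp hmin => ?_⟩
  have hNn' : N ≤ n := (le_max_left _ _).trans hNn
  have hnf : f < n := (le_max_right _ _).trans hNn
  obtain ⟨p, hp, hpP⟩ := hN n hNn' hn
  have hn0 : n ≠ 0 := hn.ne'
  have hf0 : f ≠ 0 := hf.ne'
  set k := n.factorization p with hk
  set s := f.factorization p with hs
  have hpk : p ^ k ∣ n := Nat.ordProj_dvd n p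
  have hps : p ^ s ∣ f := Nat.ordProj_dvd f p
  have hsf : p ^ s ≤ f := Nat.le_of_dvd hf hps
  have hsk : s ≤ k := (Nat.factorization_le_iff_dvd hf0 hn0).mpr hfn p
  have hk1 : 1 ≤ k := by
    by_contra h
    have h0 : k = 0 := by omega
    rw [h0, pow_zero] at hpP
    omega
  have hp1 : 1 < p := hp.one_lt
  have hlow : ∀ n' : ℕ, 0 < n' → f ∣ n' → n' < n → α ∉ Rn K n' := fun n' h1 h2 h3 h4 =>
    absurd (hmin n' h1 h2 h4) (not_le.mpr h3)
  have hα1 : α ≠ 1 := by
    rintro rfl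
    exact hlow f hf dvd_rfl hnf (Subring.one_mem _)
  have hα2 : α ≠ 2 := by
    rintro rfl
    refine hlow f hf dvd_rfl hnf ?_
    have h1 : (2 : ℂ) = 1 + 1 := by norm_num
    rw [h1]
    exact Subring.add_mem _ (Subring.one_mem _) (Subring.one_mem _)
  have hcoprime : ∀ m : ℕ, n = m * p ^ k → ¬ p ∣ m := by
    intro m hm hpm
    have h1 : p ^ (k + 1) ∣ n := by
      obtain ⟨c, hc⟩ := hpm
      rw [hm, hc, pow_succ]
      exact ⟨c, by ring⟩
    have h2 := (hp.pow_dvd_iff_le_factorization hn0).mp h1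
    omega
  have hfdiv : ∀ m r : ℕ, n = m * p ^ r → s + r ≤ k → f ∣ m := by
    intro m r hm hr
    have hm0 : m ≠ 0 := by
      rintro rfl
      rw [zero_mul] at hm
      exact hn0 hm
    refine (Nat.factorization_le_iff_dvd hf0 hm0).mp fun l => ?_
    have h1 : n.factorization l = m.factorization l + (p ^ r).factorization l := by
      rw [hm, Nat.factorization_mul hm0 (pow_ne_zero _ hp.ne_zero), Finsupp.add_apply]
    have h2 := (Nat.factorization_le_iff_dvd hf0 hn0).mpr hfn l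
    rw [hp.factorization_pow] at h1
    by_cases hl : l = p
    · subst hl
      rw [Finsupp.single_eq_same] at h1
      omega
    · rw [Finsupp.single_eq_of_ne hl] at h1
      omega
  set a : Ln K n := ⟨α, (rn_sub K hn hα).1⟩ with ha
  have hne : Nonempty (Ln K n →ₐ[ℚ] ℂ) := ⟨(Ln K n).val⟩
  have hc : (0 : ℝ) < Fintype.card (Ln K n →ₐ[ℚ] ℂ) := by exact_mod_cast Fintype.card_pos
  by_cases hcase : k = 1 ∧ s = 0
  · -- case A
    obtain ⟨hk', hs'⟩ := hcase
    rw [hk', pow_one] at hpP hpk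
    obtain ⟨m, hm⟩ := hpk
    rw [mul_comm] at hm
    have hm0 : 0 < m := Nat.pos_of_ne_zero (by rintro rfl; rw [zero_mul] at hm; exact hn0 hm)
    have : Fact p.Prime := ⟨hp⟩
    have hpm : ¬ p ∣ m := hcoprime m (by rw [hk', pow_one]; exact hm)
    have hfm : f ∣ m := hfdiv m 1 (by rw [pow_one]; exact hm) (by omega)
    have hmn : m < n := by
      rw [hm]
      exact lt_mul_of_one_lt_right hm0 hp1
    obtain ⟨F, hS, hAux, hψ, hdiff, hgalF, hex, hsum, hf'⟩ := famA2 K f hf hgal n m p hm0 hm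
      (by omega) hpm hfm α hα hα1 hα2 htp (hlow m hm0 hfm hmn)
    rcases hA (ringA (Ln K n)) F (by omega) hS hAux hψ hdiff hgalF hex with h1 | h1
    · left
      rw [hsum, mul_comm] at h1
      exact le_of_mul_le_mul_left h1 hc
    · right
      have hS1 : (1 : ZMod p) ∈ F.S := by
        rw [hS, Finset.mem_erase]
        exact ⟨one_ne_zero, mem_univ _⟩
      obtain ⟨x, hx, hx1⟩ := h1 1 hS1
      obtain ⟨σ, hσ⟩ := hf' 1 hS1
      exact exc (Ln K n) a σ (fun φ => F.f φ 1) (fun φ => hσ φ a rfl) x hx hx1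
  · -- case B
    set r := k - max s 1 with hr
    have hmax : max s 1 < k := by
      rcases Nat.eq_zero_or_pos s with h0 | h0
      · have : k ≠ 1 := fun h => hcase ⟨h, h0⟩
        rw [h0]
        simp only [zero_le, max_eq_right]
        omega
      · have h1 : p ^ s < p ^ k := by
          have : f ≤ (Q0 + 1) * f := Nat.le_mul_of_pos_left f (Nat.succ_pos _)
          omega
        have h2 := (Nat.pow_lt_pow_iff_right hp1).mp h1
        rw [max_eq_left h0]
        exact h2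
    have hr1 : 1 ≤ r := by omega
    have hrk : r ≤ k := Nat.sub_le _ _
    have hQ : Q0 ≤ p ^ r := by
      have hkr : p ^ k = p ^ r * p ^ (max s 1) := by
        rw [← pow_add]
        congr 1
        omega
      by_contra hlt
      push Not at hlt
      rcases Nat.eq_zero_or_pos s with h0 | h0
      · have h1 : p ^ (max s 1) ≤ p ^ r := by
          rw [h0]
          simp only [zero_le, max_eq_right]
          exact Nat.pow_le_pow_right hp.pos hr1
        have h2 : p ^ k ≤ Q0 * Q0 := by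
          rw [hkr]
          exact Nat.mul_le_mul hlt.le (h1.trans hlt.le)
        have h3 : Q0 * Q0 ≤ (Q0 + 1) ^ 2 := by nlinarith
        omega
      · have h1 : p ^ (max s 1) ≤ f := by
          rw [max_eq_left h0]
          exact hsf
        have h2 : p ^ k ≤ Q0 * f := by
          rw [hkr]
          exact Nat.mul_le_mul hlt.le h1
        have h3 : Q0 * f ≤ (Q0 + 1) * f := Nat.mul_le_mul_right f (Nat.le_succ _)
        omega
    obtain ⟨c, hcc, hαc⟩ := rn_expand K hn hα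
    have : NeZero p := ⟨hp.ne_zero⟩
    obtain ⟨m1, hm1⟩ : p ∣ n := (dvd_pow_self p (by omega : k ≠ 0)).trans hpk
    have hm1' : n / p = m1 := by
      rw [hm1, Nat.mul_div_cancel_left _ hp.pos]
    have hm1pos : 0 < m1 := Nat.pos_of_ne_zero (by rintro rfl; rw [mul_zero] at hm1; exact hn0 hm1)
    have hfm1 : f ∣ m1 := hfdiv m1 1 (by rw [pow_one, hm1]; ring) (by omega)
    have hlt1 : m1 < n := by
      rw [hm1]
      exact lt_mul_of_one_lt_left hm1pos hp1
    have hnot : α ∉ Rn K (n / p) := by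
      rw [hm1']
      exact hlow m1 hm1pos hfm1 hlt1
    let Js : ∀ t : ℕ, Finset (ZMod (p ^ t)) := fun t =>
      (univ : Finset (ZMod (p ^ t))).filter (fun j => tB c n (p ^ t) (-j) ≠ 0)
    have hB' := hB p r hp (ringA (Ln K n))
      (Fintype.card (Ln K n →ₐ[ℚ] ℂ) * (STP.meanTrace α).re)
      {w | ∃ σ : Ln K n ≃ₐ[ℚ] Ln K n, ∀ φ : Ln K n →ₐ[ℚ] ℂ, φ (σ a) = (w φ : ℂ)} Js hr1 hQ
      (fun s' t h1 h2 h3 j' hj' => by
        obtain ⟨j, hj, hjj⟩ := tB_rel c n p s' t hp.pos h2 (-j') (mem_filter.mp hj').2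
        refine ⟨-j, mem_filter.mpr ⟨mem_univ _, by rwa [neg_neg]⟩, ?_⟩
        have hdvd : p ^ s' ∣ p ^ t := pow_dvd_pow p h2
        have h4 : ∀ x : ZMod (p ^ t), ((x.val : ℕ) : ZMod (p ^ s')) =
            ZMod.castHom hdvd (ZMod (p ^ s')) x := fun x => by
          rw [ZMod.castHom_apply, ZMod.cast_eq_val]
        rw [h4, map_neg, ← h4, hjj, neg_neg])
      (fun t ht1 ht2 => by
        obtain ⟨m, hm⟩ : p ^ t ∣ n := (pow_dvd_pow p (ht2.trans hrk)).trans hpk
        rw [mul_comm] at hm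
        have hm0 : 0 < m := Nat.pos_of_ne_zero (by rintro rfl; rw [zero_mul] at hm; exact hn0 hm)
        have hfm : f ∣ m := hfdiv m t hm (by omega)
        have hpm : p ∣ m := by
          by_contra h
          have h1 : n.factorization p = m.factorization p + (p ^ t).factorization p := by
            rw [hm, Nat.factorization_mul hm0.ne' (pow_ne_zero _ hp.ne_zero), Finsupp.add_apply]
          rw [hp.factorization_pow, Finsupp.single_eq_same, Nat.factorization_eq_zero_of_not_dvd h,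
            ← hk] at h1
          omega
        obtain ⟨G, hGJ, hGκ, hGA, hGex, hGm, hGf⟩ := bfamB K f hf hgal n m p t hm0 hp hpm ht1 hm
          hfm α c hcc hαc hα1 hα2 htp hnot
        have hJ : G.J = Js t := by
          ext j
          rw [hGJ j]
          simp [Js]
        refine ⟨G, hJ, hGκ, hGA, by rw [← hJ]; exact hGex, hGm, fun b hb => ?_⟩
        obtain ⟨σ, hσ⟩ := hGf b hb
        exact ⟨σ, fun φ => hσ φ a rfl⟩)
    rcases hB' with h1 | ⟨w, ⟨σ, hσ⟩, x, hx, hx1⟩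
    · left
      rw [mul_comm] at h1
      exact le_of_mul_le_mul_left h1 hc
    · right
      exact exc (Ln K n) a σ w hσ x hx hx1

theorem main_finite2 (K : IntermediateField ℚ ℂ) [FiniteDimensional ℚ K] (ε : ℝ) (hε : 0 < ε) :
    {α : ℂ | α ∈ Rinf K ∧ STP.IsTotallyPositive α ∧ (STP.meanTrace α).re < 5 / 2 - ε ∧
      ∀ η : ℂ, (∃ k : ℕ, 0 < k ∧ η ^ k = 1) → α ≠ 2 + η + η⁻¹}.Finite := by
  obtain ⟨f, hf, hgal⟩ := gal_exists K
  obtain ⟨N, hN⟩ := level_bound2 K f hf hgal ε hε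
  have hfin : (⋃ n ∈ Set.Iio N, {α : ℂ | α ∈ Ln K n ∧ STP.IsTotallyPositive α ∧
      (STP.meanTrace α).re < 5 / 2 - ε}).Finite :=
    (Set.finite_Iio N).biUnion fun n _ => fin_level2 (Ln K n) _
  refine hfin.subset fun α hα => ?_
  obtain ⟨hα1, hα2, hα3, hα4⟩ := hα
  have hex : ∃ n : ℕ, 0 < n ∧ f ∣ n ∧ α ∈ Rn K n := exists_level K hf hα1
  classical
  obtain ⟨h1, h2, h3⟩ := Nat.find_spec hex
  have hlt : Nat.find hex < N := by
    by_contra h
    push Not at h
    rcases hN (Nat.find hex) h1 h2 h α h3 hα2 fun n' a b c => Nat.find_min' hex ⟨a, b, c⟩ with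
      h4 | ⟨η, h4, h5⟩
    · linarith
    · exact hα4 η h4 h5
  exact Set.mem_biUnion (Set.mem_Iio.mpr hlt) ⟨(rn_sub K h1 h3).1, hα2, hα3⟩

end Pool.Agent.CYC
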