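import Mathlib
import Pool.Agent.Lib.MP_8ca0c8_nt_CYC2.RingA
import Pool.Agent.Lib.MP_8ca0c8_nt_CYC.Final
import Pool.Agent.Lib.MP_8ca0c8_nt_CYC.FamMk

/-! Project CYC2 (MP_8ca0c8_nt), module LIM52: the limit point 5/2. -/

namespace Pool.Agent.CYC

open Finset

namespace Lim52

/-- the field of the fifth roots of unity -/
noncomputable def K5 : IntermediateField ℚ ℂ := IntermediateField.adjoin ℚ {zt 5}

instance K5_fin : FiniteDimensional ℚ K5 := by
  unfold K5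
  exact IntermediateField.adjoin.finiteDimensional
    (((zt_pow 5 (by norm_num)).isIntegral (by norm_num)).tower_top)

/-- the golden ratio as a sum of roots of unity -/
noncomputable def gd : ℂ := 1 + zt 5 + zt 5 ^ 4

theorem gd_sq : gd ^ 2 = gd + 1 := by
  have hz : IsPrimitiveRoot (zt 5) 5 := zt_pow 5 (by norm_num)
  have h1 := hz.geom_sum_eq_zero (by norm_num)
  have h5 := hz.pow_eq_one
  simp only [Finset.sum_range_succ, Finset.sum_range_zero, pow_zero, pow_one, zero_add] at h1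
  unfold gd
  linear_combination h1 + (zt 5 ^ 3 + 2) * h5

theorem gd_mem : gd ∈ K5 := by
  have hz : zt 5 ∈ K5 := IntermediateField.mem_adjoin_simple_self ℚ (zt 5)
  exact add_mem (add_mem (one_mem _) hz) (pow_mem hz 4)

theorem no_rat (r : ℚ) : r ^ 2 ≠ r + 1 := by
  intro h
  have h1 : ((r : ℝ) - Real.goldenRatio) * ((r : ℝ) - Real.goldenConj) = 0 := by
    have h2 : (r : ℝ) ^ 2 = (r : ℝ) + 1 := by exact_mod_cast h
    have h3 := Real.goldenRatio_mul_goldenConj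
    have h4 := Real.goldenRatio_add_goldenConj
    linear_combination h2 + h3 - (r : ℝ) * h4
  rcases mul_eq_zero.1 h1 with h2 | h2
  · exact Real.goldenRatio_irrational ⟨r, by linarith⟩
  · exact Real.goldenConj_irrational ⟨r, by linarith⟩

open Polynomial in
theorem minpoly_gd : minpoly ℚ gd = X ^ 2 - X - 1 := by
  have hdeg : (X ^ 2 - X - 1 : ℚ[X]).natDegree = 2 := by compute_degree!
  have hmon : (X ^ 2 - X - 1 : ℚ[X]).Monic := by
    rw [Polynomial.Monic, Polynomial.leadingCoeff, hdeg]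
    simp [Polynomial.coeff_X, Polynomial.coeff_one]
  refine (minpoly.eq_of_irreducible_of_monic ?_ ?_ hmon).symm
  · rw [hmon.irreducible_iff_roots_eq_zero_of_degree_le_three (by rw [hdeg]) (by rw [hdeg]; norm_num)]
    rw [Multiset.eq_zero_iff_forall_notMem]
    intro r hr
    rw [Polynomial.mem_roots hmon.ne_zero, Polynomial.IsRoot.def] at hr
    simp only [Polynomial.eval_sub, Polynomial.eval_pow, Polynomial.eval_X,
      Polynomial.eval_one] at hr
    exact no_rat r (by linarith)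
  · simp only [map_sub, map_pow, Polynomial.aeval_X, map_one]
    linear_combination gd_sq

open Polynomial in
theorem meanTrace_gd : STP.meanTrace gd = 1 / 2 := by
  have hdeg : (X ^ 2 - X - 1 : ℚ[X]).natDegree = 2 := by compute_degree!
  rw [STP.meanTrace, minpoly_gd, hdeg, Polynomial.aroots_def]
  have h1 : (X ^ 2 - X - 1 : ℚ[X]).map (algebraMap ℚ ℂ) = (X - C gd) * (X - C (1 - gd)) := by
    have h2 : (C gd : ℂ[X]) ^ 2 = C gd + 1 := by
      rw [← C_pow, gd_sq, C_add, C_1]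
    simp only [Polynomial.map_sub, Polynomial.map_pow, Polynomial.map_X, Polynomial.map_one,
      C_sub, C_1]
    linear_combination h2
  rw [h1, Polynomial.roots_mul (mul_ne_zero (X_sub_C_ne_zero _) (X_sub_C_ne_zero _)),
    Polynomial.roots_X_sub_C, Polynomial.roots_X_sub_C]
  simp

/-- `|1 + g y|^2 > 0` -/
theorem pos_val {p : ℕ} (hp : p.Prime) {g y : ℂ} (hg : g ^ 2 = g + 1)
    (hy : IsPrimitiveRoot y p) : ∃ r : ℝ, 0 < r ∧ 2 + g + g * (y + y ^ (p - 1)) = r := by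
  have hn : ‖y‖ = 1 := Complex.norm_eq_one_of_pow_eq_one hy.pow_eq_one hp.ne_zero
  have hinv : y ^ (p - 1) = (starRingEnd ℂ) y := by
    rw [← Complex.inv_eq_conj hn]
    refine eq_inv_of_mul_eq_one_left ?_
    rw [← pow_succ, Nat.sub_add_cancel hp.one_le, hy.pow_eq_one]
  obtain ⟨s, hs⟩ : ∃ s : ℝ, g = s := by
    have h1 : (g - (Real.goldenRatio : ℝ)) * (g - (Real.goldenConj : ℝ)) = 0 := by
      have h3 : ((Real.goldenRatio : ℝ) : ℂ) * ((Real.goldenConj : ℝ) : ℂ) = -1 := by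
        exact_mod_cast Real.goldenRatio_mul_goldenConj
      have h4 : ((Real.goldenRatio : ℝ) : ℂ) + ((Real.goldenConj : ℝ) : ℂ) = 1 := by
        exact_mod_cast Real.goldenRatio_add_goldenConj
      linear_combination hg + h3 - g * h4
    rcases mul_eq_zero.1 h1 with h2 | h2
    · exact ⟨_, sub_eq_zero.1 h2⟩
    · exact ⟨_, sub_eq_zero.1 h2⟩
  have hs2 : s ^ 2 = s + 1 := by
    rw [hs] at hg
    exact_mod_cast hg
  have hsq : y.re ^ 2 + y.im ^ 2 = 1 := by
    have h1 := Complex.sq_norm y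
    rw [hn, Complex.normSq_apply] at h1
    nlinarith
  refine ⟨2 + s + s * (2 * y.re), ?_, ?_⟩
  · have h1 : 2 + s + s * (2 * y.re) = (1 + s * y.re) ^ 2 + (s * y.im) ^ 2 := by
      linear_combination (-1 : ℝ) * hs2 - s ^ 2 * hsq
    rw [h1]
    rcases eq_or_ne (s * y.im) 0 with h2 | h2
    · rcases mul_eq_zero.1 h2 with h3 | h3
      · exfalso
        rw [h3] at hs2
        norm_num at hs2
      · have h4 : 1 + s * y.re ≠ 0 := by
          intro h5
          have h6 : y.re ^ 2 = 1 := by rw [h3] at hsq; linarith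
          have h7 : s ^ 2 = 1 := by
            have h8 : (s * y.re) ^ 2 = 1 := by
              have : s * y.re = -1 := by linarith
              rw [this]
              norm_num
            rw [mul_pow, h6, mul_one] at h8
            exact h8
          have h8 : s = 0 := by linarith
          rw [h8] at h7
          norm_num at h7
        have h5 : 0 < (1 + s * y.re) ^ 2 := by positivity
        have h6 : 0 ≤ (s * y.im) ^ 2 := sq_nonneg _
        linarith
    · have h5 : 0 < (s * y.im) ^ 2 := by positivity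
      have h6 : 0 ≤ (1 + s * y.re) ^ 2 := sq_nonneg _
      linarith
  · rw [hinv, hs, Complex.add_conj]
    push_cast
    ring

/-- the sum of the nontrivial powers of a root of unity -/
theorem sum_pow {p : ℕ} (hp : p.Prime) {y : ℂ} (hy : IsPrimitiveRoot y p) :
    ∑ a ∈ Finset.Ico 1 p, y ^ a = -1 := by
  have h1 := hy.geom_sum_eq_zero hp.one_lt
  rw [Finset.range_eq_Ico, Finset.sum_eq_sum_Ico_succ_bot hp.pos] at h1
  simp only [pow_zero, zero_add] at h1
  linear_combination h1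

theorem sum_pow' {p : ℕ} (hp : p.Prime) {y : ℂ} (hy : IsPrimitiveRoot y p) :
    ∑ a ∈ Finset.Ico 1 p, (y ^ a) ^ (p - 1) = -1 := by
  have h1 : IsPrimitiveRoot (y ^ (p - 1)) p := by
    refine hy.pow_of_coprime _ ?_
    have h2 : (p - 1) + 1 = p := Nat.sub_add_cancel hp.one_le
    have h3 := Nat.coprime_self_add_right (m := p - 1) (n := 1)
    rw [h2] at h3
    exact h3.2 (Nat.coprime_one_right _)
  rw [← sum_pow hp h1]
  refine Finset.sum_congr rfl fun a _ => ?_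
  rw [← pow_mul, ← pow_mul, mul_comm]

/-- the automorphism `ζ_p ↦ ζ_p ^ a` fixing the field of the fifth roots of unity -/
theorem exists_aut {f : ℕ} (hf : 0 < f) (hG : GalOK K5 f) {p : ℕ} (hp : p.Prime)
    (hfp : f < p) (zL : Ln K5 (f * p)) (hz : (zL : ℂ) = zt (f * p)) (a : ℕ)
    (ha : a ∈ Finset.Ico 1 p) :
    ∃ σ : Ln K5 (f * p) ≃ₐ[ℚ] Ln K5 (f * p),
      (∀ x : Ln K5 (f * p), (x : ℂ) ∈ K5 → σ x = x) ∧ σ (zL ^ f) = (zL ^ f) ^ a := by
  rw [Finset.mem_Ico] at ha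
  have hcop : Nat.Coprime f p := by
    refine Nat.Coprime.symm ((Nat.Prime.coprime_iff_not_dvd hp).2 fun h => ?_)
    exact absurd (Nat.le_of_dvd hf h) (by omega)
  have hap : Nat.Coprime a p := by
    refine Nat.Coprime.symm ((Nat.Prime.coprime_iff_not_dvd hp).2 fun h => ?_)
    exact absurd (Nat.le_of_dvd (by omega) h) (by omega)
  obtain ⟨u, hu1, hu2⟩ := Nat.chineseRemainder hcop 1 a
  have huf : Nat.Coprime u f := by
    have h1 := hu1.gcd_eq
    rw [Nat.Coprime, h1]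
    exact Nat.gcd_one_left f
  have hup : Nat.Coprime u p := by
    have h1 := hu2.gcd_eq
    rw [Nat.Coprime, h1]
    exact hap
  obtain ⟨σ, h1, h2⟩ := hG f (f * p) (Nat.mul_pos hf hp.pos) dvd_rfl (Dvd.intro p rfl) u
    (Nat.Coprime.mul_right huf hup) hu1
  refine ⟨σ, h1, ?_⟩
  have h3 : σ zL = zL ^ u := by
    apply Subtype.ext
    rw [h2 zL hz]
    push_cast
    rw [hz]
  rw [map_pow, h3, ← pow_mul, mul_comm u f, pow_mul]
  have h4 : (zL ^ f) ^ p = 1 := by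
    rw [← pow_mul]
    apply Subtype.ext
    push_cast
    rw [hz]
    exact (zt_pow _ (Nat.mul_pos hf hp.pos).ne').pow_eq_one
  exact pow_eq_pow_of_modEq hu2 h4

end Lim52

open Lim52 in
theorem mem_trace_52 : ∃ P : ℕ, ∀ p : ℕ, p.Prime → P ≤ p →
    (5 / 2 - 1 / ((p : ℝ) - 1)) ∈ cycTraceSet := by
  obtain ⟨f, hf, hG⟩ := gal_exists K5
  refine ⟨f + 7, fun p hp hP => ?_⟩
  have hn : f * p ≠ 0 := (Nat.mul_pos hf hp.pos).ne'
  have hzp : IsPrimitiveRoot (zt (f * p)) (f * p) := zt_pow _ hn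
  obtain ⟨zL, hzL⟩ : ∃ zL : Ln K5 (f * p), (zL : ℂ) = zt (f * p) := ⟨⟨_, zt_mem K5 (f * p)⟩, rfl⟩
  obtain ⟨gL, hgL⟩ : ∃ gL : Ln K5 (f * p), (gL : ℂ) = gd :=
    ⟨⟨gd, (le_sup_left : K5 ≤ Ln K5 (f * p)) gd_mem⟩, rfl⟩
  obtain ⟨wL, hwL⟩ : ∃ wL : Ln K5 (f * p), wL = zL ^ f := ⟨_, rfl⟩
  have hwp : IsPrimitiveRoot (wL : ℂ) p := by
    have h1 : (wL : ℂ) = zt (f * p) ^ f := by
      rw [hwL]
      push_cast
      rw [hzL]
    rw [h1]
    exact hzp.pow (Nat.mul_pos hf hp.pos) rfl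
  have hwpL : IsPrimitiveRoot wL p := by
    refine IsPrimitiveRoot.of_map_of_injective
      (f := (Ln K5 (f * p)).val) ?_ (RingHom.injective _)
    exact hwp
  obtain ⟨x, hx⟩ : ∃ x : Ln K5 (f * p), x = 2 + gL + gL * (wL + wL ^ (p - 1)) := ⟨_, rfl⟩
  have hxc : (x : ℂ) = 2 + gd + gd * ((wL : ℂ) + (wL : ℂ) ^ (p - 1)) := by
    have h4 : (x : ℂ) = 2 + (gL : ℂ) + (gL : ℂ) * ((wL : ℂ) + (wL : ℂ) ^ (p - 1)) := by
      rw [hx]
      push_cast
      rfl
    rw [h4, hgL]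
  have hcyc : IsCyclotomicInteger (x : ℂ) := by
    rw [← mem_Rinf_bot_iff, hxc]
    have h1 : zt 5 ∈ Rinf ⊥ :=
      Subring.subset_closure (Or.inr ⟨5, by norm_num, (zt_pow 5 (by norm_num)).pow_eq_one⟩)
    have h2 : (wL : ℂ) ∈ Rinf ⊥ :=
      Subring.subset_closure (Or.inr ⟨p, hp.pos, hwp.pow_eq_one⟩)
    have h3 : gd ∈ Rinf ⊥ :=
      Subring.add_mem _ (Subring.add_mem _ (Subring.one_mem _) h1) (Subring.pow_mem _ h1 4)
    have h4 : (2 : ℂ) ∈ Rinf ⊥ := by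
      have := Subring.add_mem (Rinf ⊥) (Subring.one_mem _) (Subring.one_mem _)
      have h5 : (2 : ℂ) = 1 + 1 := by norm_num
      rw [h5]
      exact this
    exact Subring.add_mem _ (Subring.add_mem _ h4 h3)
      (Subring.mul_mem _ h3 (Subring.add_mem _ h2 (Subring.pow_mem _ h2 _)))
  have hxint : IsIntegral ℤ (x : ℂ) := hcyc.1
  have hgL2 : gL ^ 2 = gL + 1 := by
    apply Subtype.ext
    push_cast
    rw [hgL]
    exact gd_sq
  have hφg : ∀ φ : Ln K5 (f * p) →ₐ[ℚ] ℂ, (φ gL) ^ 2 = φ gL + 1 := fun φ => by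
    rw [← map_pow, hgL2, map_add, map_one]
  have hφy : ∀ φ : Ln K5 (f * p) →ₐ[ℚ] ℂ, IsPrimitiveRoot (φ wL) p :=
    fun φ => hwpL.map_of_injective (RingHom.injective φ.toRingHom)
  have hφx : ∀ φ : Ln K5 (f * p) →ₐ[ℚ] ℂ,
      φ x = 2 + φ gL + φ gL * (φ wL + φ wL ^ (p - 1)) := by
    intro φ
    rw [hx, map_add, map_add, map_mul, map_add, map_pow, map_ofNat]
  refine ⟨(x : ℂ), hcyc, ⟨hxint, ?_⟩, ?_⟩
  · intro w hw
    have h4 : w ∈ (minpoly ℚ x).rootSet ℂ := by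
      rw [← emb_minpoly, Polynomial.mem_rootSet']
      exact (Polynomial.mem_aroots').1 hw
    rw [← Algebra.IsAlgebraic.range_eval_eq_rootSet_minpoly (F := ℚ)
      (K := Ln K5 (f * p)) ℂ x] at h4
    obtain ⟨φ, rfl⟩ := h4
    obtain ⟨r, hr, h6⟩ := pos_val hp (hφg φ) (hφy φ)
    exact ⟨r, hr, (hφx φ).trans h6⟩
  · have h4 := sum_emb (Ln K5 (f * p)) x
    have h5 := sum_emb (Ln K5 (f * p)) gL
    rw [hgL, meanTrace_gd] at h5
    obtain ⟨N, hN⟩ : ∃ N : ℂ, N = (Fintype.card (Ln K5 (f * p) →ₐ[ℚ] ℂ) : ℂ) := ⟨_, rfl⟩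
    rw [← hN] at h4 h5
    have hN0 : N ≠ 0 := by
      rw [hN]
      have : 0 < Fintype.card (Ln K5 (f * p) →ₐ[ℚ] ℂ) := Fintype.card_pos_iff.2 ⟨(Ln K5 (f * p)).val⟩
      exact_mod_cast this.ne'
    have hp1 : ((p - 1 : ℕ) : ℂ) = (p : ℂ) - 1 := by
      rw [Nat.cast_sub hp.one_le, Nat.cast_one]
    have hp0 : (p : ℂ) - 1 ≠ 0 := by
      rw [← hp1]
      exact_mod_cast (by omega : p - 1 ≠ 0)
    -- the sum over the embeddings of the trigonometric part
    have hT : ((p : ℂ) - 1) * ∑ φ : Ln K5 (f * p) →ₐ[ℚ] ℂ, φ (gL * (wL + wL ^ (p - 1))) =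
        -2 * ∑ φ : Ln K5 (f * p) →ₐ[ℚ] ℂ, φ gL := by
      have h6 : ∀ a ∈ Finset.Ico 1 p,
          ∑ φ : Ln K5 (f * p) →ₐ[ℚ] ℂ, φ (gL * (wL + wL ^ (p - 1))) =
          ∑ φ : Ln K5 (f * p) →ₐ[ℚ] ℂ, φ gL * ((φ wL) ^ a + ((φ wL) ^ a) ^ (p - 1)) := by
        intro a ha
        obtain ⟨σ, h1, h2⟩ := exists_aut hf hG hp (by omega) zL hzL a ha
        have h3 := fammk_sum_comp (Ln K5 (f * p)) σ (fun z : ℂ => z) (gL * (wL + wL ^ (p - 1)))
        rw [← h3]
        refine Finset.sum_congr rfl fun φ _ => ?_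
        rw [← hwL] at h2
        have h7 : σ gL = gL := h1 gL (by rw [hgL]; exact gd_mem)
        simp only [map_mul, map_add, map_pow, h7, h2]
      have h7 : ∑ a ∈ Finset.Ico 1 p, ∑ φ : Ln K5 (f * p) →ₐ[ℚ] ℂ, φ (gL * (wL + wL ^ (p - 1))) =
          ((p : ℂ) - 1) * ∑ φ : Ln K5 (f * p) →ₐ[ℚ] ℂ, φ (gL * (wL + wL ^ (p - 1))) := by
        rw [Finset.sum_const, Nat.card_Ico, nsmul_eq_mul, hp1]
      rw [← h7, Finset.sum_congr rfl h6, Finset.sum_comm, Finset.mul_sum]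
      refine Finset.sum_congr rfl fun φ _ => ?_
      rw [← Finset.mul_sum, Finset.sum_add_distrib, sum_pow hp (hφy φ), sum_pow' hp (hφy φ)]
      ring
    have h8 : ∑ φ : Ln K5 (f * p) →ₐ[ℚ] ℂ, φ x = 2 * N + ∑ φ : Ln K5 (f * p) →ₐ[ℚ] ℂ, φ gL +
        ∑ φ : Ln K5 (f * p) →ₐ[ℚ] ℂ, φ (gL * (wL + wL ^ (p - 1))) := by
      have h9 : ∀ φ : Ln K5 (f * p) →ₐ[ℚ] ℂ, φ x = 2 + φ gL + φ (gL * (wL + wL ^ (p - 1))) := by
        intro φ
        rw [hx, map_add, map_add, map_ofNat]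
      rw [Finset.sum_congr rfl fun φ _ => h9 φ, Finset.sum_add_distrib,
        Finset.sum_add_distrib, Finset.sum_const, Finset.card_univ, nsmul_eq_mul, ← hN]
      ring
    rw [h5] at hT h8
    have h10 : ∑ φ : Ln K5 (f * p) →ₐ[ℚ] ℂ, φ (gL * (wL + wL ^ (p - 1))) =
        -N / ((p : ℂ) - 1) := by
      rw [eq_div_iff hp0]
      linear_combination hT
    rw [h10, h4] at h8
    have h11 : STP.meanTrace (x : ℂ) = 5 / 2 - 1 / ((p : ℂ) - 1) := by
      have h12 : N * STP.meanTrace (x : ℂ) = N * (5 / 2 - 1 / ((p : ℂ) - 1)) := by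
        rw [h8]
        field_simp
        ring
      exact mul_left_cancel₀ hN0 h12
    rw [h11]
    push_cast
    rfl

theorem limit_52 : STP.IsLimitPoint cycTraceSet (5 / 2) := by
  intro U hU
  obtain ⟨P, hPm⟩ := mem_trace_52
  obtain ⟨ε, hε, hball⟩ := Metric.mem_nhds_iff.1 hU
  obtain ⟨N, hN⟩ := exists_nat_gt (1 / ε + 3)
  have hinf : {p : ℕ | (N ≤ p ∧ P ≤ p) ∧ p.Prime}.Infinite := by
    rw [Set.infinite_iff_exists_gt]
    intro a
    obtain ⟨p, hp, hpp⟩ := Nat.exists_infinite_primes (max (max N P) (a + 1))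
    have h1 : max N P ≤ p := (le_max_left _ _).trans hp
    exact ⟨p, ⟨⟨(le_max_left _ _).trans h1, (le_max_right _ _).trans h1⟩, hpp⟩,
      (le_max_right _ _).trans hp⟩
  have h3N : (3 : ℝ) < N := lt_of_le_of_lt (by have : 0 < 1 / ε := by positivity
                                               linarith) hN
  have hinj : Set.InjOn (fun p : ℕ => (5 / 2 - 1 / ((p : ℝ) - 1) : ℝ))
      {p : ℕ | (N ≤ p ∧ P ≤ p) ∧ p.Prime} := by
    intro p hp q hq hpq
    have hp1 : (N : ℝ) ≤ p := by exact_mod_cast hp.1.1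
    have hq1 : (N : ℝ) ≤ q := by exact_mod_cast hq.1.1
    have hpq' : 1 / ((p : ℝ) - 1) = 1 / ((q : ℝ) - 1) := by
      simp only at hpq
      linarith
    rw [div_eq_div_iff (by linarith) (by linarith)] at hpq'
    have : (p : ℝ) = q := by linarith
    exact_mod_cast this
  refine (hinf.image hinj).mono ?_
  rintro _ ⟨p, ⟨⟨hp, hPp⟩, hpp⟩, rfl⟩
  have hp1 : (N : ℝ) ≤ p := by exact_mod_cast hp
  refine ⟨hball ?_, hPm p hpp hPp⟩
  rw [Metric.mem_ball, Real.dist_eq]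
  have hpos : 0 < 1 / ((p : ℝ) - 1) := div_pos one_pos (by linarith)
  have hlt : 1 / ((p : ℝ) - 1) < ε := by
    rw [div_lt_iff₀ (by linarith)]
    have h1 : 1 / ε < (p : ℝ) - 1 := by linarith
    rw [div_lt_iff₀ hε] at h1
    linarith
  simp only [sub_sub_cancel_left, abs_neg]
  rwa [abs_of_pos hpos]

end Pool.Agent.CYC
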