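import Mathlib
import Pool.Agent.Lib.MP_8ca0c8_nt_CYC2.Level2
import Pool.Agent.Lib.MP_8ca0c8_nt_CYC2.ExcLim
import Pool.Agent.Lib.MP_8ca0c8_nt_CYC2.Lim52
import Pool.Agent.Lib.MP_8ca0c8_nt_CYC.Final

/-! Project CYC2 (MP_8ca0c8_nt): the final theorem. -/

namespace Pool.Agent.CYC

theorem lim_mono (K : IntermediateField ℚ ℂ) {x : ℝ} (h : STP.IsLimitPoint cycTraceSet x) :
    STP.IsLimitPoint (traceSetOf (Rinf K)) x := by
  intro U hU
  refine (h U hU).mono ?_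
  rintro t ⟨ht, α, h1, h2, h3⟩
  exact ⟨ht, α, Rinf_bot_le K (cyclotomicInteger_mem h1), h2, h3⟩

/-- every limit point below `5 / 2` is equal to `2` -/
theorem exc_limit (K : IntermediateField ℚ ℂ) [FiniteDimensional ℚ K] (x : ℝ)
    (hx : STP.IsLimitPoint (traceSetOf (Rinf K)) x) (hx2 : x < 5 / 2) : x = 2 := by
  by_contra hne
  set δ : ℝ := |x - 2| / 2 with hδ
  have hδ0 : 0 < δ := by
    have : 0 < |x - 2| := abs_pos.mpr (sub_ne_zero.mpr hne)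
    positivity
  set ε : ℝ := (5 / 2 - x) / 2 with hε
  have hε0 : 0 < ε := by
    have : 0 < 5 / 2 - x := by linarith
    positivity
  have hfin1 := main_finite2 K ε hε0
  have hfin2 := exc_fin δ hδ0
  have hU : Set.Iio (5 / 2 - ε) ∩ Metric.ball x δ ∈ nhds x :=
    Filter.inter_mem (Iio_mem_nhds (by linarith)) (Metric.ball_mem_nhds x hδ0)
  refine hx _ hU (((hfin1.union hfin2).image fun α => (STP.meanTrace α).re).subset ?_)
  rintro t ⟨⟨ht1, ht2⟩, α, hα, hpos, hmt⟩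
  refine ⟨α, ?_, by simp only [hmt, Complex.ofReal_re]⟩
  by_cases hex : ∃ η : ℂ, (∃ k : ℕ, 0 < k ∧ η ^ k = 1) ∧ α = 2 + η + η⁻¹
  · right
    refine ⟨hex, hpos, ?_⟩
    rw [hmt, Complex.ofReal_re]
    rw [Metric.mem_ball, Real.dist_eq] at ht2
    have h1 : |x - 2| ≤ |x - t| + |t - 2| := by
      have := abs_add_le (x - t) (t - 2)
      rwa [sub_add_sub_cancel] at this
    rw [abs_sub_comm x t] at h1
    have h2 : |x - 2| = 2 * δ := by rw [hδ]; ring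
    linarith
  · left
    refine ⟨hα, hpos, ?_, fun η hη h => hex ⟨η, hη, h⟩⟩
    rw [hmt, Complex.ofReal_re]
    exact ht1

theorem final2 (K : IntermediateField ℚ ℂ) [FiniteDimensional ℚ K] :
    {x : ℝ | x ≤ 5 / 2 ∧ STP.IsLimitPoint (traceSetOf (Rinf K)) x} = {2, 5 / 2} ∧
    (∀ ε : ℝ, 0 < ε →
      {α : ℂ | α ∈ Rinf K ∧ STP.IsTotallyPositive α ∧ (STP.meanTrace α).re < 2 - ε}.Finite) ∧
    ∀ ε : ℝ, 0 < ε →
      {α : ℂ | α ∈ Rinf K ∧ STP.IsTotallyPositive α ∧ (STP.meanTrace α).re < 5 / 2 - ε ∧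
        ∀ η : ℂ, (∃ k : ℕ, 0 < k ∧ η ^ k = 1) → α ≠ 2 + η + η⁻¹}.Finite := by
  refine ⟨?_, fun ε hε => main_finite K ε hε, fun ε hε => main_finite2 K ε hε⟩
  ext x
  simp only [Set.mem_setOf_eq, Set.mem_insert_iff, Set.mem_singleton_iff]
  constructor
  · rintro ⟨h1, h2⟩
    rcases lt_or_eq_of_le h1 with h3 | h3
    · exact Or.inl (exc_limit K x h2 h3)
    · exact Or.inr h3
  · rintro (rfl | rfl)
    · exact ⟨by norm_num, lim_mono K limit_two⟩
    · exact ⟨le_rfl, lim_mono K limit_52⟩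

end Pool.Agent.CYC
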